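import Pool.Agent.Work.MP_99279c_al.AA.Cheb

/-!
# Uniform version: explicit dependence on the proportion
-/

set_option autoImplicit false
set_option linter.unusedSectionVars false

namespace Pool.MP99279c.AA

open Finset Function

/-- the error terms of the pair bound, explicit form -/
theorem error_explicit (δ : ℝ) (hδ : 0 < δ) (hδ1 : δ ≤ 1 / 3000) (K m : ℕ)
    (hK : (K : ℝ) ≤ 2 / δ ^ 2) (hm1 : 1 / δ ^ 4 ≤ (m : ℝ)) (hm2 : (m : ℝ) ≤ 2 / δ ^ 4)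
    (u : ℝ) (hu : 0 < u) (hu2 : u ≤ δ ^ 18) :
      (δ ^ 3 + u) + (1 / δ ^ 2) * (2 * (1 - δ ^ 3) ^ m + 2 * ((m * K : ℕ) : ℝ) ^ 2 * u)
        + (δ + u) * (δ / (1 - δ ^ 2) + δ ^ 2 + u / δ ^ 3
          + (m + 1 : ℕ) * u / ((1 - δ ^ 2) * (δ ^ 2) ^ 2)) ≤ δ ^ 2 + 5 * δ ^ 3 := by
  have hδ1' : δ ≤ 1 := by linarith
  have hd2 : δ ^ 2 ≤ 1 / 2 := by nlinarith
  have hd2pos : 0 < δ ^ 2 := by positivity
  have hd3pos : 0 < δ ^ 3 := by positivity
  have h0 : 0 ≤ 1 - δ ^ 3 := by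
    have : δ ^ 3 ≤ 1 := pow_le_one₀ hδ.le hδ1'
    linarith
  -- (a)
  have ha : (1 - δ ^ 3) ^ m ≤ 720 * δ ^ 6 := by
    have e1 : 1 - δ ^ 3 ≤ Real.exp (-(δ ^ 3)) := by
      have := Real.add_one_le_exp (-(δ ^ 3))
      linarith
    have e2 : (1 - δ ^ 3) ^ m ≤ Real.exp (-(1 / δ)) := by
      calc (1 - δ ^ 3) ^ m ≤ (Real.exp (-(δ ^ 3))) ^ m := pow_le_pow_left₀ h0 e1 m
        _ = Real.exp (m * (-(δ ^ 3))) := by rw [← Real.exp_nat_mul]
        _ ≤ Real.exp (-(1 / δ)) := by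
            apply Real.exp_le_exp.mpr
            have e3 : 1 / δ ≤ m * δ ^ 3 := by
              have e4 : (1 / δ ^ 4) * δ ^ 3 ≤ m * δ ^ 3 :=
                mul_le_mul_of_nonneg_right hm1 (by positivity)
              have e5 : (1 / δ ^ 4) * δ ^ 3 = 1 / δ := by field_simp
              linarith
            linarith
    refine e2.trans ?_
    have e3 := Real.pow_div_factorial_le_exp (1 / δ) (by positivity) 6
    have e4 : ((Nat.factorial 6 : ℕ) : ℝ) = 720 := by norm_num [Nat.factorial]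
    rw [e4] at e3
    rw [Real.exp_neg]
    have e5 : 0 < (1 / δ) ^ 6 / 720 := by positivity
    have e6 := inv_anti₀ e5 e3
    refine e6.trans (le_of_eq ?_)
    field_simp
  -- (b)
  have hb : (1 / δ ^ 2) * (2 * (1 - δ ^ 3) ^ m) ≤ δ ^ 3 / 2 := by
    have e1 : (1 / δ ^ 2) * (2 * (1 - δ ^ 3) ^ m) ≤ (1 / δ ^ 2) * (2 * (720 * δ ^ 6)) := by
      apply mul_le_mul_of_nonneg_left _ (by positivity)
      linarith
    have e2 : (1 / δ ^ 2) * (2 * (720 * δ ^ 6)) = 1440 * δ * δ ^ 3 := by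
      field_simp
      ring
    rw [e2] at e1
    have e3 : 1440 * δ ≤ 1 / 2 := by linarith
    nlinarith
  -- (c)
  have hc : (1 / δ ^ 2) * (2 * ((m * K : ℕ) : ℝ) ^ 2 * u) ≤ δ ^ 3 / 10 := by
    have e1 : ((m * K : ℕ) : ℝ) ≤ 4 / δ ^ 6 := by
      push_cast
      calc (m : ℝ) * K ≤ (2 / δ ^ 4) * (2 / δ ^ 2) :=
            mul_le_mul hm2 hK (by positivity) (by positivity)
        _ = 4 / δ ^ 6 := by field_simp; ring
    have e2 : ((m * K : ℕ) : ℝ) ^ 2 ≤ (4 / δ ^ 6) ^ 2 := pow_le_pow_left₀ (by positivity) e1 2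
    calc (1 / δ ^ 2) * (2 * ((m * K : ℕ) : ℝ) ^ 2 * u)
        ≤ (1 / δ ^ 2) * (2 * (4 / δ ^ 6) ^ 2 * δ ^ 18) := by
          apply mul_le_mul_of_nonneg_left _ (by positivity)
          apply mul_le_mul _ hu2 hu.le (by positivity)
          linarith
      _ = 32 * δ * δ ^ 3 := by
          field_simp
          ring
      _ ≤ δ ^ 3 / 10 := by
          have : 32 * δ ≤ 1 / 10 := by linarith
          nlinarith
  -- powers
  have hp : ∀ k : ℕ, δ ^ (k + 3) ≤ δ ^ 3 := fun k => pow_le_pow_of_le_one hδ.le hδ1' (by omega)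
  have hd18 : δ ^ 18 ≤ δ ^ 3 / 10 := by
    have e1 : δ ^ 18 = δ * δ ^ 17 := by ring
    have e2 : δ ^ 17 ≤ δ ^ 3 := hp 14
    have e3 : 0 < δ ^ 17 := by positivity
    rw [e1]
    nlinarith
  have hd18' : δ ^ 18 ≤ δ ^ 2 / 100 := by
    have e1 : δ ^ 3 = δ * δ ^ 2 := by ring
    rw [e1] at hd18
    nlinarith
  have he1 : δ / (1 - δ ^ 2) ≤ δ + δ ^ 2 := by
    rw [div_le_iff₀ (by linarith)]
    have : δ ^ 2 ≤ 1 / 100 := by nlinarith
    nlinarith [mul_pos hδ hd2pos, mul_pos hd2pos hd2pos]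
  have he2 : u / δ ^ 3 ≤ δ ^ 2 / 100 := by
    have e1 : u / δ ^ 3 ≤ δ ^ 18 / δ ^ 3 := div_le_div_of_nonneg_right hu2 hd3pos.le
    have e2 : δ ^ 18 / δ ^ 3 = δ * δ ^ 14 := by field_simp
    have e3 : δ ^ 14 ≤ δ ^ 2 := pow_le_pow_of_le_one hδ.le hδ1' (by omega)
    have e4 : 0 < δ ^ 14 := by positivity
    rw [e2] at e1
    nlinarith
  have he3 : ((m + 1 : ℕ) : ℝ) * u / ((1 - δ ^ 2) * (δ ^ 2) ^ 2) ≤ δ ^ 2 / 100 := by
    have e1 : ((m + 1 : ℕ) : ℝ) ≤ 3 / δ ^ 4 := by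
      push_cast
      have : (1 : ℝ) ≤ 1 / δ ^ 4 := by
        rw [le_div_iff₀ (by positivity), one_mul]
        exact pow_le_one₀ hδ.le hδ1'
      have e : (3 : ℝ) / δ ^ 4 = 2 / δ ^ 4 + 1 / δ ^ 4 := by ring
      rw [e]
      linarith
    have e2 : ((m + 1 : ℕ) : ℝ) * u ≤ (3 / δ ^ 4) * δ ^ 18 :=
      mul_le_mul e1 hu2 hu.le (by positivity)
    have e3 : (1 / 2) * δ ^ 4 ≤ (1 - δ ^ 2) * (δ ^ 2) ^ 2 := by
      have : (δ ^ 2) ^ 2 = δ ^ 4 := by ring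
      rw [this]
      apply mul_le_mul_of_nonneg_right _ (by positivity)
      linarith
    calc ((m + 1 : ℕ) : ℝ) * u / ((1 - δ ^ 2) * (δ ^ 2) ^ 2)
        ≤ ((3 / δ ^ 4) * δ ^ 18) / ((1 / 2) * δ ^ 4) :=
          div_le_div₀ (by positivity) e2 (by positivity) e3
      _ = 6 * δ * δ ^ 9 := by
          field_simp
          ring
      _ ≤ δ ^ 2 / 100 := by
          have e4 : δ ^ 9 ≤ δ ^ 2 := pow_le_pow_of_le_one hδ.le hδ1' (by omega)
          have e5 : 0 < δ ^ 9 := by positivity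
          nlinarith
  have hf1 : δ + u ≤ δ + δ ^ 2 / 100 := by linarith
  have hf2 : δ / (1 - δ ^ 2) + δ ^ 2 + u / δ ^ 3
          + (m + 1 : ℕ) * u / ((1 - δ ^ 2) * (δ ^ 2) ^ 2) ≤ δ + 2.02 * δ ^ 2 := by linarith
  have hf3 : 0 ≤ δ / (1 - δ ^ 2) + δ ^ 2 + u / δ ^ 3
          + (m + 1 : ℕ) * u / ((1 - δ ^ 2) * (δ ^ 2) ^ 2) := by
    have : 0 < 1 - δ ^ 2 := by linarith
    positivity
  have hf4 : (δ + u) * (δ / (1 - δ ^ 2) + δ ^ 2 + u / δ ^ 3
          + (m + 1 : ℕ) * u / ((1 - δ ^ 2) * (δ ^ 2) ^ 2)) ≤ δ ^ 2 + 2.1 * δ ^ 3 := by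
    refine (mul_le_mul hf1 hf2 hf3 (by positivity)).trans ?_
    have e1 : (δ + δ ^ 2 / 100) * (δ + 2.02 * δ ^ 2)
        = δ ^ 2 + 2.03 * δ ^ 3 + 0.0202 * δ * δ ^ 3 := by ring
    rw [e1]
    have : 0.0202 * δ * δ ^ 3 ≤ 0.07 * δ ^ 3 := by
      apply mul_le_mul_of_nonneg_right _ hd3pos.le
      linarith
    linarith
  have hg : (1 / δ ^ 2) * (2 * (1 - δ ^ 3) ^ m + 2 * ((m * K : ℕ) : ℝ) ^ 2 * u)
      = (1 / δ ^ 2) * (2 * (1 - δ ^ 3) ^ m) + (1 / δ ^ 2) * (2 * ((m * K : ℕ) : ℝ) ^ 2 * u) := by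
    ring
  rw [hg]
  linarith

theorem giant_explicit (ε δ : ℝ) (hε : 0 < ε) (hδ : 0 < δ) (hδ0 : δ ≤ 1 / 3000) (hδε : 20 * δ ≤ ε)
    (K : ℕ) (hK : 4 / (ε * δ) < K) (hK2 : (K : ℝ) ≤ 2 / δ ^ 2) (n : ℕ) (hn : 1 ≤ δ ^ 18 * n)
    (x0 : Fin n) :
      ((univ.filter (fun p : Equiv.Perm (Fin n) × Equiv.Perm (Fin n) =>
        ∀ i < K, (cyc (p.1 * p.2 ^ i) x0).card < n - ⌊δ * n⌋₊)).card : ℝ)
        ≤ ε / 2 * (n.factorial : ℝ) ^ 2 := by
  classical
  have hδ1 : δ ≤ 1 / 10 := by linarith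
  have hδ1' : δ ≤ 1 := by linarith
  have hKpos : (0 : ℝ) < K := lt_trans (by positivity) hK
  have hnR : (0 : ℝ) < n := by
    by_contra h
    push Not at h
    have : (0 : ℝ) < δ ^ 18 := by positivity
    nlinarith
  have hn0 : 0 < n := by exact_mod_cast hnR
  set m := ⌈1 / δ ^ 4⌉₊ with hm
  have hm1 : 1 / δ ^ 4 ≤ (m : ℝ) := Nat.le_ceil _
  have hm2 : (m : ℝ) ≤ 2 / δ ^ 4 := by
    have e1 : (m : ℝ) < 1 / δ ^ 4 + 1 := Nat.ceil_lt_add_one (by positivity)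
    have e2 : (1 : ℝ) ≤ 1 / δ ^ 4 := by
      rw [le_div_iff₀ (by positivity), one_mul]
      exact pow_le_one₀ hδ.le hδ1'
    have e : (2 : ℝ) / δ ^ 4 = 1 / δ ^ 4 + 1 / δ ^ 4 := by ring
    rw [e]
    linarith
  have herr := error_explicit δ hδ hδ0 K m hK2 hm1 hm2
  have hu : (1 : ℝ) / n ≤ δ ^ 18 := by
    rw [div_le_iff₀ hnR]
    exact hn
  have hδ3 : 10 < δ ^ 3 * n := by
    have e1 : δ ^ 18 * n = δ ^ 15 * (δ ^ 3 * n) := by ring
    rw [e1] at hn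
    have e2 : δ ^ 15 ≤ 1 / 3000 := by
      calc δ ^ 15 ≤ δ ^ 1 := pow_le_pow_of_le_one hδ.le hδ1' (by omega)
        _ = δ := pow_one δ
        _ ≤ 1 / 3000 := hδ0
    have e3 : 0 < δ ^ 3 * n := by positivity
    nlinarith
  have hnn3 : 2 * (m * K) * (m * K) + 10 ≤ n := by
    have e1 : ((m * K : ℕ) : ℝ) ≤ 4 / δ ^ 6 := by
      push_cast
      calc (m : ℝ) * K ≤ (2 / δ ^ 4) * (2 / δ ^ 2) :=
            mul_le_mul hm2 hK2 (by positivity) (by positivity)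
        _ = 4 / δ ^ 6 := by field_simp; ring
    have e2 : ((m * K : ℕ) : ℝ) * ((m * K : ℕ) : ℝ) ≤ (4 / δ ^ 6) * (4 / δ ^ 6) :=
      mul_le_mul e1 e1 (by positivity) (by positivity)
    have e3 : (4 / δ ^ 6) * (4 / δ ^ 6) ≤ 16 * δ ^ 6 * n := by
      have f1 : (4 / δ ^ 6) * (4 / δ ^ 6) = 16 / δ ^ 12 := by field_simp; ring
      rw [f1, div_le_iff₀ (by positivity)]
      have f2 : 16 * δ ^ 6 * n * δ ^ 12 = 16 * (δ ^ 18 * n) := by ring
      rw [f2]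
      linarith
    have e4 : δ ^ 6 ≤ 1 / 3000 := by
      calc δ ^ 6 ≤ δ ^ 1 := pow_le_pow_of_le_one hδ.le hδ1' (by omega)
        _ = δ := pow_one δ
        _ ≤ 1 / 3000 := hδ0
    have e5 : 16 * δ ^ 6 * n ≤ 16 * (1 / 3000) * n := by
      apply mul_le_mul_of_nonneg_right _ hnR.le
      linarith
    have e6 : (3000 : ℝ) ≤ n := by
      have f1 : δ ^ 18 ≤ 1 / 3000 := by
        calc δ ^ 18 ≤ δ ^ 1 := pow_le_pow_of_le_one hδ.le hδ1' (by omega)
          _ = δ := pow_one δ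
          _ ≤ 1 / 3000 := hδ0
      have f2 := mul_le_mul_of_nonneg_right f1 hnR.le
      linarith
    have e7 : ((2 * (m * K) * (m * K) + 10 : ℕ) : ℝ) ≤ (n : ℝ) := by
      push_cast
      push_cast at e2
      nlinarith
    exact_mod_cast e7
  have hcard : Fintype.card (Fin n) = n := Fintype.card_fin n
  set D := ⌊δ * n⌋₊ with hD
  have hDle : (D : ℝ) ≤ δ * n := Nat.floor_le (by positivity)
  have hDge : δ * n < D + 1 := Nat.lt_floor_add_one _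
  have hδn : δ * n ≤ 1 / 10 * n := mul_le_mul_of_nonneg_right hδ1 hnR.le
  have hDn : D < n := by
    have : (D : ℝ) < n := by linarith
    exact_mod_cast this
  set g0 := n - D with hg0
  have hg01 : 1 ≤ g0 := by omega
  have hng0 : n - g0 = D := by omega
  have hng1 : n + 1 - g0 = D + 1 := by omega
  set p : ℝ := ((D + 1 : ℕ) : ℝ) / n with hp
  have hpδ : δ ≤ p := by
    rw [hp, le_div_iff₀ hnR]
    push_cast
    exact hDge.le
  have hpδ' : p ≤ δ + 1 / n := by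
    rw [hp, div_le_iff₀ hnR, add_mul, one_div, inv_mul_cancel₀ hnR.ne']
    push_cast
    linarith
  -- parameters of the pair bound
  set b := ⌊δ ^ 2 * n⌋₊ with hb
  set N0 := ⌈δ ^ 3 * n⌉₊ with hN0
  have hble : (b : ℝ) ≤ δ ^ 2 * n := Nat.floor_le (by positivity)
  have hbge : δ ^ 2 * n < b + 1 := Nat.lt_floor_add_one _
  have hN0ge : δ ^ 3 * n ≤ N0 := Nat.le_ceil _
  have hN0le : (N0 : ℝ) < δ ^ 3 * n + 1 := Nat.ceil_lt_add_one (by positivity)
  have hd2 : δ ^ 2 ≤ 1 / 100 := by nlinarith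
  have hd3 : δ ^ 3 ≤ 1 / 1000 := by
    calc δ ^ 3 ≤ (1 / 10 : ℝ) ^ 3 := pow_le_pow_left₀ hδ.le hδ1 3
      _ = 1 / 1000 := by norm_num
  have hd2n : δ ^ 2 * n ≤ 1 / 100 * n := mul_le_mul_of_nonneg_right hd2 hnR.le
  have hd3n : δ ^ 3 * n ≤ 1 / 1000 * n := mul_le_mul_of_nonneg_right hd3 hnR.le
  have hbg0 : b < g0 := by
    have h1 : (b : ℝ) + D < n := by linarith
    have h2 : b + D < n := by exact_mod_cast h1
    omega
  have hbn : b < n := by omega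
  have hN01 : 1 ≤ N0 := by
    have : (0 : ℝ) < N0 := by linarith
    exact_mod_cast this
  have hn10 : (10 : ℝ) ≤ n := by
    have : 10 ≤ n := by omega
    exact_mod_cast this
  have hN0n : N0 ≤ n := by
    have : (N0 : ℝ) ≤ n := by linarith
    exact_mod_cast this
  set ρ : ℝ := δ ^ 2 + 5 * δ ^ 3 with hρ
  have hpair : ∀ k, 1 ≤ k → k ≤ K → ((univ.filter
      (fun q : Equiv.Perm (Fin n) × Equiv.Perm (Fin n) => g0 ≤ (cyc q.1 x0).card ∧
      g0 ≤ (cyc (q.1 * q.2 ^ k) x0).card)).card : ℝ) ≤ ρ * (n.factorial : ℝ) ^ 2 := by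
    intro k hk1 hkK
    have hmk : m * k ≤ m * K := Nat.mul_le_mul_left _ hkK
    have hJ : 2 * (m * k) * (m * k) ≤ Fintype.card (Fin n) := by
      rw [hcard]
      have h1 : (m * k) * (m * k) ≤ (m * K) * (m * K) := Nat.mul_le_mul hmk hmk
      rw [mul_assoc] at hnn3 ⊢
      omega
    have h1 := pair_bound x0 g0 N0 b m k (δ ^ 2) hg01 hN01 hbg0 (by rw [hcard]; exact hbn) hk1
      (by positivity) (by rw [hcard]; exact hN0n) hJ
    rw [hcard, hng0, hng1] at h1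
    refine h1.trans ?_
    rw [mul_comm]
    apply mul_le_mul_of_nonneg_right _ (by positivity)
    refine le_trans ?_ (herr (1 / n) (by positivity) hu)
    have t1 : (N0 : ℝ) / n ≤ δ ^ 3 + 1 / n := by
      rw [div_le_iff₀ hnR, add_mul, one_div, inv_mul_cancel₀ hnR.ne']
      exact hN0le.le
    have t2 : (n : ℝ) / ((b : ℝ) + 1) ≤ 1 / δ ^ 2 := by
      rw [div_le_div_iff₀ (by positivity) (by positivity)]
      linarith
    have t3 : (1 - (N0 : ℝ) / n) ^ m ≤ (1 - δ ^ 3) ^ m := by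
      apply pow_le_pow_left₀
      · rw [sub_nonneg, div_le_one hnR]
        exact_mod_cast hN0n
      · have : δ ^ 3 ≤ (N0 : ℝ) / n := by
          rw [le_div_iff₀ hnR]
          exact hN0ge
        linarith
    have t4 : 2 * ((m * k : ℕ) : ℝ) ^ 2 / n ≤ 2 * ((m * K : ℕ) : ℝ) ^ 2 * (1 / n) := by
      rw [div_eq_mul_one_div]
      apply mul_le_mul_of_nonneg_right _ (by positivity)
      have : ((m * k : ℕ) : ℝ) ≤ ((m * K : ℕ) : ℝ) := by exact_mod_cast hmk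
      have h0 : (0 : ℝ) ≤ ((m * k : ℕ) : ℝ) := by positivity
      have h1 := pow_le_pow_left₀ h0 this 2
      linarith
    have t5 : (0 : ℝ) ≤ (1 - (N0 : ℝ) / n) ^ m := by
      apply pow_nonneg
      rw [sub_nonneg, div_le_one hnR]
      exact_mod_cast hN0n
    have hnb : (1 - δ ^ 2) * n ≤ ((n - b : ℕ) : ℝ) := by
      rw [Nat.cast_sub hbn.le]
      linarith
    have hnb0 : (0 : ℝ) < (1 - δ ^ 2) * n := by
      apply mul_pos _ hnR
      linarith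
    have t6 : ((D : ℕ) : ℝ) / (n - b : ℕ) ≤ δ / (1 - δ ^ 2) := by
      have e1 : ((D : ℕ) : ℝ) / (n - b : ℕ) ≤ (δ * n) / ((1 - δ ^ 2) * n) :=
        div_le_div₀ (by positivity) hDle hnb0 hnb
      rwa [mul_div_mul_right _ _ hnR.ne'] at e1
    have t7 : (1 : ℝ) / N0 ≤ (1 / n) / δ ^ 3 := by
      rw [div_div]
      apply one_div_le_one_div_of_le (by positivity)
      linarith
    have t8 : ((m + 1 : ℕ) : ℝ) / ((n - b : ℕ) * (δ ^ 2) ^ 2)
        ≤ (m + 1 : ℕ) * (1 / n) / ((1 - δ ^ 2) * (δ ^ 2) ^ 2) := by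
      have e1 : ((m + 1 : ℕ) : ℝ) / ((n - b : ℕ) * (δ ^ 2) ^ 2)
          ≤ ((m + 1 : ℕ) : ℝ) / (((1 - δ ^ 2) * n) * (δ ^ 2) ^ 2) := by
        apply div_le_div_of_nonneg_left (by positivity) (by positivity)
        exact mul_le_mul_of_nonneg_right hnb (by positivity)
      refine e1.trans (le_of_eq ?_)
      have : (1 - δ ^ 2) ≠ 0 := by linarith
      field_simp
    have s1 : (n : ℝ) / ((b : ℝ) + 1) * (2 * (1 - (N0 : ℝ) / n) ^ m
            + 2 * ((m * k : ℕ) : ℝ) ^ 2 / n)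
        ≤ 1 / δ ^ 2 * (2 * (1 - δ ^ 3) ^ m + 2 * ((m * K : ℕ) : ℝ) ^ 2 * (1 / n)) := by
      apply mul_le_mul t2 _ (by positivity) (by positivity)
      linarith
    have s2 : (((D + 1 : ℕ) : ℝ) / n) * (((D : ℕ) : ℝ) / (n - b : ℕ) + δ ^ 2 + 1 / N0
              + (m + 1 : ℕ) / ((n - b : ℕ) * (δ ^ 2) ^ 2))
        ≤ (δ + 1 / n) * (δ / (1 - δ ^ 2) + δ ^ 2 + (1 / n) / δ ^ 3
          + (m + 1 : ℕ) * (1 / n) / ((1 - δ ^ 2) * (δ ^ 2) ^ 2)) := by
      apply mul_le_mul hpδ' _ (by positivity) (by positivity)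
      linarith
    linarith
  -- second moment
  have hM : (Fintype.card (Equiv.Perm (Fin n) × Equiv.Perm (Fin n)) : ℝ)
      = (n.factorial : ℝ) ^ 2 := by
    rw [Fintype.card_prod, Fintype.card_perm, hcard, sq]
    push_cast
    ring
  have h1 := second_moment_zero K (fun i (q : Equiv.Perm (Fin n) × Equiv.Perm (Fin n)) =>
    g0 ≤ (cyc (q.1 * q.2 ^ i) x0).card) ((n.factorial : ℝ) ^ 2) p ρ hM (by positivity)
    (by
      intro i _
      have := card_single x0 g0 i hg01 (by rw [hcard]; exact hn0)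
      rw [hcard, hng1] at this
      exact this)
    (by
      intro i hi j hj hij
      rcases Nat.lt_or_gt_of_ne hij with h | h
      · have e := card_double x0 g0 i j h
        have e2 := hpair (j - i) (by omega) (by omega)
        rw [← e] at e2
        exact e2
      · have e := card_double x0 g0 j i h
        have e2 := hpair (i - j) (by omega) (by omega)
        rw [← e] at e2
        refine le_trans (le_of_eq ?_) e2
        congr 2
        ext q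
        rw [mem_filter, mem_filter, and_comm (a := g0 ≤ (cyc (q.1 * q.2 ^ i) x0).card)])
    (by rw [hρ]; positivity)
  simp only [not_le] at h1
  have hp0 : 0 < p := lt_of_lt_of_le hδ hpδ
  have hKp : 0 < (K * p) ^ 2 := by positivity
  have h2 : ((univ.filter (fun q : Equiv.Perm (Fin n) × Equiv.Perm (Fin n) =>
        ∀ i < K, (cyc (q.1 * q.2 ^ i) x0).card < g0)).card : ℝ)
      ≤ ((K * p + K ^ 2 * (ρ - p ^ 2)) * (n.factorial : ℝ) ^ 2) / (K * p) ^ 2 := by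
    rw [le_div_iff₀ hKp]
    exact h1
  refine h2.trans ?_
  rw [div_le_iff₀ hKp]
  have h3 : K * p + K ^ 2 * (ρ - p ^ 2) ≤ ε / 2 * (K * p) ^ 2 := by
    have a1 : ρ - p ^ 2 ≤ 5 * δ ^ 3 := by
      rw [hρ]
      have := pow_le_pow_left₀ hδ.le hpδ 2
      linarith
    have a2 : 5 * δ ^ 3 ≤ ε / 4 * p ^ 2 := by
      have b1 : 5 * δ ≤ ε / 4 := by linarith
      have b2 : δ ^ 2 ≤ p ^ 2 := pow_le_pow_left₀ hδ.le hpδ 2
      calc 5 * δ ^ 3 = (5 * δ) * δ ^ 2 := by ring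
        _ ≤ (ε / 4) * p ^ 2 := mul_le_mul b1 b2 (by positivity) (by positivity)
    have a3 : (1 : ℝ) ≤ ε / 4 * (K * p) := by
      have b1 : 4 < K * (ε * δ) := by
        rw [div_lt_iff₀ (by positivity)] at hK
        linarith
      have b2 : K * (ε * δ) ≤ K * (ε * p) := by
        apply mul_le_mul_of_nonneg_left _ hKpos.le
        exact mul_le_mul_of_nonneg_left hpδ hε.le
      linarith
    have a4 : K * p ≤ ε / 4 * (K * p) * (K * p) := by
      have h0 : 0 < (K : ℝ) * p := by positivity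
      have h1 := mul_le_mul_of_nonneg_right a3 h0.le
      linarith
    have a5 : (K : ℝ) ^ 2 * (ρ - p ^ 2) ≤ K ^ 2 * (ε / 4 * p ^ 2) :=
      mul_le_mul_of_nonneg_left (a1.trans a2) (by positivity)
    linarith
  have h4 : (0 : ℝ) ≤ (n.factorial : ℝ) ^ 2 := by positivity
  have h5 := mul_le_mul_of_nonneg_right h3 h4
  linarith

end Pool.MP99279c.AA
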