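import Pool.Agent.Work.MP_99279c_al.AA.Final
import Pool.Agent.Work.MP_99279c_al.AA.Cheb2

/-!
# Uniform version of the almost-all law
-/

set_option autoImplicit false
set_option linter.unusedSectionVars false

namespace Pool.MP99279c.AA

open Finset Function FreeGroup Pool.MP99279c

theorem lam_le_log {n : ℕ} (hn : 2 ≤ n) : (lam n : ℝ) ≤ 3 * Real.log n := by
  have hnR : (0 : ℝ) < n := by
    have : 0 < n := by omega
    exact_mod_cast this
  have h1 : (2 : ℝ) ^ (Nat.log 2 n) ≤ n := by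
    exact_mod_cast Nat.pow_log_le_self 2 (x := n) (by omega)
  have h2 : (Nat.log 2 n : ℝ) * Real.log 2 ≤ Real.log n := by
    rw [← Real.log_pow]
    exact Real.log_le_log (by positivity) h1
  have h3 : Real.log 2 ≤ Real.log n := by
    apply Real.log_le_log (by norm_num)
    exact_mod_cast hn
  have h4 := Real.log_two_gt_d9
  unfold lam
  push_cast
  nlinarith

theorem fourth_le (k : ℕ) : (k + 1) ^ 4 ≤ 64 * 2 ^ k := by
  rcases Nat.lt_or_ge k 6 with h | h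
  · interval_cases k <;> norm_num
  · induction k, h using Nat.le_induction with
    | base => norm_num
    | succ k hk ih =>
      have h1 : (k + 1 + 1) ^ 4 ≤ 2 * (k + 1) ^ 4 := by
        have e1 : 6 * k ≤ k * k := Nat.mul_le_mul_right _ hk
        have e2 : 6 * (k * k) ≤ k * k * k := by nlinarith
        have e3 : 6 * (k * k * k) ≤ k * k * k * k := by nlinarith
        nlinarith
      calc (k + 1 + 1) ^ 4 ≤ 2 * (k + 1) ^ 4 := h1
        _ ≤ 2 * (64 * 2 ^ k) := Nat.mul_le_mul_left _ ih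
        _ = 64 * 2 ^ (k + 1) := by ring

theorem lam_sq_le (n : ℕ) (hn : 1 ≤ n) : (lam n : ℝ) ^ 2 ≤ 8 * Real.sqrt n := by
  have h1 : lam n ^ 4 ≤ 64 * n := by
    unfold lam
    exact (fourth_le _).trans (Nat.mul_le_mul_left _ (Nat.pow_log_le_self 2 (by omega)))
  have h2 : ((lam n : ℝ) ^ 2) ^ 2 ≤ 64 * n := by
    have : ((lam n ^ 4 : ℕ) : ℝ) ≤ ((64 * n : ℕ) : ℝ) := by exact_mod_cast h1
    push_cast at this
    calc ((lam n : ℝ) ^ 2) ^ 2 = (lam n : ℝ) ^ 4 := by ring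
      _ ≤ 64 * (n : ℝ) := this
  have h3 := Real.le_sqrt_of_sq_le h2
  have h4 : Real.sqrt (64 * n) = 8 * Real.sqrt n := by
    rw [Real.sqrt_mul (by norm_num)]
    congr 1
    rw [show (64 : ℝ) = 8 ^ 2 by norm_num, Real.sqrt_sq (by norm_num)]
  rwa [h4] at h3

/-- the word `x ^ (n!)` -/
theorem small_case (n : ℕ) (ε : ℝ) (hε : 0 ≤ ε) :
    (FreeGroup.of (0 : Fin 2)) ^ n.factorial ≠ 1 ∧
    ((FreeGroup.of (0 : Fin 2)) ^ n.factorial).norm ≤ n.factorial ∧
    ((univ.filter (fun p : Equiv.Perm (Fin n) × Equiv.Perm (Fin n) =>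
      FreeGroup.lift ![p.1, p.2] ((FreeGroup.of 0) ^ n.factorial) ≠ 1)).card : ℝ)
        ≤ ε * (n.factorial : ℝ) ^ 2 := by
  classical
  refine ⟨?_, ?_, ?_⟩
  · intro h
    have h1 := congrArg (FreeGroup.lift (fun k : Fin 2 => Multiplicative.ofAdd (1 : ℤ))) h
    simp only [_root_.map_pow, FreeGroup.lift_apply_of, _root_.map_one] at h1
    rw [← ofAdd_nsmul, ← ofAdd_zero] at h1
    have h2 := Multiplicative.ofAdd.injective h1
    simp at h2
    exact absurd h2 (Nat.factorial_ne_zero n)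
  · have h1 := norm_pow_le (FreeGroup.of (0 : Fin 2)) n.factorial
    rwa [norm_of, mul_one] at h1
  · have h1 : univ.filter (fun p : Equiv.Perm (Fin n) × Equiv.Perm (Fin n) =>
        FreeGroup.lift ![p.1, p.2] ((FreeGroup.of 0) ^ n.factorial) ≠ 1) = ∅ := by
      apply filter_false_of_mem
      intro p _ h
      apply h
      rw [_root_.map_pow, FreeGroup.lift_apply_of]
      have h2 : n.factorial = Fintype.card (Equiv.Perm (Fin n)) := by
        rw [Fintype.card_perm, Fintype.card_fin]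
      rw [h2]
      exact pow_card_eq_one
    rw [h1, card_empty, Nat.cast_zero]
    positivity

/-- the main estimate, with an explicit condition on `n` -/
theorem main_explicit (κ : ℝ) (hκ : 0 < κ) (hκ1 : κ ≤ 1 / 1073741824)
    (hκ2 : ∀ k : ℕ, κ ^ (k + 1) ≤ (1 / 2) ^ (258 * k) * (1 / 2))
    (ε : ℝ) (hε : 0 < ε) (hε1 : ε ≤ 1) (n : ℕ) (hn : 2 ≤ n) (hnε : 1 ≤ (κ * ε) ^ 18 * n) :
    ∃ q : F2, q ≠ 1 ∧
    (q.norm : ℝ) ≤ (5790004000 / κ) * (9 * (Real.log n) ^ 2) * (n : ℝ) ^ 3 / ε ^ 4 ∧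
    ((univ.filter (fun p : Equiv.Perm (Fin n) × Equiv.Perm (Fin n) =>
      FreeGroup.lift ![p.1, p.2] q ≠ 1)).card : ℝ) ≤ ε * (n.factorial : ℝ) ^ 2 := by
  classical
  have hnR2 : (2 : ℝ) ≤ n := by exact_mod_cast hn
  have hnR : (0 : ℝ) < n := by linarith
  obtain ⟨δ, hδdef⟩ : ∃ δ : ℝ, δ = κ * ε := ⟨_, rfl⟩
  rw [← hδdef] at hnε
  have hδ : 0 < δ := by rw [hδdef]; positivity
  have hδκ : δ ≤ κ := by
    rw [hδdef]
    have := mul_le_mul_of_nonneg_left hε1 hκ.le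
    linarith
  have hδ0 : δ ≤ 1 / 3000 := by linarith
  have hδ1 : δ ≤ 1 / 10 := by linarith
  have hδle1 : δ ≤ 1 := by linarith
  have hδε : 20 * δ ≤ ε := by
    rw [hδdef]
    have := mul_le_mul_of_nonneg_right hκ1 hε.le
    linarith
  have hδpow : ∀ k : ℕ, δ ^ (k + 1) ≤ (1 / 2) ^ (258 * k) * (1 / 2) := fun k =>
    (pow_le_pow_left₀ hδ.le hδκ _).trans (hκ2 k)
  -- the number of words
  obtain ⟨K, hK1, hK2, hK3⟩ : ∃ K : ℕ, 4 / (ε * δ) < K ∧ (K : ℝ) ≤ 2 / δ ^ 2 ∧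
      (K : ℝ) ≤ 5 / (ε * δ) := by
    refine ⟨⌊4 / (ε * δ)⌋₊ + 1, ?_, ?_, ?_⟩
    · push_cast
      exact Nat.lt_floor_add_one _
    rotate_left
    · push_cast
      have e1 : (⌊4 / (ε * δ)⌋₊ : ℝ) ≤ 4 / (ε * δ) := Nat.floor_le (by positivity)
      have e3 : (1 : ℝ) ≤ 1 / (ε * δ) := by
        rw [le_div_iff₀ (by positivity), one_mul]
        exact mul_le_one₀ hε1 hδ.le hδle1
      have e5 : (5 : ℝ) / (ε * δ) = 4 / (ε * δ) + 1 / (ε * δ) := by ring
      rw [e5]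
      linarith
    · push_cast
      have e1 : (⌊4 / (ε * δ)⌋₊ : ℝ) ≤ 4 / (ε * δ) := Nat.floor_le (by positivity)
      have e2 : 4 / (ε * δ) = 4 * κ / δ ^ 2 := by
        rw [hδdef]
        field_simp
      have e3 : (1 : ℝ) ≤ 1 / δ ^ 2 := by
        rw [le_div_iff₀ (by positivity), one_mul]
        exact pow_le_one₀ hδ.le hδle1
      have e4 : 4 * κ / δ ^ 2 ≤ 1 / δ ^ 2 := by
        apply div_le_div_of_nonneg_right _ (by positivity)
        linarith
      have e5 : (2 : ℝ) / δ ^ 2 = 1 / δ ^ 2 + 1 / δ ^ 2 := by ring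
      rw [e5]
      linarith
  have hKpos : (0 : ℝ) < K := lt_trans (by positivity) hK1
  have hK : 0 < K := by exact_mod_cast hKpos
  have hgiant := giant_explicit ε δ hε hδ hδ0 hδε K hK1 hK2 n hnε
  -- the constant `c1`
  obtain ⟨c1, hc1, hc1le⟩ : ∃ c1 : ℕ, 8 / ε < c1 ∧ (c1 : ℝ) ≤ 9 / ε := by
    refine ⟨⌊8 / ε⌋₊ + 1, ?_, ?_⟩
    · push_cast
      exact Nat.lt_floor_add_one _
    · push_cast
      have e1 : (⌊8 / ε⌋₊ : ℝ) ≤ 8 / ε := Nat.floor_le (by positivity)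
      have e3 : (1 : ℝ) ≤ 1 / ε := by
        rw [le_div_iff₀ hε, one_mul]
        exact hε1
      have e5 : (9 : ℝ) / ε = 8 / ε + 1 / ε := by ring
      rw [e5]
      linarith
  have hc1pos : (0 : ℝ) < c1 := lt_trans (by positivity) hc1
  have hc10 : 0 < c1 := by exact_mod_cast hc1pos
  -- the square root of `n`
  obtain ⟨r, hr⟩ : ∃ r : ℝ, r = Real.sqrt n := ⟨_, rfl⟩
  have hr0 : 0 ≤ r := by rw [hr]; exact Real.sqrt_nonneg _
  have hrr : r * r = n := by rw [hr]; exact Real.mul_self_sqrt hnR.le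
  have hδr : 1 ≤ δ ^ 9 * r := by
    by_contra h
    push Not at h
    have e0 : 0 ≤ δ ^ 9 * r := by positivity
    have e1 : (δ ^ 9 * r) * (δ ^ 9 * r) < 1 := by nlinarith
    have e2 : (δ ^ 9 * r) * (δ ^ 9 * r) = δ ^ 18 * n := by rw [← hrr]; ring
    linarith
  have hrpos : 0 < r := by
    rcases hr0.lt_or_eq with h | h
    · exact h
    · rw [← h, mul_zero] at hδr
      linarith
  have hδ4r : 1 ≤ δ ^ 4 * r := by
    have e1 : δ ^ 9 ≤ δ ^ 4 := pow_le_pow_of_le_one hδ.le hδle1 (by omega)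
    have e2 := mul_le_mul_of_nonneg_right e1 hr0
    linarith
  have hr20 : 1048576 ≤ r := by
    have e1 : δ ^ 4 ≤ 1 / 1073741824 := by
      calc δ ^ 4 ≤ δ ^ 1 := pow_le_pow_of_le_one hδ.le hδle1 (by omega)
        _ = δ := pow_one δ
        _ ≤ _ := hδκ.trans hκ1
    have e2 := mul_le_mul_of_nonneg_right e1 hr0
    linarith
  have hx0 : 0 < n := by omega
  set l := lam n with hl
  have hl1' : 1 ≤ l := by rw [hl]; unfold lam; omega
  have hln : l ≤ n := lam_le n (by omega)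
  have hlR : (0 : ℝ) < l := by exact_mod_cast hl1'
  have hlsq : (l : ℝ) ^ 2 ≤ 8 * r := by rw [hr]; exact lam_sq_le n (by omega)
  obtain ⟨d, hd1, hd2⟩ := exists_two_pow (2 * l) (by omega)
  set D := ⌊δ * n⌋₊ with hD
  have hDle : (D : ℝ) ≤ δ * n := Nat.floor_le (by positivity)
  have hDn : D < n := by
    have h1 : δ * n ≤ 1 / 10 * n := mul_le_mul_of_nonneg_right hδ1 hnR.le
    have : (D : ℝ) < n := by linarith
    exact_mod_cast this
  obtain ⟨m, hm1, hm2⟩ := exists_two_pow ((D + 1) * K) (Nat.mul_pos (by omega) hK)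
  have hδn : 1 ≤ δ * n := by
    have e1 : δ ^ 18 ≤ δ ^ 1 := pow_le_pow_of_le_one hδ.le hδle1 (by omega)
    rw [pow_one] at e1
    have e2 := mul_le_mul_of_nonneg_right e1 hnR.le
    linarith
  have h2m : ((2 ^ m : ℕ) : ℝ) ≤ 20 * n / ε := by
    have e1 : ((2 ^ m : ℕ) : ℝ) ≤ ((2 * ((D + 1) * K) : ℕ) : ℝ) := by exact_mod_cast hm2
    refine e1.trans ?_
    push_cast
    have e2 : ((D : ℝ) + 1) ≤ 2 * (δ * n) := by linarith
    have e3 : ((D : ℝ) + 1) * K ≤ (2 * (δ * n)) * (5 / (ε * δ)) :=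
      mul_le_mul e2 hK3 hKpos.le (by positivity)
    have e4 : 2 * ((2 * (δ * n)) * (5 / (ε * δ))) = 20 * n / ε := by
      field_simp
      ring
    rw [← e4]
    linarith
  obtain ⟨l1, hl1⟩ : ∃ l1, l1 = 256 * l := ⟨_, rfl⟩
  obtain ⟨M, hM⟩ : ∃ M, M = 256 * c1 * l := ⟨_, rfl⟩
  obtain ⟨l0, hl0⟩ : ∃ l0, l0 = 65536 * c1 * l := ⟨_, rfl⟩
  have hl1R : (l1 : ℝ) = 256 * l := by rw [hl1]; push_cast; ring
  have hMR : (M : ℝ) = 256 * c1 * l := by rw [hM]; push_cast; ring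
  have hl0R : (l0 : ℝ) = 65536 * c1 * l := by rw [hl0]; push_cast; ring
  have hfrac : ((l0 * l + M * l1 : ℕ) : ℝ) ≤ (1 / 128) * ((l1 * l0 : ℕ) : ℝ) := by
    push_cast
    rw [hl1R, hMR, hl0R]
    apply le_of_eq
    ring
  have hJ : 2 * l1 * l1 ≤ n := by
    have e1 : ((2 * l1 * l1 : ℕ) : ℝ) ≤ (n : ℝ) := by
      push_cast
      rw [hl1R, ← hrr]
      have e2 : 2 * (256 * (l : ℝ)) * (256 * l) = 131072 * (l : ℝ) ^ 2 := by ring
      rw [e2]
      have e3 : 131072 * (l : ℝ) ^ 2 ≤ 131072 * (8 * r) := by linarith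
      have e4 : 1048576 * r ≤ r * r := mul_le_mul_of_nonneg_right hr20 hr0
      linarith
    exact_mod_cast e1
  obtain ⟨q, hq1, hq2, hq3⟩ := combine (by omega) (⟨0, hx0⟩ : Fin n) K l0 l1 l
    M d D m hK (by rw [hl0]; exact Nat.mul_pos (by omega) (by omega)) (by omega) hfrac hDn hJ
    (by omega) hm1
  refine ⟨q, hq1, ?_, ?_⟩
  · -- the length
    have e2 : 4 ^ d ≤ 16 * l ^ 2 := by
      calc 4 ^ d = (2 ^ d) ^ 2 := by rw [← pow_mul, mul_comm, pow_mul]; norm_num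
        _ ≤ (2 * (2 * l)) ^ 2 := Nat.pow_le_pow_left hd2 2
        _ = 16 * l ^ 2 := by ring
    have hc1l : c1 * l ≤ n := by
      have g1 : (l : ℝ) ≤ 8 * r := by
        have : (1 : ℝ) ≤ l := by exact_mod_cast hl1'
        have h2 : (l : ℝ) * 1 ≤ l * l := mul_le_mul_of_nonneg_left this hlR.le
        have h3 : (l : ℝ) * l = (l : ℝ) ^ 2 := by ring
        linarith
      have g2 : (c1 : ℝ) * l ≤ (9 / ε) * (8 * r) :=
        mul_le_mul hc1le g1 hlR.le (by positivity)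
      have g3 : 72 ≤ ε * r := by
        have f1 : δ ^ 4 ≤ 1 / 1073741824 * ε := by
          calc δ ^ 4 ≤ δ ^ 1 := pow_le_pow_of_le_one hδ.le hδle1 (by omega)
            _ = κ * ε := by rw [pow_one, hδdef]
            _ ≤ 1 / 1073741824 * ε := mul_le_mul_of_nonneg_right hκ1 hε.le
        have f2 : δ ^ 4 * r ≤ 1 / 1073741824 * ε * r := mul_le_mul_of_nonneg_right f1 hr0
        have f3 : 1 / 1073741824 * ε * r = 1 / 1073741824 * (ε * r) := by ring
        linarith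
      have g4 : (9 / ε) * (8 * r) ≤ r * r := by
        have f1 : (9 / ε) * (8 * r) = 72 / ε * r := by ring
        rw [f1]
        apply mul_le_mul_of_nonneg_right _ hr0
        rw [div_le_iff₀ hε, mul_comm]
        exact g3
      have g5 : ((c1 * l : ℕ) : ℝ) ≤ (n : ℝ) := by
        push_cast
        rw [← hrr]
        exact g2.trans g4
      exact_mod_cast g5
    set C2 : ℕ := 131591 * K with hC2
    have e3 : n * K + 2 * (l1 + l0 * K) + 6 ≤ C2 * n := by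
      have f1 : 2 * (l1 + l0 * K) ≤ 2 * (256 * n + 65536 * n * K) := by
        rw [hl1, hl0]
        apply Nat.mul_le_mul_left
        apply Nat.add_le_add (Nat.mul_le_mul_left _ hln)
        apply Nat.mul_le_mul_right
        rw [mul_assoc]
        exact Nat.mul_le_mul_left _ hc1l
      have f2 : C2 * n = 131591 * (n * K) := by
        rw [hC2]; ring
      have f4 : n ≤ n * K := Nat.le_mul_of_pos_right _ hK
      have f5 : 2 * (256 * n + 65536 * n * K) = 512 * n + 131072 * (n * K) := by ring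
      omega
    have e4 : 4 ^ d * (n * K + 2 * (l1 + l0 * K) + 6) + 6 ≤ 22 * C2 * (l ^ 2 * n) := by
      have f1 : 4 ^ d * (n * K + 2 * (l1 + l0 * K) + 6)
          ≤ (16 * l ^ 2) * (C2 * n) := Nat.mul_le_mul e2 e3
      have f2 : 1 ≤ C2 * (l ^ 2 * n) :=
        Nat.mul_pos (Nat.mul_pos (by norm_num) hK)
          (Nat.mul_pos (Nat.pow_pos hl1') hx0)
      have f3 : 22 * C2 * (l ^ 2 * n) = (16 * l ^ 2) * (C2 * n) + 6 * (C2 * (l ^ 2 * n)) := by ring
      omega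
    have e5 : q.norm ≤ (2 ^ m) ^ 2 * (22 * C2 * (l ^ 2 * n)) := by
      have f0 : (4 : ℕ) ^ m = (2 ^ m) ^ 2 := by rw [← pow_mul, mul_comm, pow_mul]; norm_num
      have f1 := Nat.mul_le_mul_left (4 ^ m) e4
      rw [← f0]
      omega
    have e6 : (q.norm : ℝ) ≤ (20 * n / ε) ^ 2 * (2895002 * K * ((l : ℝ) ^ 2 * n)) := by
      have f1 : (((2 ^ m) ^ 2 * (22 * C2 * (l ^ 2 * n)) : ℕ) : ℝ)
          = (((2 ^ m : ℕ) : ℝ)) ^ 2 * (2895002 * K * ((l : ℝ) ^ 2 * n)) := by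
        rw [hC2]; push_cast; ring
      have f2 : (q.norm : ℝ) ≤ (((2 ^ m) ^ 2 * (22 * C2 * (l ^ 2 * n)) : ℕ) : ℝ) := by
        exact_mod_cast e5
      rw [f1] at f2
      refine f2.trans (mul_le_mul_of_nonneg_right ?_ (by positivity))
      exact pow_le_pow_left₀ (by positivity) h2m 2
    have e7 : (l : ℝ) ^ 2 ≤ (3 * Real.log n) ^ 2 :=
      pow_le_pow_left₀ hlR.le (lam_le_log hn) 2
    calc (q.norm : ℝ) ≤ (20 * n / ε) ^ 2 * (2895002 * K * ((l : ℝ) ^ 2 * n)) := e6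
      _ ≤ (20 * n / ε) ^ 2 * (2895002 * (5 / (ε * δ)) * ((3 * Real.log n) ^ 2 * n)) := by
          apply mul_le_mul_of_nonneg_left _ (by positivity)
          apply mul_le_mul
          · exact mul_le_mul_of_nonneg_left hK3 (by norm_num)
          · exact mul_le_mul_of_nonneg_right e7 hnR.le
          · positivity
          · positivity
      _ = (5790004000 / κ) * (9 * (Real.log n) ^ 2) * (n : ℝ) ^ 3 / ε ^ 4 := by
          rw [hδdef]
          field_simp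
          ring
  · -- the exceptional set
    refine hq3.trans ?_
    have g0 := hgiant (⟨0, hx0⟩ : Fin n)
    have hfpos : (0 : ℝ) ≤ (n.factorial : ℝ) ^ 2 := by positivity
    have h2l : (n : ℝ) ^ 2 ≤ (2 : ℝ) ^ (2 * l) := by
      have : (n : ℝ) ≤ 2 ^ l := by exact_mod_cast (lt_two_pow_lam n).le
      calc (n : ℝ) ^ 2 ≤ ((2 : ℝ) ^ l) ^ 2 := pow_le_pow_left₀ hnR.le this 2
        _ = _ := by rw [← pow_mul, mul_comm]
    have hhalf : ((1 : ℝ) / 2) ^ (2 * l) ≤ 1 / (n : ℝ) ^ 2 := by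
      rw [one_div, inv_pow, ← one_div]
      exact one_div_le_one_div_of_le (by positivity) h2l
    have E1 : (l1 : ℝ) / ((M : ℝ) + 1) ≤ ε / 8 := by
      rw [div_le_iff₀ (by positivity), hl1R, hMR]
      have f1 : 8 < c1 * ε := by
        rw [div_lt_iff₀ hε] at hc1
        exact hc1
      have f2 : (8 : ℝ) * l ≤ c1 * ε * l := mul_le_mul_of_nonneg_right f1.le hlR.le
      linarith only [f2, hε]
    have E2 : (n : ℝ) * (2 ^ l1 * (2 * ((D : ℝ) / n) ^ (l + 1))) ≤ 1 / n := by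
      have f1 : (D : ℝ) / n ≤ δ := by
        rw [div_le_iff₀ hnR]
        exact hDle
      have f2 : ((D : ℝ) / n) ^ (l + 1) ≤ (1 / 2) ^ (258 * l) * (1 / 2) :=
        (pow_le_pow_left₀ (by positivity) f1 _).trans (hδpow l)
      rw [hl1]
      have f3 : (2 : ℝ) ^ (256 * l) * (2 * ((D : ℝ) / n) ^ (l + 1)) ≤ (1 / 2) ^ (2 * l) := by
        calc (2 : ℝ) ^ (256 * l) * (2 * ((D : ℝ) / n) ^ (l + 1))
            ≤ (2 : ℝ) ^ (256 * l) * (2 * ((1 / 2) ^ (258 * l) * (1 / 2))) := by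
              apply mul_le_mul_of_nonneg_left _ (by positivity)
              linarith only [f2]
          _ = ((2 : ℝ) ^ (256 * l) * (1 / 2) ^ (256 * l)) * (1 / 2) ^ (2 * l) := by
              have : (258 * l) = 256 * l + 2 * l := by ring
              rw [this, pow_add (1 / 2 : ℝ) (256 * l) (2 * l)]
              ring
          _ = (1 / 2) ^ (2 * l) := by
              rw [← mul_pow]
              norm_num
      calc (n : ℝ) * (2 ^ (256 * l) * (2 * ((D : ℝ) / n) ^ (l + 1)))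
          ≤ n * (1 / (n : ℝ) ^ 2) := mul_le_mul_of_nonneg_left (f3.trans hhalf) hnR.le
        _ = 1 / (n : ℝ) := by field_simp
    have E4 : (n : ℝ) / 48 * (3 / 8 : ℝ) ^ (2 ^ d) ≤ 1 / n := by
      have f1 : (3 / 8 : ℝ) ^ (2 ^ d) ≤ (1 / 2) ^ (2 * l) := by
        calc (3 / 8 : ℝ) ^ (2 ^ d) ≤ (1 / 2) ^ (2 ^ d) :=
              pow_le_pow_left₀ (by norm_num) (by norm_num) _
          _ ≤ (1 / 2) ^ (2 * l) := pow_le_pow_of_le_one (by norm_num) (by norm_num) hd1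
      calc (n : ℝ) / 48 * (3 / 8 : ℝ) ^ (2 ^ d) ≤ n * (1 / (n : ℝ) ^ 2) := by
            apply mul_le_mul _ (f1.trans hhalf) (by positivity) hnR.le
            linarith
        _ = 1 / (n : ℝ) := by field_simp
    have hsqn : (l : ℝ) ^ 2 / n ≤ 8 / r := by
      rw [← hrr, div_le_div_iff₀ (by positivity) hrpos]
      have := mul_le_mul_of_nonneg_right hlsq hr0
      linarith
    have h1n : 1 / (n : ℝ) ≤ (l : ℝ) ^ 2 / n := by
      apply div_le_div_of_nonneg_right _ hnR.le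
      have : (1 : ℝ) ≤ l := by exact_mod_cast hl1'
      exact one_le_pow₀ this
    have E3 : (l0 : ℝ) * (l1 : ℝ) / n = 16777216 * c1 * ((l : ℝ) ^ 2 / n) := by
      rw [hl1R, hl0R]
      ring
    have hEK : (K : ℝ) * ((n : ℝ) * (2 ^ l1 * (2 * ((D : ℝ) / n) ^ (l + 1)))
          + (l0 : ℝ) * (l1 : ℝ) / n
          + n / 48 * (3 / 8 : ℝ) ^ (2 ^ d)) ≤ 3 * ε / 8 := by
      rw [E3]
      have f1 : (n : ℝ) * (2 ^ l1 * (2 * ((D : ℝ) / n) ^ (l + 1)))
          + 16777216 * c1 * ((l : ℝ) ^ 2 / n) + n / 48 * (3 / 8 : ℝ) ^ (2 ^ d)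
          ≤ (16777216 * c1 + 2) * (8 / r) := by
        have g1 : (16777216 * (c1 : ℝ)) * ((l : ℝ) ^ 2 / n) ≤ 16777216 * c1 * (8 / r) :=
          mul_le_mul_of_nonneg_left hsqn (by positivity)
        have g2 : 1 / (n : ℝ) ≤ 8 / r := h1n.trans hsqn
        have g3 : (16777216 * (c1 : ℝ) + 2) * (8 / r)
            = 16777216 * c1 * (8 / r) + 8 / r + 8 / r := by ring
        rw [g3]
        linarith only [g1, g2, E2, E4]
      have f2 : (K : ℝ) * ((16777216 * c1 + 2) * (8 / r)) ≤ 3 * ε / 8 := by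
        have g1 : (16777216 * (c1 : ℝ) + 2) ≤ 150994946 / ε := by
          have : (1 : ℝ) ≤ 1 / ε := by
            rw [le_div_iff₀ hε, one_mul]
            exact hε1
          have e : (150994946 : ℝ) / ε = 16777216 * (9 / ε) + 2 * (1 / ε) := by ring
          rw [e]
          linarith
        have g2 : (K : ℝ) * (16777216 * c1 + 2) ≤ (2 / δ ^ 2) * (150994946 / ε) :=
          mul_le_mul hK2 g1 (by positivity) (by positivity)
        have g3 : (K : ℝ) * ((16777216 * c1 + 2) * (8 / r))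
            = ((K : ℝ) * (16777216 * c1 + 2)) * (8 / r) := by ring
        rw [g3]
        refine (mul_le_mul_of_nonneg_right g2 (by positivity)).trans ?_
        have g4 : (2 / δ ^ 2) * (150994946 / ε) * (8 / r) = 2415919136 / (δ ^ 2 * ε * r) := by
          field_simp
          ring
        rw [g4, div_le_iff₀ (by positivity)]
        -- `δ² ε² r = δ⁴ r / κ²`
        have g5 : 3 * ε / 8 * (δ ^ 2 * ε * r) = (3 / 8) * ((δ ^ 4 * r) / κ ^ 2) := by
          rw [hδdef]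
          field_simp
        rw [g5]
        have g6 : 1152921504606846976 ≤ (δ ^ 4 * r) / κ ^ 2 := by
          rw [le_div_iff₀ (by positivity)]
          have g7 : κ ^ 2 ≤ (1 / 1073741824) ^ 2 := pow_le_pow_left₀ hκ.le hκ1 2
          have g8 : (1152921504606846976 : ℝ) * κ ^ 2
              ≤ 1152921504606846976 * (1 / 1073741824) ^ 2 :=
            mul_le_mul_of_nonneg_left g7 (by norm_num)
          have g9 : (1152921504606846976 : ℝ) * (1 / 1073741824) ^ 2 = 1 := by norm_num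
          linarith only [g8, g9, hδ4r]
        linarith only [g6]
      exact (mul_le_mul_of_nonneg_left f1 (by positivity)).trans f2
    have htot : (l1 : ℝ) / ((M : ℝ) + 1)
        + (K : ℝ) * ((n : ℝ) * (2 ^ l1 * (2 * ((D : ℝ) / n) ^ (l + 1)))
          + (l0 : ℝ) * (l1 : ℝ) / n
          + n / 48 * (3 / 8 : ℝ) ^ (2 ^ d)) ≤ ε / 2 := by linarith only [E1, hEK]
    have h5 := mul_le_mul_of_nonneg_right htot hfpos
    linarith only [g0, h5]

/-- Uniform version. -/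
theorem main_uniform : ∃ C : ℝ, ∀ n : ℕ, 2 ≤ n → ∀ ε : ℝ, (n : ℝ) ^ (-(1 / 20 : ℝ)) ≤ ε → ε ≤ 1 →
    ∃ q : F2, q ≠ 1 ∧ (q.norm : ℝ) ≤ C * (n : ℝ) ^ 3 * (Real.log n) ^ 2 / ε ^ 4 ∧
    ((univ.filter (fun p : Equiv.Perm (Fin n) × Equiv.Perm (Fin n) =>
      FreeGroup.lift ![p.1, p.2] q ≠ 1)).card : ℝ) ≤ ε * (n.factorial : ℝ) ^ 2 := by
  classical
  obtain ⟨κ, hκ, hκ1, hκ2⟩ : ∃ κ : ℝ, 0 < κ ∧ κ ≤ 1 / 1073741824 ∧
      ∀ k : ℕ, κ ^ (k + 1) ≤ (1 / 2) ^ (258 * k) * (1 / 2) := by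
    refine ⟨(1 / 2) ^ 258, by positivity, ?_, ?_⟩
    · have h1 : ((1 : ℝ) / 2) ^ 258 ≤ (1 / 2) ^ 30 :=
        pow_le_pow_of_le_one (by norm_num) (by norm_num) (by norm_num)
      have h2 : ((1 : ℝ) / 2) ^ 30 ≤ 1 / 1073741824 := by norm_num
      exact h1.trans h2
    · intro k
      calc (((1 : ℝ) / 2) ^ 258) ^ (k + 1) = (1 / 2) ^ (258 * k) * (1 / 2) ^ 258 := by
            rw [pow_succ, ← pow_mul]
        _ ≤ _ := by
            apply mul_le_mul_of_nonneg_left _ (by positivity)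
            have h1 : ((1 : ℝ) / 2) ^ 258 ≤ (1 / 2) ^ 1 :=
              pow_le_pow_of_le_one (by norm_num) (by norm_num) (by norm_num)
            rwa [pow_one] at h1
  obtain ⟨n0, hn0⟩ := exists_nat_gt ((1 / κ ^ 18) ^ 10)
  set C0 : ℝ := 5790004000 / κ * 9 with hC0
  refine ⟨max C0 (n0.factorial : ℕ), ?_⟩
  intro n hn ε hε0 hε1
  have hnR2 : (2 : ℝ) ≤ n := by exact_mod_cast hn
  have hnR : (0 : ℝ) < n := by linarith
  have hε : 0 < ε := lt_of_lt_of_le (Real.rpow_pos_of_pos hnR _) hε0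
  have hε4 : ε ^ 4 ≤ 1 := pow_le_one₀ hε.le hε1
  have hlog2 : (0.69 : ℝ) ≤ Real.log n := by
    have h3 : Real.log 2 ≤ Real.log n := Real.log_le_log (by norm_num) hnR2
    have h4 := Real.log_two_gt_d9
    linarith
  by_cases hbig : n0 ≤ n
  · have hcond : 1 ≤ (κ * ε) ^ 18 * n := by
      have e1 : ((n : ℝ) ^ (-(1 / 20 : ℝ))) ^ 18 ≤ ε ^ 18 :=
        pow_le_pow_left₀ (Real.rpow_nonneg hnR.le _) hε0 18
      have e2 : ((n : ℝ) ^ (-(1 / 20 : ℝ))) ^ 18 * n = (n : ℝ) ^ (1 / 10 : ℝ) := by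
        rw [← Real.rpow_natCast, ← Real.rpow_mul hnR.le]
        nth_rewrite 2 [← Real.rpow_one (n : ℝ)]
        rw [← Real.rpow_add hnR]
        norm_num
      have e3 : (1 / κ ^ 18) ≤ (n : ℝ) ^ (1 / 10 : ℝ) := by
        have f1 : ((1 / κ ^ 18) ^ 10 : ℝ) ≤ n := hn0.le.trans (by exact_mod_cast hbig)
        have f2 : (((1 / κ ^ 18) ^ 10 : ℝ)) ^ (1 / 10 : ℝ) ≤ (n : ℝ) ^ (1 / 10 : ℝ) :=
          Real.rpow_le_rpow (by positivity) f1 (by norm_num)
        have f3 : (((1 / κ ^ 18) ^ 10 : ℝ)) ^ (1 / 10 : ℝ) = 1 / κ ^ 18 := by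
          rw [← Real.rpow_natCast, ← Real.rpow_mul (by positivity)]
          norm_num
        rwa [f3] at f2
      have e4 : (n : ℝ) ^ (1 / 10 : ℝ) ≤ ε ^ 18 * n := by
        rw [← e2]
        exact mul_le_mul_of_nonneg_right e1 hnR.le
      have e5 : 1 / κ ^ 18 ≤ ε ^ 18 * n := e3.trans e4
      rw [div_le_iff₀ (by positivity)] at e5
      calc (1 : ℝ) ≤ ε ^ 18 * n * κ ^ 18 := e5
        _ = (κ * ε) ^ 18 * n := by ring
    obtain ⟨q, hq1, hq2, hq3⟩ := main_explicit κ hκ hκ1 hκ2 ε hε hε1 n hn hcond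
    refine ⟨q, hq1, hq2.trans ?_, hq3⟩
    apply div_le_div_of_nonneg_right _ (by positivity)
    have e1 : 5790004000 / κ * (9 * (Real.log n) ^ 2) * (n : ℝ) ^ 3
        = C0 * ((n : ℝ) ^ 3 * (Real.log n) ^ 2) := by
      rw [hC0]; ring
    have h0 : (0 : ℝ) ≤ (n : ℝ) ^ 3 * (Real.log n) ^ 2 := by positivity
    rw [e1, mul_assoc (max C0 _)]
    exact mul_le_mul_of_nonneg_right (le_max_left _ _) h0
  · push Not at hbig
    obtain ⟨h1, h2, h3⟩ := small_case n ε hε.le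
    refine ⟨_, h1, ?_, h3⟩
    have h4 : n.factorial ≤ n0.factorial := Nat.factorial_le hbig.le
    have h5 : (((FreeGroup.of (0 : Fin 2)) ^ n.factorial).norm : ℝ) ≤ ((n0.factorial : ℕ) : ℝ) := by
      exact_mod_cast h2.trans h4
    refine h5.trans ?_
    set X : ℝ := max C0 ((n0.factorial : ℕ) : ℝ) with hX
    have h6 : ((n0.factorial : ℕ) : ℝ) ≤ X := le_max_right _ _
    have hX0 : 0 ≤ X := le_trans (Nat.cast_nonneg _) h6
    have h7 : (1 : ℝ) ≤ (n : ℝ) ^ 3 * (Real.log n) ^ 2 := by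
      have e1 : (8 : ℝ) ≤ (n : ℝ) ^ 3 := by
        calc (8 : ℝ) = 2 ^ 3 := by norm_num
          _ ≤ _ := pow_le_pow_left₀ (by norm_num) hnR2 3
      have e2 : (0.47 : ℝ) ≤ (Real.log n) ^ 2 := by
        calc (0.47 : ℝ) ≤ 0.69 ^ 2 := by norm_num
          _ ≤ _ := pow_le_pow_left₀ (by norm_num) hlog2 2
      nlinarith
    have hε4pos : 0 < ε ^ 4 := by positivity
    rw [le_div_iff₀ hε4pos, mul_assoc]
    have h8 : ((n0.factorial : ℕ) : ℝ) * ε ^ 4 ≤ X * 1 := mul_le_mul h6 hε4 hε4pos.le hX0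
    have h9 : X * 1 ≤ X * ((n : ℝ) ^ 3 * (Real.log n) ^ 2) := mul_le_mul_of_nonneg_left h7 hX0
    exact h8.trans h9

end Pool.MP99279c.AA
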