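import Pool.Agent.Work.MP_99279c_al.AA.Trans

/-!
# From a positive proportion to all pairs
-/

set_option autoImplicit false
set_option linter.unusedSectionVars false

namespace Pool.MP99279c.AA

open Finset Function FreeGroup Pool.MP99279c

open Classical in
theorem greedy {β : Type} (M : ℕ) (hM : 1 ≤ M) (good : F2 → β → Prop) (X0 : Finset β)
    (P : F2 → Prop) (hP : ∃ w, P w)
    (h : ∀ X ⊆ X0, ∃ w, P w ∧ X.card ≤ M * (X.filter (good w)).card) :
    ∀ t : ℕ, ∃ v : ℕ → F2, (∀ i < t, P (v i)) ∧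
      ((X0.filter (fun f => ∀ i < t, ¬ good (v i) f)).card : ℝ)
        ≤ (1 - 1 / (M : ℝ)) ^ t * X0.card := by
  intro t
  have hMR : (1 : ℝ) ≤ M := by exact_mod_cast hM
  induction t with
  | zero =>
    obtain ⟨w, hw⟩ := hP
    refine ⟨fun _ => w, fun _ _ => hw, ?_⟩
    simp
  | succ t ih =>
    obtain ⟨v, hv1, hv2⟩ := ih
    set X := X0.filter (fun f => ∀ i < t, ¬ good (v i) f) with hX
    obtain ⟨w, hw1, hw2⟩ := h X (filter_subset _ _)
    refine ⟨Function.update v t w, ?_, ?_⟩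
    · intro i hi
      by_cases hit : i = t
      · rw [hit, Function.update_self]
        exact hw1
      · rw [Function.update_of_ne hit]
        exact hv1 i (by omega)
    · have hsub : X0.filter (fun f => ∀ i < t + 1, ¬ good (Function.update v t w i) f)
          ⊆ X.filter (fun f => ¬ good w f) := by
        intro f hf
        rw [mem_filter] at hf
        rw [mem_filter, hX, mem_filter]
        refine ⟨⟨hf.1, ?_⟩, ?_⟩
        · intro i hi
          have := hf.2 i (by omega)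
          rwa [Function.update_of_ne (by omega)] at this
        · have := hf.2 t (by omega)
          rwa [Function.update_self] at this
      have h1 := card_le_card hsub
      have h2 : (X.filter (good w)).card + (X.filter (fun f => ¬ good w f)).card = X.card :=
        card_filter_add_card_filter_not (good w)
      have h3 : (X.card : ℝ) ≤ M * ((X.filter (good w)).card : ℝ) := by exact_mod_cast hw2
      have h4 : ((X.filter (fun f => ¬ good w f)).card : ℝ) ≤ (1 - 1 / (M : ℝ)) * X.card := by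
        have h5 : ((X.filter (good w)).card : ℝ) + ((X.filter (fun f => ¬ good w f)).card : ℝ)
            = X.card := by exact_mod_cast h2
        have h6 : (X.card : ℝ) / M ≤ ((X.filter (good w)).card : ℝ) := by
          rw [div_le_iff₀ (by positivity)]
          linarith
        have h7 : (1 - 1 / (M : ℝ)) * X.card = X.card - X.card / M := by ring
        rw [h7]
        linarith
      have h8 : 0 ≤ 1 - 1 / (M : ℝ) := by
        have : 1 / (M : ℝ) ≤ 1 := by
          rw [div_le_one (by positivity)]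
          exact hMR
        linarith
      calc ((X0.filter (fun f => ∀ i < t + 1, ¬ good (Function.update v t w i) f)).card : ℝ)
          ≤ ((X.filter (fun f => ¬ good w f)).card : ℝ) := by exact_mod_cast h1
        _ ≤ (1 - 1 / (M : ℝ)) * X.card := h4
        _ ≤ (1 - 1 / (M : ℝ)) * ((1 - 1 / (M : ℝ)) ^ t * X0.card) :=
            mul_le_mul_of_nonneg_left hv2 h8
        _ = _ := by rw [pow_succ]; ring

open Classical in
theorem greedy' {β : Type} (M : ℕ) (hM : 1 ≤ M) (good : F2 → β → Prop) (X0 : Finset β)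
    (P : F2 → Prop) (hP : ∃ w, P w)
    (h : ∀ X ⊆ X0, ∃ w, P w ∧ X.card ≤ M * (X.filter (good w)).card) (t : ℕ) :
    ∃ v : ℕ → F2, (∀ i < t, P (v i)) ∧
      ∃ Y : Finset β, (∀ f ∈ X0, (∀ i < t, ¬ good (v i) f) → f ∈ Y) ∧
        (Y.card : ℝ) ≤ (1 - 1 / (M : ℝ)) ^ t * X0.card := by
  obtain ⟨v, hv1, hv2⟩ := greedy M hM good X0 P hP h t
  refine ⟨v, hv1, _, ?_, hv2⟩
  intro f hf hfi
  rw [mem_filter]
  exact ⟨hf, hfi⟩

theorem factorial_sq_lt (n : ℕ) (hn : 2 ≤ n) :
    (n.factorial : ℝ) ^ 2 < Real.exp (3 * n ^ 2) := by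
  have hnR2 : (2 : ℝ) ≤ n := by exact_mod_cast hn
  have hnR : (0 : ℝ) < n := by linarith
  have h1 : (n.factorial : ℝ) ≤ (n : ℝ) ^ n := by exact_mod_cast Nat.factorial_le_pow n
  have h2 : (n : ℝ) ≤ Real.exp n := by
    have := Real.add_one_le_exp (n : ℝ)
    linarith
  have h3 : (n.factorial : ℝ) ≤ Real.exp (n * n) := by
    calc (n.factorial : ℝ) ≤ (n : ℝ) ^ n := h1
      _ ≤ (Real.exp n) ^ n := pow_le_pow_left₀ hnR.le h2 n
      _ = Real.exp (n * n) := by rw [← Real.exp_nat_mul]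
  calc (n.factorial : ℝ) ^ 2 ≤ (Real.exp (n * n)) ^ 2 := pow_le_pow_left₀ (by positivity) h3 2
    _ = Real.exp (2 * (n * n)) := by
        rw [← Real.exp_nat_mul]
        push_cast
        rfl
    _ < Real.exp (3 * n ^ 2) := by
        apply Real.exp_lt_exp.mpr
        nlinarith

/-- **Average-case approximate laws give laws on all pairs of a class of transitive pairs.** -/
theorem boost (n : ℕ) (hn : 2 ≤ n) (C : ℕ)
    (Cl : (Fin 2 → Equiv.Perm (Fin n)) → Prop)
    (hCl : ∀ f, Cl f → MulAction.IsPretransitive (Subgroup.closure (Set.range f)) (Fin n))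
    (h : ∀ X : Finset (Fin 2 → Equiv.Perm (Fin n)), (∀ f ∈ X, Cl f) →
      ∃ w : F2, w ≠ 1 ∧ w.norm ≤ n ^ C ∧
        X.card ≤ n ^ C * (X.filter (fun f => 3 * (FreeGroup.lift f w).support.card < n)).card) :
    ∃ w : F2, w ≠ 1 ∧ w.norm ≤ n ^ (3 * C + 50) ∧ ∀ f, Cl f → FreeGroup.lift f w = 1 := by
  classical
  have hn1 : 1 ≤ n := by omega
  have hnC : 1 ≤ n ^ C := Nat.one_le_pow _ _ (by omega)
  set X0 : Finset (Fin 2 → Equiv.Perm (Fin n)) := univ.filter Cl with hX0
  set T := n ^ C * (3 * n ^ 2) with hT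
  obtain ⟨v, hv1, Y, hY, hv2⟩ := greedy' (n ^ C) hnC
    (fun w f => 3 * (FreeGroup.lift f w).support.card < n) X0
    (fun w => w ≠ 1 ∧ w.norm ≤ n ^ C)
    (by
      obtain ⟨w, h1, h2, _⟩ := h ∅ (by simp)
      exact ⟨w, h1, h2⟩)
    (by
      intro X hX
      obtain ⟨w, h1, h2, h3⟩ := h X (fun f hf => (mem_filter.mp (hX hf)).2)
      refine ⟨w, ⟨h1, h2⟩, ?_⟩
      convert h3) T
  have hempty : ∀ f, Cl f → ∃ i < T, 3 * (FreeGroup.lift f (v i)).support.card < n := by
    have h1 : (1 - 1 / ((n ^ C : ℕ) : ℝ)) ^ T ≤ Real.exp (-(3 * n ^ 2)) := by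
      have hMpos : (0 : ℝ) < ((n ^ C : ℕ) : ℝ) := by exact_mod_cast hnC
      have h2 : 1 - 1 / ((n ^ C : ℕ) : ℝ) ≤ Real.exp (-(1 / ((n ^ C : ℕ) : ℝ))) := by
        have := Real.add_one_le_exp (-(1 / ((n ^ C : ℕ) : ℝ)))
        linarith
      have h3 : 0 ≤ 1 - 1 / ((n ^ C : ℕ) : ℝ) := by
        have : 1 / ((n ^ C : ℕ) : ℝ) ≤ 1 := by
          rw [div_le_one hMpos]
          exact_mod_cast hnC
        linarith
      calc (1 - 1 / ((n ^ C : ℕ) : ℝ)) ^ T ≤ (Real.exp (-(1 / ((n ^ C : ℕ) : ℝ)))) ^ T :=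
            pow_le_pow_left₀ h3 h2 _
        _ = Real.exp ((T : ℝ) * (-(1 / ((n ^ C : ℕ) : ℝ)))) := by rw [← Real.exp_nat_mul]
        _ = Real.exp (-(3 * n ^ 2)) := by
            congr 1
            rw [hT]
            push_cast
            push_cast at hMpos
            field_simp
    have h2 : (X0.card : ℝ) ≤ (n.factorial : ℝ) ^ 2 := by
      have h3 := card_le_univ X0
      rw [Fintype.card_fun, Fintype.card_fin, Fintype.card_perm, Fintype.card_fin] at h3
      exact_mod_cast h3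
    have h3 := factorial_sq_lt n hn
    have h4 : (1 - 1 / ((n ^ C : ℕ) : ℝ)) ^ T * X0.card < 1 := by
      calc (1 - 1 / ((n ^ C : ℕ) : ℝ)) ^ T * X0.card
          ≤ Real.exp (-(3 * n ^ 2)) * (n.factorial : ℝ) ^ 2 := by
            apply mul_le_mul h1 h2 (Nat.cast_nonneg _) (Real.exp_pos _).le
        _ < Real.exp (-(3 * n ^ 2)) * Real.exp (3 * n ^ 2) :=
            mul_lt_mul_of_pos_left h3 (Real.exp_pos _)
        _ = 1 := by rw [← Real.exp_add, neg_add_cancel, Real.exp_zero]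
    have h5 := hv2.trans_lt h4
    have h6 := Finset.card_eq_zero.mp (Nat.cast_lt_one.mp h5)
    intro f hf
    by_contra hcon
    push Not at hcon
    refine Finset.eq_empty_iff_forall_notMem.mp h6 f (hY f ?_ ?_)
    · rw [hX0, mem_filter]
      exact ⟨mem_univ _, hf⟩
    · intro i hi
      have := hcon i hi
      omega
  have hTpos : 0 < T := by
    rw [hT]
    positivity
  obtain ⟨w, hw1, hw2, hw3⟩ := amplify_list n hn T (n ^ C) hTpos v (fun i hi => (hv1 i hi).1)
    (fun i hi => (hv1 i hi).2)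
  refine ⟨w, hw1, ?_, fun f hf => hw3 f (hCl f hf) (hempty f hf)⟩
  -- the length
  have e1 : n ^ C + 1152 * n ^ 6 + 1 ≤ 1154 * n ^ (C + 6) := by
    have f1 : n ^ C ≤ n ^ (C + 6) := Nat.pow_le_pow_right (by omega) (by omega)
    have f2 : n ^ 6 ≤ n ^ (C + 6) := Nat.pow_le_pow_right (by omega) (by omega)
    have f3 : 1 ≤ n ^ (C + 6) := Nat.one_le_pow _ _ (by omega)
    omega
  have e2 : 4096 * n ^ 12 * (n ^ C + 1152 * n ^ 6 + 1) + 6 ≤ 4726790 * n ^ (C + 18) := by
    have f1 := Nat.mul_le_mul_left (4096 * n ^ 12) e1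
    have f2 : 4096 * n ^ 12 * (1154 * n ^ (C + 6)) = 4726784 * n ^ (C + 18) := by
      rw [show C + 18 = 12 + (C + 6) by omega, pow_add n 12 (C + 6)]
      ring
    have f3 : 1 ≤ n ^ (C + 18) := Nat.one_le_pow _ _ (by omega)
    omega
  have e3 : 4 * T ^ 2 = 36 * n ^ (2 * C + 4) := by
    rw [hT]
    ring
  have e4 : 36 * 4726790 ≤ n ^ 28 := by
    calc 36 * 4726790 ≤ 2 ^ 28 := by norm_num
      _ ≤ n ^ 28 := Nat.pow_le_pow_left hn 28
  calc w.norm ≤ 4 * T ^ 2 * (4096 * n ^ 12 * (n ^ C + 1152 * n ^ 6 + 1) + 6) := hw2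
    _ ≤ 4 * T ^ 2 * (4726790 * n ^ (C + 18)) := Nat.mul_le_mul_left _ e2
    _ = (36 * 4726790) * (n ^ (2 * C + 4) * n ^ (C + 18)) := by rw [e3]; ring
    _ ≤ n ^ 28 * (n ^ (2 * C + 4) * n ^ (C + 18)) := Nat.mul_le_mul_right _ e4
    _ = n ^ (3 * C + 50) := by
        rw [← pow_add, ← pow_add]
        congr 1
        omega

end Pool.MP99279c.AA
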