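import Mathlib
import Pool.Agent.Work.MP_99279c_al.Act

/-!
Polynomial-length laws for the symmetric groups: reduction to pairs generating primitive groups.
-/

set_option autoImplicit false

namespace Pool.MP99279c.AA

/-- The symmetric groups satisfy laws of polynomial length if and only if there is a constant `C`
such that for every `n ≥ 2` some non-trivial word of length at most `n ^ C` vanishes on all pairs
of permutations of `n` points which generate a primitive permutation group. -/
theorem primitive_reduction :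
    (∃ C : ℕ, ∀ n : ℕ, 2 ≤ n →
      ∃ w : FreeGroup (Fin 2), w ≠ 1 ∧
        (FreeGroup.toWord w).length ≤ n ^ C ∧
        ∀ f : Fin 2 → Equiv.Perm (Fin n), FreeGroup.lift f w = 1) ↔
    (∃ C : ℕ, ∀ n : ℕ, 2 ≤ n →
      ∃ w : FreeGroup (Fin 2), w ≠ 1 ∧
        (FreeGroup.toWord w).length ≤ n ^ C ∧
        ∀ f : Fin 2 → Equiv.Perm (Fin n),
          MulAction.IsPreprimitive (Subgroup.closure (Set.range f)) (Fin n) →
            FreeGroup.lift f w = 1) := by
  constructor
  · rintro ⟨C, hC⟩
    refine ⟨C, fun n hn => ?_⟩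
    obtain ⟨w, h1, h2, h3⟩ := hC n hn
    exact ⟨w, h1, h2, fun f _ => h3 f⟩
  · rintro ⟨C, hC⟩
    refine ⟨2 * C + 23, fun n hn => ?_⟩
    classical
    choose p hp1 hp2 hp3 using hC
    obtain ⟨V, hV1, hV2, hV3⟩ := Pool.MP99279c.recursion C
      (fun a => if h : 2 ≤ a then p a h else 1)
      (fun a ha => by simp only [ha, dif_pos]; exact hp1 a ha)
      (fun a ha => by simp only [ha, dif_pos]; exact hp2 a ha)
      (fun a ha K hK hKa => by
        simp only [ha, dif_pos]
        exact Pool.MP99279c.mem_normalCore ha (hp3 a ha) hK hKa)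
      n (by omega)
    refine ⟨V, hV1, ?_, Pool.MP99279c.law_of_inAll hV3⟩
    have h1 : 128 ≤ n ^ 7 := by
      calc 128 = 2 ^ 7 := by norm_num
        _ ≤ n ^ 7 := Nat.pow_le_pow_left hn 7
    calc (FreeGroup.toWord V).length ≤ 128 * n ^ (2 * C + 16) := hV2
      _ ≤ n ^ 7 * n ^ (2 * C + 16) := Nat.mul_le_mul_right _ h1
      _ = n ^ (2 * C + 23) := by rw [← pow_add]; ring_nf

end Pool.MP99279c.AA
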