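import Pool.Agent.Work.MP_99279c_al.Rec
import Mathlib

/-!
# Balanced commutator trees of random conjugates
-/

set_option autoImplicit false
set_option linter.unusedSectionVars false

namespace Pool.MP99279c.AA

open Finset Function FreeGroup Pool.MP99279c

/-- a conjugate of `w` by a word `mk [c, s]`, starting with `c` and ending with its inverse -/
theorem exists_conj2 {w : F2} (hw : w ≠ 1) (c : Fin 2 × Bool) :
    ∃ s : Fin 2 × Bool, St (mk [c, s] * w * (mk [c, s])⁻¹) c ∧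
      En (mk [c, s] * w * (mk [c, s])⁻¹) (c.1, !c.2) ∧
      (mk [c, s] * w * (mk [c, s])⁻¹).norm ≤ w.norm + 4 := by
  have hne : w.toWord ≠ [] := by
    intro h
    exact hw (toWord_eq_nil_iff.mp h)
  obtain ⟨α, hα⟩ : ∃ α, St w α := by
    unfold St
    exact ⟨_, List.head?_eq_some_head hne⟩
  obtain ⟨β, hβ⟩ : ∃ β, En w β := by
    unfold En
    exact ⟨_, List.getLast?_eq_some_getLast hne⟩
  obtain ⟨s, hs1, hs2, hs3⟩ := exists_letter (c.1, !c.2) (α.1, !α.2) β
  refine ⟨s, ?_⟩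
  set g : F2 := mk [c, s] with hg
  have hred : FreeGroup.IsReduced [c, s] := by
    rw [isReduced_cons_cons]
    refine ⟨?_, FreeGroup.IsReduced.singleton⟩
    intro h1
    by_contra h2
    apply hs1
    obtain ⟨c1, c2⟩ := c
    obtain ⟨s1, s2⟩ := s
    simp only at h1 h2 ⊢
    subst h1
    congr 1
    cases c2 <;> cases s2 <;> simp_all
  have hgw : g.toWord = [c, s] := by
    rw [hg, toWord_mk, hred.reduce_eq]
  have hgS : St g c := by unfold St; rw [hgw]; rfl
  have hgE : En g s := by unfold En; rw [hgw]; rfl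
  have hgn : g.norm = 2 := by unfold FreeGroup.norm; rw [hgw]; rfl
  have hw1 : ¬ St w (s.1, !s.2) := by
    intro h
    have := h.symm.trans hα
    rw [Option.some_inj] at this
    apply hs2
    rw [← this]
    simp
  have h1 : St (g * w) c := St_mul hgS hgE hw1
  have h2 : En (g * w) β := by
    refine En_mul hα hβ ?_
    intro h
    have := h.symm.trans hgE
    rw [Option.some_inj] at this
    exact hs2 this.symm
  refine ⟨?_, ?_, ?_⟩
  · refine St_mul h1 h2 ?_
    intro h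
    have h3 := St_inv hgE
    have := h.symm.trans h3
    rw [Option.some_inj] at this
    apply hs3
    rw [Prod.mk.injEq] at this
    have h5 := this.2
    exact Prod.ext this.1.symm (by simpa using h5.symm)
  · refine En_mul (St_inv hgE) (En_inv hgS) ?_
    intro h
    have := h.symm.trans h2
    rw [Option.some_inj] at this
    apply hs3
    rw [← this]
    simp
  · have := norm_mul_le (g * w) g⁻¹
    have h5 := norm_mul_le g w
    rw [norm_inv_eq] at this
    omega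

open Classical in
/-- the letter used to conjugate `w` -/
noncomputable def sl (c : Fin 2 × Bool) (w : F2) : Fin 2 × Bool :=
  if h : w ≠ 1 then (exists_conj2 h c).choose else c

/-- the conjugate of `w` starting with `c` -/
noncomputable def lc (c : Fin 2 × Bool) (w : F2) : F2 :=
  mk [c, sl c w] * w * (mk [c, sl c w])⁻¹

theorem lc_spec {c : Fin 2 × Bool} {w : F2} (hw : w ≠ 1) :
    St (lc c w) c ∧ En (lc c w) (c.1, !c.2) ∧ (lc c w).norm ≤ w.norm + 4 := by
  unfold lc sl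
  rw [dif_pos hw]
  exact (exists_conj2 hw c).choose_spec

/-- the node of the tree -/
noncomputable def node (A B : F2) : F2 :=
  lc ((0 : Fin 2), true) A * (lc ((1 : Fin 2), true) B *
    ((lc ((0 : Fin 2), true) A)⁻¹ * (lc ((1 : Fin 2), true) B)⁻¹))

theorem node_ne_one {A B : F2} (hA : A ≠ 1) (hB : B ≠ 1) : node A B ≠ 1 := by
  obtain ⟨hg1, hg2, hg3⟩ := lc_spec (c := ((0 : Fin 2), true)) hA
  obtain ⟨hh1, hh2, hh3⟩ := lc_spec (c := ((1 : Fin 2), true)) hB
  unfold node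
  set A' := lc ((0 : Fin 2), true) A with hA'
  set B' := lc ((1 : Fin 2), true) B with hB'
  have s1 : St (A'⁻¹ * B'⁻¹) ((0 : Fin 2), true) := by
    refine St_mul (d := ((0 : Fin 2), false)) (by simpa using St_inv hg2)
      (by simpa using En_inv hg1) ?_
    exact St_ne (c := ((1 : Fin 2), true)) (by decide) (by simpa using St_inv hh2)
  have s2 : St (B' * (A'⁻¹ * B'⁻¹)) ((1 : Fin 2), true) :=
    St_mul hh1 hh2 (St_ne (by decide) s1)
  have s3 : St (A' * (B' * (A'⁻¹ * B'⁻¹))) ((0 : Fin 2), true) :=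
    St_mul hg1 hg2 (St_ne (by decide) s2)
  exact s3.ne_one

theorem node_norm {A B : F2} (hA : A ≠ 1) (hB : B ≠ 1) :
    (node A B).norm ≤ 2 * A.norm + 2 * B.norm + 16 := by
  obtain ⟨hg1, hg2, hg3⟩ := lc_spec (c := ((0 : Fin 2), true)) hA
  obtain ⟨hh1, hh2, hh3⟩ := lc_spec (c := ((1 : Fin 2), true)) hB
  unfold node
  set A' := lc ((0 : Fin 2), true) A with hA'
  set B' := lc ((1 : Fin 2), true) B with hB'
  have h1 := norm_mul_le A' (B' * (A'⁻¹ * B'⁻¹))
  have h2 := norm_mul_le B' (A'⁻¹ * B'⁻¹)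
  have h3 := norm_mul_le A'⁻¹ B'⁻¹
  rw [norm_inv_eq, norm_inv_eq] at h3
  omega

section

variable {α : Type} [Fintype α] [DecidableEq α]

theorem moved_conj (φ : F2 →* Equiv.Perm α) (g w : F2) (x : α) :
    φ (g * w * g⁻¹) x ≠ x ↔ φ w ((φ g)⁻¹ x) ≠ (φ g)⁻¹ x := by
  rw [_root_.map_mul, _root_.map_mul, _root_.map_inv, Equiv.Perm.mul_apply, Equiv.Perm.mul_apply, not_iff_not,
    Equiv.Perm.eq_inv_iff_eq]

theorem moved_comm (a b : Equiv.Perm α) (x : α) (h : (a * (b * (a⁻¹ * b⁻¹))) x ≠ x) :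
    (a x ≠ x ∧ b x ≠ x) ∨ (a x ≠ x ∧ b (a⁻¹ x) ≠ a⁻¹ x) ∨ (b x ≠ x ∧ a (b⁻¹ x) ≠ b⁻¹ x) := by
  by_contra hc
  push Not at hc
  obtain ⟨h1, h2, h3⟩ := hc
  apply h
  simp only [Equiv.Perm.mul_apply]
  by_cases ha : a x = x
  · by_cases hb : b x = x
    · have ha' : a⁻¹ x = x := by rw [Equiv.Perm.inv_eq_iff_eq]; exact ha.symm
      have hb' : b⁻¹ x = x := by rw [Equiv.Perm.inv_eq_iff_eq]; exact hb.symm
      rw [hb', ha', hb, ha]
    · have h4 := h3 hb
      have h5 : a⁻¹ (b⁻¹ x) = b⁻¹ x := by rw [Equiv.Perm.inv_eq_iff_eq]; exact h4.symm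
      rw [h5]
      have h6 : b (b⁻¹ x) = x := Equiv.apply_symm_apply b x
      rw [h6, ha]
  · have hb := h1 ha
    have hb' : b⁻¹ x = x := by rw [Equiv.Perm.inv_eq_iff_eq]; exact hb.symm
    have h4 := h2 ha
    rw [hb', h4]
    exact Equiv.apply_symm_apply a x

/-- the proportion of `ω` for which `lc (z ω)` moves `x` -/
theorem card_lc_le (φ : F2 →* Equiv.Perm α) {Ω : Type} [Fintype Ω] (z : Ω → F2) (q : ℝ)
    (hq : ∀ x, ((univ.filter (fun ω => φ (z ω) x ≠ x)).card : ℝ) ≤ q * Fintype.card Ω)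
    (c : Fin 2 × Bool) (x : α) :
    ((univ.filter (fun ω => φ (lc c (z ω)) x ≠ x)).card : ℝ) ≤ 4 * q * Fintype.card Ω := by
  classical
  have hsub : univ.filter (fun ω => φ (lc c (z ω)) x ≠ x)
      ⊆ (univ : Finset (Fin 2 × Bool)).biUnion (fun s =>
        univ.filter (fun ω => φ (z ω) ((φ (mk [c, s]))⁻¹ x) ≠ (φ (mk [c, s]))⁻¹ x)) := by
    intro ω hω
    rw [mem_filter] at hω
    rw [mem_biUnion]
    refine ⟨sl c (z ω), mem_univ _, ?_⟩
    rw [mem_filter]
    refine ⟨mem_univ _, ?_⟩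
    have := hω.2
    unfold lc at this
    rwa [moved_conj] at this
  have h1 : ((univ.filter (fun ω => φ (lc c (z ω)) x ≠ x)).card : ℝ)
      ≤ ∑ s : Fin 2 × Bool, ((univ.filter (fun ω =>
        φ (z ω) ((φ (mk [c, s]))⁻¹ x) ≠ (φ (mk [c, s]))⁻¹ x)).card : ℝ) := by
    exact_mod_cast (card_le_card hsub).trans card_biUnion_le
  refine h1.trans ((sum_le_sum (fun s _ => hq _)).trans ?_)
  rw [sum_const, card_univ, nsmul_eq_mul]
  have : (Fintype.card (Fin 2 × Bool) : ℝ) = 4 := by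
    rw [Fintype.card_prod, Fintype.card_fin, Fintype.card_bool]; norm_num
  rw [this]
  apply le_of_eq
  ring

theorem card_node_le (φ : F2 →* Equiv.Perm α) {Ω : Type} [Fintype Ω] (z : Ω → F2) (q : ℝ)
    (hq0 : 0 ≤ q)
    (hq : ∀ x, ((univ.filter (fun ω => φ (z ω) x ≠ x)).card : ℝ) ≤ q * Fintype.card Ω)
    (x : α) :
    ((univ.filter (fun ω : Ω × Ω => φ (node (z ω.1) (z ω.2)) x ≠ x)).card : ℝ)
      ≤ 48 * q ^ 2 * Fintype.card (Ω × Ω) := by
  classical
  set a : Ω → Equiv.Perm α := fun ω => φ (lc ((0 : Fin 2), true) (z ω)) with ha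
  set b : Ω → Equiv.Perm α := fun ω => φ (lc ((1 : Fin 2), true) (z ω)) with hb
  have hA : ∀ x, ((univ.filter (fun ω => a ω x ≠ x)).card : ℝ) ≤ 4 * q * Fintype.card Ω :=
    fun x => card_lc_le φ z q hq _ x
  have hB : ∀ x, ((univ.filter (fun ω => b ω x ≠ x)).card : ℝ) ≤ 4 * q * Fintype.card Ω :=
    fun x => card_lc_le φ z q hq _ x
  set N : ℝ := (Fintype.card Ω : ℝ) with hN
  have hN0 : 0 ≤ N := by rw [hN]; positivity
  -- three parts
  set P1 := univ.filter (fun ω : Ω × Ω => a ω.1 x ≠ x ∧ b ω.2 x ≠ x) with hP1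
  set P2 := univ.filter (fun ω : Ω × Ω => a ω.1 x ≠ x ∧ b ω.2 ((a ω.1)⁻¹ x) ≠ (a ω.1)⁻¹ x) with hP2
  set P3 := univ.filter (fun ω : Ω × Ω => b ω.2 x ≠ x ∧ a ω.1 ((b ω.2)⁻¹ x) ≠ (b ω.2)⁻¹ x) with hP3
  have hsub : univ.filter (fun ω : Ω × Ω => φ (node (z ω.1) (z ω.2)) x ≠ x) ⊆ P1 ∪ P2 ∪ P3 := by
    intro ω hω
    rw [mem_filter] at hω
    have h1 := hω.2
    unfold node at h1
    rw [_root_.map_mul, _root_.map_mul, _root_.map_mul, _root_.map_inv, _root_.map_inv] at h1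
    rw [mem_union, mem_union, hP1, hP2, hP3, mem_filter, mem_filter, mem_filter]
    rcases moved_comm (a ω.1) (b ω.2) x h1 with h | h | h
    · exact Or.inl (Or.inl ⟨mem_univ _, h⟩)
    · exact Or.inl (Or.inr ⟨mem_univ _, h⟩)
    · exact Or.inr ⟨mem_univ _, h⟩
  have hcard : ((univ.filter (fun ω : Ω × Ω => φ (node (z ω.1) (z ω.2)) x ≠ x)).card : ℝ)
      ≤ (P1.card : ℝ) + P2.card + P3.card := by
    have h1 := (card_le_card hsub).trans
      ((card_union_le _ _).trans (Nat.add_le_add_right (card_union_le _ _) _))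
    exact_mod_cast h1
  have gen : ∀ (f g : Ω → Equiv.Perm α) (y : Ω → α),
      (∀ x, ((univ.filter (fun ω => f ω x ≠ x)).card : ℝ) ≤ 4 * q * N) →
      (∀ x, ((univ.filter (fun ω => g ω x ≠ x)).card : ℝ) ≤ 4 * q * N) →
      (∑ ω1 : Ω, ∑ ω2 : Ω, (if f ω1 x ≠ x ∧ g ω2 (y ω1) ≠ y ω1 then (1 : ℝ) else 0))
        ≤ (4 * q * N) * (4 * q * N) := by
    intro f g y hf hg
    have e1 : ∀ ω1 ∈ (univ : Finset Ω),
        (∑ ω2 : Ω, (if f ω1 x ≠ x ∧ g ω2 (y ω1) ≠ y ω1 then (1 : ℝ) else 0))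
        ≤ (if f ω1 x ≠ x then (4 * q * N) else 0) := by
      intro ω1 _
      by_cases h : f ω1 x ≠ x
      · rw [if_pos h]
        have := hg (y ω1)
        rw [card_filter] at this
        push_cast at this
        simpa [h] using this
      · simp [h]
    refine (sum_le_sum e1).trans ?_
    rw [← sum_filter, sum_const, nsmul_eq_mul]
    apply mul_le_mul_of_nonneg_right (hf x) (by positivity)
  have c1 : (P1.card : ℝ) ≤ (4 * q * N) * (4 * q * N) := by
    rw [hP1, card_filter, Fintype.sum_prod_type]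
    push_cast
    exact gen a b (fun _ => x) hA hB
  have c2 : (P2.card : ℝ) ≤ (4 * q * N) * (4 * q * N) := by
    rw [hP2, card_filter, Fintype.sum_prod_type]
    push_cast
    exact gen a b (fun ω => (a ω)⁻¹ x) hA hB
  have c3 : (P3.card : ℝ) ≤ (4 * q * N) * (4 * q * N) := by
    rw [hP3, card_filter, Fintype.sum_prod_type_right]
    push_cast
    exact gen b a (fun ω => (b ω)⁻¹ x) hB hA
  have hcc : (Fintype.card (Ω × Ω) : ℝ) = N * N := by
    rw [Fintype.card_prod, hN]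
    push_cast
    ring
  rw [hcc]
  calc _ ≤ (P1.card : ℝ) + P2.card + P3.card := hcard
    _ ≤ 3 * ((4 * q * N) * (4 * q * N)) := by linarith
    _ = _ := by ring

end

/-- the commutator tree of depth `d` -/
theorem tree (ι : Type) (L : ℕ) : ∀ (d : ℕ) (Ω : Type) [Fintype Ω] [Nonempty Ω] (z : ι → Ω → F2),
    (∀ i ω, z i ω ≠ 1) → (∀ i ω, (z i ω).norm ≤ L) →
    ∃ (Ω' : Type) (_ : Fintype Ω') (_ : Nonempty Ω') (w : ι → Ω' → F2),
      (∀ i ω, w i ω ≠ 1) ∧ (∀ i ω, (w i ω).norm + 6 ≤ 4 ^ d * (L + 6)) ∧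
      ∀ (α : Type) [Fintype α] [DecidableEq α] (φ : F2 →* Equiv.Perm α) (i : ι) (q : ℝ), 0 ≤ q →
        (∀ x, ((univ.filter (fun ω => φ (z i ω) x ≠ x)).card : ℝ) ≤ q * Fintype.card Ω) →
        ∀ x, 48 * ((univ.filter (fun ω => φ (w i ω) x ≠ x)).card : ℝ)
          ≤ (48 * q) ^ (2 ^ d) * Fintype.card Ω' := by
  intro d
  induction d with
  | zero =>
    intro Ω _ _ z hz1 hz2
    refine ⟨Ω, inferInstance, inferInstance, z, hz1, ?_, ?_⟩
    · intro i ω
      have := hz2 i ω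
      rw [pow_zero, one_mul]
      omega
    · intro α _ _ φ i q hq0 hq x
      rw [pow_zero, pow_one, mul_assoc]
      exact mul_le_mul_of_nonneg_left (hq x) (by norm_num)
  | succ d ih =>
    intro Ω _ _ z hz1 hz2
    obtain ⟨Ω', hf, hne, w, hw1, hw2, hw3⟩ := ih Ω z hz1 hz2
    refine ⟨Ω' × Ω', inferInstance, inferInstance, fun i ω => node (w i ω.1) (w i ω.2), ?_, ?_, ?_⟩
    · intro i ω
      exact node_ne_one (hw1 i _) (hw1 i _)
    · intro i ω
      have h1 := node_norm (hw1 i ω.1) (hw1 i ω.2)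
      have h2 := hw2 i ω.1
      have h3 := hw2 i ω.2
      have e : 4 ^ (d + 1) * (L + 6) = 4 * (4 ^ d * (L + 6)) := by ring
      rw [e]
      change (node (w i ω.1) (w i ω.2)).norm + 6 ≤ _
      omega
    · intro α _ _ φ i q hq0 hq x
      have h1 := hw3 α φ i q hq0 hq
      set Q : ℝ := (48 * q) ^ (2 ^ d) / 48 with hQ
      have hQ0 : 0 ≤ Q := by rw [hQ]; positivity
      have h2 := card_node_le φ (w i) Q hQ0 (by
        intro x
        have := h1 x
        rw [hQ, div_mul_eq_mul_div, le_div_iff₀ (by norm_num)]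
        linarith) x
      have h3 : 48 * (48 * Q ^ 2 * (Fintype.card (Ω' × Ω') : ℝ))
          = (48 * q) ^ (2 ^ (d + 1)) * Fintype.card (Ω' × Ω') := by
        rw [hQ, pow_succ 2 d, pow_mul]
        ring
      rw [← h3]
      exact mul_le_mul_of_nonneg_left h2 (by norm_num)

end Pool.MP99279c.AA
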