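import Pool.Agent.Work.MP_99279c_al.AA.Mix
import Pool.Agent.Work.MP_99279c_al.AA.Amp

/-!
# A commutator tree with the threshold `1 / 3`
-/

set_option autoImplicit false
set_option linter.unusedSectionVars false

namespace Pool.MP99279c.AA

open Finset Function FreeGroup Pool.MP99279c

/-- all letters at the two ends have index `i` -/
def Ends (w : F2) (i : Fin 2) : Prop := (∃ b, St w (i, b)) ∧ ∃ b, En w (i, b)

theorem comm_ne_one {P Q : F2} (hP : Ends P 0) (hQ : Ends Q 1) :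
    P * (Q * (P⁻¹ * Q⁻¹)) ≠ 1 := by
  obtain ⟨⟨b1, hb1⟩, ⟨c1, hc1⟩⟩ := hP
  obtain ⟨⟨b2, hb2⟩, ⟨c2, hc2⟩⟩ := hQ
  have s1 : St (P⁻¹ * Q⁻¹) ((0 : Fin 2), !c1) := by
    refine St_mul (St_inv hc1) (En_inv hb1) ?_
    refine St_ne ?_ (St_inv hc2)
    intro h
    exact absurd (congrArg Prod.fst h) (by simp)
  have s2 : St (Q * (P⁻¹ * Q⁻¹)) ((1 : Fin 2), b2) := by
    refine St_mul hb2 hc2 (St_ne ?_ s1)
    intro h
    exact absurd (congrArg Prod.fst h) (by simp)
  have s3 : St (P * (Q * (P⁻¹ * Q⁻¹))) ((0 : Fin 2), b1) := by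
    refine St_mul hb1 hc1 (St_ne ?_ s2)
    intro h
    exact absurd (congrArg Prod.fst h) (by simp)
  exact s3.ne_one

theorem exists_St {w : F2} (hw : w ≠ 1) : ∃ c, St w c := by
  have hne : w.toWord ≠ [] := by
    intro h
    exact hw (toWord_eq_nil_iff.mp h)
  exact ⟨_, List.head?_eq_some_head hne⟩

theorem exists_En {w : F2} (hw : w ≠ 1) : ∃ c, En w c := by
  have hne : w.toWord ≠ [] := by
    intro h
    exact hw (toWord_eq_nil_iff.mp h)
  exact ⟨_, List.getLast?_eq_some_getLast hne⟩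

/-- a short word is absorbed -/
theorem St_pow_mul (i : Fin 2) (N : ℕ) (w : F2) (hw : w.norm < N) :
    ∃ b, St ((FreeGroup.of i) ^ N * w) (i, b) := by
  by_contra hcon
  push Not at hcon
  set g : F2 := (FreeGroup.of i) ^ N * w with hg
  have hx : ((FreeGroup.of i) ^ N)⁻¹.toWord = List.replicate N (i, false) := by
    rw [toWord_inv, toWord_of_pow, invRev]
    simp
  have hw' : ((FreeGroup.of i) ^ N)⁻¹ * g = w := by rw [hg]; group
  have h1 : (((FreeGroup.of i) ^ N)⁻¹ * g).toWord = List.replicate N (i, false) ++ g.toWord := by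
    rw [toWord_mul_of, hx]
    intro a ha b hb hab
    exfalso
    rw [hx] at ha
    have ha' : a = (i, false) := by
      have := List.mem_of_getLast? (Option.mem_def.mp ha)
      exact List.eq_of_mem_replicate this
    rw [ha'] at hab
    obtain ⟨b1, b2⟩ := b
    simp only at hab
    subst hab
    exact hcon b2 (Option.mem_def.mp hb)
  have h2 : w.norm = N + g.norm := by
    rw [hw'] at h1
    unfold FreeGroup.norm
    rw [h1, List.length_append, List.length_replicate]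
  omega

/-- multiplying by a letter on the right does not change the first letter if the latter has
another index -/
theorem St_mul_letter {g : F2} {j i : Fin 2} {c : Bool} (hij : j ≠ i) (hg : St g (j, c)) (b : Bool) :
    St (g * mk [(i, b)]) (j, c) := by
  have hne : g ≠ 1 := hg.ne_one
  obtain ⟨⟨d1, d2⟩, hd⟩ := exists_En hne
  have hl1 : (mk [(i, b)] : F2).toWord = [(i, b)] := by
    rw [toWord_mk, FreeGroup.IsReduced.singleton.reduce_eq]
  by_cases hc : (d1, d2) = (i, !b)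
  · -- cancellation
    have hw : g.toWord = g.toWord.dropLast ++ [(i, !b)] := by
      have h1 := List.dropLast_append_getLast? (l := g.toWord) (i, !b) (by
        rw [← hc]; exact hd)
      exact h1.symm
    set l := g.toWord.dropLast with hl
    have hgm : g = mk l * mk [(i, !b)] := by
      rw [mul_mk, ← hw, mk_toWord]
    have hred : FreeGroup.IsReduced l := by
      have := isReduced_toWord (x := g)
      rw [hw] at this
      unfold FreeGroup.IsReduced at this ⊢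
      exact (List.isChain_append.mp this).1
    have hprod : g * mk [(i, b)] = mk l := by
      rw [hgm, mul_assoc, mul_mk]
      have : (mk ([(i, !b)] ++ [(i, b)]) : F2) = 1 := by
        rw [← mul_mk]
        have : (mk [(i, !b)] : F2) = (mk [(i, b)])⁻¹ := by
          rw [inv_mk]; simp [invRev]
        rw [this, inv_mul_cancel]
      rw [this, mul_one]
    rw [hprod]
    unfold St
    rw [toWord_mk, hred.reduce_eq]
    unfold St at hg
    rw [hw] at hg
    clear_value l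
    rcases l with _ | ⟨a, l'⟩
    · rw [List.nil_append, List.head?_cons, Option.some_inj] at hg
      exact absurd (congrArg Prod.fst hg).symm hij
    · rw [List.cons_append, List.head?_cons] at hg
      rw [List.head?_cons]
      exact hg
  · refine St_mul hg hd ?_
    intro h
    unfold St at h
    rw [hl1, List.head?_cons, Option.some_inj] at h
    apply hc
    rw [Prod.mk.injEq] at h
    obtain ⟨h3, h4⟩ := h
    simp only at h3 h4
    rw [h3, h4]
    simp

theorem St_mul_pow {g : F2} {j i : Fin 2} {c : Bool} (hij : j ≠ i) (hg : St g (j, c)) (N : ℕ) :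
    St (g * (FreeGroup.of i) ^ N) (j, c) := by
  induction N with
  | zero => rwa [pow_zero, mul_one]
  | succ N ih =>
    rw [pow_succ, ← mul_assoc]
    exact St_mul_letter hij ih true

theorem St_conj_pow (i : Fin 2) (N : ℕ) (w : F2) (hw1 : w ≠ 1) (hw : w.norm < N) :
    ∃ b, St ((FreeGroup.of i) ^ N * w * ((FreeGroup.of i) ^ N)⁻¹) (i, b) := by
  set P : F2 := (FreeGroup.of i) ^ N * w * ((FreeGroup.of i) ^ N)⁻¹ with hP
  have hP1 : P ≠ 1 := by
    intro h
    rw [hP, conj_eq_one_iff] at h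
    exact hw1 h
  obtain ⟨⟨j, c⟩, hc⟩ := exists_St hP1
  by_cases hji : j = i
  · rw [hji] at hc
    exact ⟨c, hc⟩
  · exfalso
    have h1 := St_mul_pow hji hc N
    have h2 : P * (FreeGroup.of i) ^ N = (FreeGroup.of i) ^ N * w := by rw [hP]; group
    rw [h2] at h1
    obtain ⟨b, hb⟩ := St_pow_mul i N w hw
    have h3 := Option.some_inj.mp (h1.symm.trans hb)
    exact hji (congrArg Prod.fst h3)

theorem Ends_conj_pow (i : Fin 2) (N : ℕ) (w : F2) (hw1 : w ≠ 1) (hw : w.norm < N) :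
    Ends ((FreeGroup.of i) ^ N * w * ((FreeGroup.of i) ^ N)⁻¹) i := by
  refine ⟨St_conj_pow i N w hw1 hw, ?_⟩
  obtain ⟨b, hb⟩ := St_conj_pow i N w⁻¹ (inv_ne_one.mpr hw1) (by rwa [norm_inv_eq])
  have h1 := En_inv hb
  refine ⟨!b, ?_⟩
  have h2 : ((FreeGroup.of i) ^ N * w⁻¹ * ((FreeGroup.of i) ^ N)⁻¹)⁻¹
      = (FreeGroup.of i) ^ N * w * ((FreeGroup.of i) ^ N)⁻¹ := by group
  rw [h2] at h1
  exact h1

/-- the node of the second tree -/
noncomputable def node2 (N : ℕ) (A B : F2) : F2 :=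
  ((FreeGroup.of (0 : Fin 2)) ^ N * A * ((FreeGroup.of (0 : Fin 2)) ^ N)⁻¹)
    * (((FreeGroup.of (1 : Fin 2)) ^ N * B * ((FreeGroup.of (1 : Fin 2)) ^ N)⁻¹)
    * (((FreeGroup.of (0 : Fin 2)) ^ N * A * ((FreeGroup.of (0 : Fin 2)) ^ N)⁻¹)⁻¹
    * ((FreeGroup.of (1 : Fin 2)) ^ N * B * ((FreeGroup.of (1 : Fin 2)) ^ N)⁻¹)⁻¹))

theorem node2_ne_one {N : ℕ} {A B : F2} (hA : A ≠ 1) (hB : B ≠ 1) (hAN : A.norm < N)
    (hBN : B.norm < N) : node2 N A B ≠ 1 :=
  comm_ne_one (Ends_conj_pow 0 N A hA hAN) (Ends_conj_pow 1 N B hB hBN)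

theorem norm_conj_pow (i : Fin 2) (N : ℕ) (w : F2) :
    ((FreeGroup.of i) ^ N * w * ((FreeGroup.of i) ^ N)⁻¹).norm ≤ w.norm + 2 * N := by
  have h1 := norm_mul_le ((FreeGroup.of i) ^ N * w) ((FreeGroup.of i) ^ N)⁻¹
  have h2 := norm_mul_le ((FreeGroup.of i) ^ N) w
  rw [norm_inv_eq, norm_of_pow] at h1
  rw [norm_of_pow] at h2
  omega

theorem node2_norm (N : ℕ) (A B : F2) :
    (node2 N A B).norm ≤ 2 * A.norm + 2 * B.norm + 8 * N := by
  unfold node2
  have h1 := norm_conj_pow 0 N A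
  have h2 := norm_conj_pow 1 N B
  set A' := (FreeGroup.of (0 : Fin 2)) ^ N * A * ((FreeGroup.of (0 : Fin 2)) ^ N)⁻¹
  set B' := (FreeGroup.of (1 : Fin 2)) ^ N * B * ((FreeGroup.of (1 : Fin 2)) ^ N)⁻¹
  have h3 := norm_mul_le A' (B' * (A'⁻¹ * B'⁻¹))
  have h4 := norm_mul_le B' (A'⁻¹ * B'⁻¹)
  have h5 := norm_mul_le A'⁻¹ B'⁻¹
  rw [norm_inv_eq, norm_inv_eq] at h5
  omega

section

variable {α : Type} [Fintype α] [DecidableEq α]

theorem card_node2_le (φ : F2 →* Equiv.Perm α) {Ω : Type} [Fintype Ω] (z : Ω → F2) (q : ℝ)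
    (hq0 : 0 ≤ q)
    (hq : ∀ x, ((univ.filter (fun ω => φ (z ω) x ≠ x)).card : ℝ) ≤ q * Fintype.card Ω)
    (N0 : ℕ) (x : α) :
    ((univ.filter (fun ω : Ω × Ω => φ (node2 N0 (z ω.1) (z ω.2)) x ≠ x)).card : ℝ)
      ≤ 3 * q ^ 2 * Fintype.card (Ω × Ω) := by
  classical
  set a : Ω → Equiv.Perm α := fun ω =>
    φ ((FreeGroup.of (0 : Fin 2)) ^ N0 * (z ω) * ((FreeGroup.of (0 : Fin 2)) ^ N0)⁻¹) with ha
  set b : Ω → Equiv.Perm α := fun ω =>
    φ ((FreeGroup.of (1 : Fin 2)) ^ N0 * (z ω) * ((FreeGroup.of (1 : Fin 2)) ^ N0)⁻¹) with hb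
  have hA : ∀ x, ((univ.filter (fun ω => a ω x ≠ x)).card : ℝ) ≤ q * Fintype.card Ω := by
    intro x
    have e : univ.filter (fun ω => a ω x ≠ x) = univ.filter (fun ω => φ (z ω)
        ((φ ((FreeGroup.of (0 : Fin 2)) ^ N0))⁻¹ x) ≠ (φ ((FreeGroup.of (0 : Fin 2)) ^ N0))⁻¹ x) := by
      apply filter_congr
      intro ω _
      rw [ha]
      exact moved_conj φ _ _ _
    rw [e]
    exact hq _
  have hB : ∀ x, ((univ.filter (fun ω => b ω x ≠ x)).card : ℝ) ≤ q * Fintype.card Ω := by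
    intro x
    have e : univ.filter (fun ω => b ω x ≠ x) = univ.filter (fun ω => φ (z ω)
        ((φ ((FreeGroup.of (1 : Fin 2)) ^ N0))⁻¹ x) ≠ (φ ((FreeGroup.of (1 : Fin 2)) ^ N0))⁻¹ x) := by
      apply filter_congr
      intro ω _
      rw [hb]
      exact moved_conj φ _ _ _
    rw [e]
    exact hq _
  set N : ℝ := (Fintype.card Ω : ℝ) with hN
  have hN0 : 0 ≤ N := by rw [hN]; positivity
  -- three parts
  set P1 := univ.filter (fun ω : Ω × Ω => a ω.1 x ≠ x ∧ b ω.2 x ≠ x) with hP1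
  set P2 := univ.filter (fun ω : Ω × Ω => a ω.1 x ≠ x ∧ b ω.2 ((a ω.1)⁻¹ x) ≠ (a ω.1)⁻¹ x) with hP2
  set P3 := univ.filter (fun ω : Ω × Ω => b ω.2 x ≠ x ∧ a ω.1 ((b ω.2)⁻¹ x) ≠ (b ω.2)⁻¹ x) with hP3
  have hsub : univ.filter (fun ω : Ω × Ω => φ (node2 N0 (z ω.1) (z ω.2)) x ≠ x)
      ⊆ P1 ∪ P2 ∪ P3 := by
    intro ω hω
    rw [mem_filter] at hω
    have h1 := hω.2
    unfold node2 at h1
    rw [_root_.map_mul, _root_.map_mul φ _ (_ * _), _root_.map_mul φ _⁻¹ _,
      _root_.map_inv, _root_.map_inv] at h1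
    rw [mem_union, mem_union, hP1, hP2, hP3, mem_filter, mem_filter, mem_filter]
    rcases moved_comm (a ω.1) (b ω.2) x h1 with h | h | h
    · exact Or.inl (Or.inl ⟨mem_univ _, h⟩)
    · exact Or.inl (Or.inr ⟨mem_univ _, h⟩)
    · exact Or.inr ⟨mem_univ _, h⟩
  have hcard : ((univ.filter (fun ω : Ω × Ω => φ (node2 N0 (z ω.1) (z ω.2)) x ≠ x)).card : ℝ)
      ≤ (P1.card : ℝ) + P2.card + P3.card := by
    have h1 := (card_le_card hsub).trans
      ((card_union_le _ _).trans (Nat.add_le_add_right (card_union_le _ _) _))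
    exact_mod_cast h1
  have gen : ∀ (f g : Ω → Equiv.Perm α) (y : Ω → α),
      (∀ x, ((univ.filter (fun ω => f ω x ≠ x)).card : ℝ) ≤ q * N) →
      (∀ x, ((univ.filter (fun ω => g ω x ≠ x)).card : ℝ) ≤ q * N) →
      (∑ ω1 : Ω, ∑ ω2 : Ω, (if f ω1 x ≠ x ∧ g ω2 (y ω1) ≠ y ω1 then (1 : ℝ) else 0))
        ≤ (q * N) * (q * N) := by
    intro f g y hf hg
    have e1 : ∀ ω1 ∈ (univ : Finset Ω),
        (∑ ω2 : Ω, (if f ω1 x ≠ x ∧ g ω2 (y ω1) ≠ y ω1 then (1 : ℝ) else 0))
        ≤ (if f ω1 x ≠ x then (q * N) else 0) := by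
      intro ω1 _
      by_cases h : f ω1 x ≠ x
      · rw [if_pos h]
        have := hg (y ω1)
        rw [card_filter] at this
        push_cast at this
        simpa [h] using this
      · simp [h]
    refine (sum_le_sum e1).trans ?_
    rw [← sum_filter, sum_const, nsmul_eq_mul]
    apply mul_le_mul_of_nonneg_right (hf x) (by positivity)
  have c1 : (P1.card : ℝ) ≤ (q * N) * (q * N) := by
    rw [hP1, card_filter, Fintype.sum_prod_type]
    push_cast
    exact gen a b (fun _ => x) hA hB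
  have c2 : (P2.card : ℝ) ≤ (q * N) * (q * N) := by
    rw [hP2, card_filter, Fintype.sum_prod_type]
    push_cast
    exact gen a b (fun ω => (a ω)⁻¹ x) hA hB
  have c3 : (P3.card : ℝ) ≤ (q * N) * (q * N) := by
    rw [hP3, card_filter, Fintype.sum_prod_type_right]
    push_cast
    exact gen b a (fun ω => (b ω)⁻¹ x) hB hA
  have hcc : (Fintype.card (Ω × Ω) : ℝ) = N * N := by
    rw [Fintype.card_prod, hN]
    push_cast
    ring
  rw [hcc]
  calc _ ≤ (P1.card : ℝ) + P2.card + P3.card := hcard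
    _ ≤ 3 * ((q * N) * (q * N)) := by linarith
    _ = _ := by ring

end

/-- the second commutator tree -/
theorem tree2 (L : ℕ) : ∀ (d : ℕ) (Ω : Type) [Fintype Ω] [Nonempty Ω] (z : Ω → F2),
    (∀ ω, z ω ≠ 1) → (∀ ω, (z ω).norm ≤ L) →
    ∃ (Ω' : Type) (_ : Fintype Ω') (_ : Nonempty Ω') (w : Ω' → F2),
      (∀ ω, w ω ≠ 1) ∧ (∀ ω, (w ω).norm + 1 ≤ 12 ^ d * (L + 1)) ∧
      ∀ (α : Type) [Fintype α] [DecidableEq α] (φ : F2 →* Equiv.Perm α) (q : ℝ), 0 ≤ q →
        (∀ x, ((univ.filter (fun ω => φ (z ω) x ≠ x)).card : ℝ) ≤ q * Fintype.card Ω) →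
        ∀ x, 3 * ((univ.filter (fun ω => φ (w ω) x ≠ x)).card : ℝ)
          ≤ (3 * q) ^ (2 ^ d) * Fintype.card Ω' := by
  intro d
  induction d with
  | zero =>
    intro Ω _ _ z hz1 hz2
    refine ⟨Ω, inferInstance, inferInstance, z, hz1, ?_, ?_⟩
    · intro ω
      have := hz2 ω
      rw [pow_zero, one_mul]
      omega
    · intro α _ _ φ q hq0 hq x
      rw [pow_zero, pow_one, mul_assoc]
      exact mul_le_mul_of_nonneg_left (hq x) (by norm_num)
  | succ d ih =>
    intro Ω _ _ z hz1 hz2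
    obtain ⟨Ω', hf, hne, w, hw1, hw2, hw3⟩ := ih Ω z hz1 hz2
    refine ⟨Ω' × Ω', inferInstance, inferInstance,
      fun ω => node2 (12 ^ d * (L + 1)) (w ω.1) (w ω.2), ?_, ?_, ?_⟩
    · intro ω
      have h2 := hw2 ω.1
      have h3 := hw2 ω.2
      exact node2_ne_one (hw1 _) (hw1 _) (by omega) (by omega)
    · intro ω
      have h1 := node2_norm (12 ^ d * (L + 1)) (w ω.1) (w ω.2)
      have h2 := hw2 ω.1
      have h3 := hw2 ω.2
      have e : 12 ^ (d + 1) * (L + 1) = 12 * (12 ^ d * (L + 1)) := by ring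
      rw [e]
      change (node2 (12 ^ d * (L + 1)) (w ω.1) (w ω.2)).norm + 1 ≤ _
      omega
    · intro α _ _ φ q hq0 hq x
      have h1 := hw3 α φ q hq0 hq
      set Q : ℝ := (3 * q) ^ (2 ^ d) / 3 with hQ
      have hQ0 : 0 ≤ Q := by rw [hQ]; positivity
      have h2 := card_node2_le φ w Q hQ0 (by
        intro x
        have := h1 x
        rw [hQ, div_mul_eq_mul_div, le_div_iff₀ (by norm_num)]
        linarith) (12 ^ d * (L + 1)) x
      have h3 : 3 * (3 * Q ^ 2 * (Fintype.card (Ω' × Ω') : ℝ))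
          = (3 * q) ^ (2 ^ (d + 1)) * Fintype.card (Ω' × Ω') := by
        rw [hQ, pow_succ 2 d, pow_mul]
        ring
      rw [← h3]
      exact mul_le_mul_of_nonneg_left h2 (by norm_num)

end Pool.MP99279c.AA
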