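import Pool.Agent.Work.MP_99279c_al.AA.Pair2

/-!
# Among the words `x y^i`, `i < K`, one has a giant cycle, for most pairs
-/

set_option autoImplicit false
set_option linter.unusedSectionVars false

namespace Pool.MP99279c.AA

open Finset Function

/-- abstract second moment bound -/
theorem second_moment_zero {Ω : Type*} [Fintype Ω] (K : ℕ) (E : ℕ → Ω → Prop)
    [∀ i, DecidablePred (E i)] (M p ρ : ℝ) (hM : (Fintype.card Ω : ℝ) = M) (hM0 : 0 ≤ M)
    (hE : ∀ i < K, ((univ.filter (E i)).card : ℝ) = p * M)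
    (hEE : ∀ i < K, ∀ j < K, i ≠ j → ((univ.filter (fun ω => E i ω ∧ E j ω)).card : ℝ) ≤ ρ * M)
    (hρ : 0 ≤ ρ) :
    ((univ.filter (fun ω => ∀ i < K, ¬ E i ω)).card : ℝ) * (K * p) ^ 2
      ≤ (K * p + K ^ 2 * (ρ - p ^ 2)) * M := by
  classical
  set N : Ω → ℝ := fun ω => ∑ i ∈ range K, (if E i ω then 1 else 0) with hN
  have h1 : ∑ ω, N ω = K * p * M := by
    rw [hN, sum_comm]
    have : ∀ i ∈ range K, ∑ ω, (if E i ω then (1 : ℝ) else 0) = p * M := by
      intro i hi
      rw [← hE i (mem_range.mp hi), card_filter]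
      push_cast
      rfl
    rw [sum_congr rfl this, sum_const, card_range, nsmul_eq_mul]
    ring
  have h2 : ∑ ω, N ω ^ 2 ≤ (K * p + K ^ 2 * ρ) * M := by
    have e1 : ∀ ω, N ω ^ 2 = ∑ i ∈ range K, ∑ j ∈ range K, (if E i ω ∧ E j ω then (1 : ℝ) else 0) := by
      intro ω
      rw [hN, sq, sum_mul_sum]
      refine sum_congr rfl fun i _ => sum_congr rfl fun j _ => ?_
      by_cases hi : E i ω <;> by_cases hj : E j ω <;> simp [hi, hj]
    simp only [e1]
    rw [sum_comm]
    have e2 : ∀ i ∈ range K, ∑ ω, ∑ j ∈ range K, (if E i ω ∧ E j ω then (1 : ℝ) else 0)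
        ≤ p * M + K * (ρ * M) := by
      intro i hi
      rw [sum_comm]
      have e3 : ∀ j ∈ range K, ∑ ω, (if E i ω ∧ E j ω then (1 : ℝ) else 0)
          ≤ (if j = i then p * M else 0) + ρ * M := by
        intro j hj
        have e4 : ∑ ω, (if E i ω ∧ E j ω then (1 : ℝ) else 0)
            = ((univ.filter (fun ω => E i ω ∧ E j ω)).card : ℝ) := by
          rw [card_filter]
          push_cast
          rfl
        rw [e4]
        by_cases hij : j = i
        · rw [if_pos hij, hij]
          have : univ.filter (fun ω => E i ω ∧ E i ω) = univ.filter (E i) := by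
            ext ω; simp
          rw [this, hE i (mem_range.mp hi)]
          have := mul_nonneg hρ hM0
          linarith
        · rw [if_neg hij, zero_add]
          exact hEE i (mem_range.mp hi) j (mem_range.mp hj) (fun h => hij h.symm)
      refine (sum_le_sum e3).trans ?_
      rw [sum_add_distrib, sum_ite_eq' (range K) i, if_pos hi, sum_const, card_range, nsmul_eq_mul]
    refine (sum_le_sum e2).trans ?_
    rw [sum_const, card_range, nsmul_eq_mul]
    apply le_of_eq
    ring
  have h3 : ∑ ω, (N ω - K * p) ^ 2 ≤ (K * p + K ^ 2 * (ρ - p ^ 2)) * M := by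
    have e1 : ∀ ω, (N ω - K * p) ^ 2 = N ω ^ 2 - 2 * (K * p) * N ω + (K * p) ^ 2 := by
      intro ω; ring
    simp only [e1]
    rw [sum_add_distrib, sum_sub_distrib, ← mul_sum, h1, sum_const, card_univ, nsmul_eq_mul, hM]
    nlinarith
  refine le_trans ?_ h3
  calc ((univ.filter (fun ω => ∀ i < K, ¬ E i ω)).card : ℝ) * (K * p) ^ 2
      = ∑ ω ∈ univ.filter (fun ω => ∀ i < K, ¬ E i ω), (K * p) ^ 2 := by
        rw [sum_const, nsmul_eq_mul]
    _ = ∑ ω ∈ univ.filter (fun ω => ∀ i < K, ¬ E i ω), (N ω - K * p) ^ 2 := by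
        apply sum_congr rfl
        intro ω hω
        rw [mem_filter] at hω
        have : N ω = 0 := by
          rw [hN]
          apply sum_eq_zero
          intro i hi
          rw [if_neg (hω.2 i (mem_range.mp hi))]
        rw [this]
        ring
    _ ≤ _ := by
        apply sum_le_univ_sum_of_nonneg
        intro ω
        positivity

section

variable {α : Type} [Fintype α] [DecidableEq α]

/-- the change of variables `(x, y) ↦ (x y^i, y)` -/
def shiftEquiv (i : ℕ) : Equiv.Perm α × Equiv.Perm α ≃ Equiv.Perm α × Equiv.Perm α where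
  toFun p := (p.1 * p.2 ^ i, p.2)
  invFun p := (p.1 * (p.2 ^ i)⁻¹, p.2)
  left_inv p := by simp [mul_assoc]
  right_inv p := by simp [mul_assoc]

theorem card_single (x0 : α) (g0 i : ℕ) (hg0 : 1 ≤ g0) (hn : 0 < Fintype.card α) :
    ((univ.filter (fun p : Equiv.Perm α × Equiv.Perm α =>
      g0 ≤ (cyc (p.1 * p.2 ^ i) x0).card)).card : ℝ)
      = (((Fintype.card α + 1 - g0 : ℕ) : ℝ) / Fintype.card α)
        * ((Fintype.card α).factorial : ℝ) ^ 2 := by
  classical
  have h1 : (univ.filter (fun p : Equiv.Perm α × Equiv.Perm α =>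
      g0 ≤ (cyc (p.1 * p.2 ^ i) x0).card)).card
      = (univ.filter (fun p : Equiv.Perm α × Equiv.Perm α => g0 ≤ (cyc p.1 x0).card)).card := by
    apply Finset.card_equiv (shiftEquiv i)
    intro p
    simp [shiftEquiv]
  rw [h1, card_prod_filter']
  have h2 : ∀ y ∈ (univ : Finset (Equiv.Perm α)),
      ((univ.filter (fun s : Equiv.Perm α => g0 ≤ (cyc (s, y).1 x0).card)).card : ℝ)
      = ((Fintype.card α + 1 - g0 : ℕ) : ℝ) * ((Fintype.card α - 1).factorial : ℝ) := by
    intro y _
    simp only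
    rw [card_cyc_ge x0 g0 hg0]
    push_cast
    ring
  rw [sum_congr rfl h2, sum_const, card_univ, Fintype.card_perm, nsmul_eq_mul, sq]
  have h3 := factorial_eq hn
  have hnR : (0 : ℝ) < Fintype.card α := by exact_mod_cast hn
  rw [h3]
  field_simp

theorem card_double (x0 : α) (g0 i j : ℕ) (hij : i < j) :
    (univ.filter (fun p : Equiv.Perm α × Equiv.Perm α =>
      g0 ≤ (cyc (p.1 * p.2 ^ i) x0).card ∧ g0 ≤ (cyc (p.1 * p.2 ^ j) x0).card)).card
      = (univ.filter (fun p : Equiv.Perm α × Equiv.Perm α => g0 ≤ (cyc p.1 x0).card ∧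
        g0 ≤ (cyc (p.1 * p.2 ^ (j - i)) x0).card)).card := by
  classical
  apply Finset.card_equiv (shiftEquiv i)
  intro p
  have e : p.1 * p.2 ^ i * p.2 ^ (j - i) = p.1 * p.2 ^ j := by
    rw [mul_assoc, ← pow_add]
    congr 2
    omega
  simp [shiftEquiv, e]

end

end Pool.MP99279c.AA
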