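import Mathlib

/-!
# Counting permutations with prescribed values, exploration of a random permutation
-/

set_option autoImplicit false

namespace Pool.MP99279c.AA

open Finset

section

variable {α : Type*} [Fintype α] [DecidableEq α]

/-- permutations with prescribed values at `J` distinct points -/
theorem card_ext_le {J : ℕ} (q a : Fin J → α) (hq : Function.Injective q) :
    (univ.filter (fun y : Equiv.Perm α => ∀ j, y (q j) = a j)).card
      ≤ (Fintype.card α - J).factorial := by
  classical
  rcases (univ.filter (fun y : Equiv.Perm α => ∀ j, y (q j) = a j)).eq_empty_or_nonempty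
    with h | ⟨y0, hy0⟩
  · rw [h]; simp
  · rw [mem_filter] at hy0
    let p : α → Prop := fun x => x ∉ univ.image q
    have hinj : ∀ y ∈ univ.filter (fun y : Equiv.Perm α => ∀ j, y (q j) = a j),
        ∀ x, ¬ p x → (y0⁻¹ * y) x = x := by
      intro y hy x hx
      rw [mem_filter] at hy
      simp only [p, not_not, mem_image, mem_univ, true_and] at hx
      obtain ⟨j, rfl⟩ := hx
      rw [Equiv.Perm.mul_apply, hy.2 j, ← hy0.2 j, Equiv.Perm.inv_def, Equiv.symm_apply_apply]
    have h1 : (univ.filter (fun y : Equiv.Perm α => ∀ j, y (q j) = a j)).card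
        ≤ Fintype.card {f : Equiv.Perm α // ∀ x, ¬ p x → f x = x} := by
      rw [← Fintype.card_coe]
      apply Fintype.card_le_of_injective
        (fun y : {y // y ∈ univ.filter (fun y : Equiv.Perm α => ∀ j, y (q j) = a j)} =>
          (⟨y0⁻¹ * y.1, hinj y.1 y.2⟩ : {f : Equiv.Perm α // ∀ x, ¬ p x → f x = x}))
      intro y y' h
      rw [Subtype.mk.injEq] at h
      exact Subtype.ext (mul_left_cancel h)
    refine h1.trans (le_of_eq ?_)
    rw [← Fintype.card_congr (Equiv.Perm.subtypeEquivSubtypePerm p), Fintype.card_perm]
    congr 1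
    rw [Fintype.card_subtype_compl, Fintype.card_coe, card_image_of_injective _ hq, card_univ,
      Fintype.card_fin]

/-- the queries: `z`, then `θ j (answer j)` -/
def qry (θ : ℕ → Equiv.Perm α) (z : α) (a : ℕ → α) : ℕ → α
  | 0 => z
  | j + 1 => θ j (a j)

/-- the path explored by `y` -/
def path (θ : ℕ → Equiv.Perm α) (z : α) (y : Equiv.Perm α) : ℕ → α
  | 0 => z
  | j + 1 => θ j (y (path θ z y j))

omit [Fintype α] [DecidableEq α] in
theorem qry_path (θ : ℕ → Equiv.Perm α) (z : α) (y : Equiv.Perm α) (a : ℕ → α) (J : ℕ)
    (h : ∀ j < J, y (path θ z y j) = a j) : ∀ j ≤ J, qry θ z a j = path θ z y j := by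
  intro j hj
  cases j with
  | zero => rfl
  | succ j => rw [qry, path, h j (by omega)]

/-- exploration without collision -/
theorem card_path_le (θ : ℕ → Equiv.Perm α) (z : α) (J : ℕ) (B : ℕ → Finset α) :
    (univ.filter (fun y : Equiv.Perm α => (∀ i < J, ∀ j < J, path θ z y i = path θ z y j → i = j) ∧
      ∀ j < J, y (path θ z y j) ∈ B j)).card
      ≤ (Fintype.card α - J).factorial * ∏ j ∈ range J, (B j).card := by
  classical
  have h := Finset.card_le_mul_card_image_of_maps_to
    (s := univ.filter (fun y : Equiv.Perm α =>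
      (∀ i < J, ∀ j < J, path θ z y i = path θ z y j → i = j) ∧
      ∀ j < J, y (path θ z y j) ∈ B j))
    (t := Fintype.piFinset (fun j : Fin J => B j))
    (f := fun y => fun j : Fin J => y (path θ z y j)) ?_ (Fintype.card α - J).factorial ?_
  · rw [Fintype.card_piFinset] at h
    rw [← Fin.prod_univ_eq_prod_range (fun j => (B j).card) J]
    exact h
  · intro y hy
    rw [mem_filter] at hy
    rw [Fintype.mem_piFinset]
    intro j
    exact hy.2.2 j j.2
  · intro b hb
    rcases J.eq_zero_or_pos with hJ | hJ
    · subst hJ
      rw [Nat.sub_zero, ← Fintype.card_perm, ← card_univ]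
      exact card_le_card (fun _ _ => mem_univ _)
    · set a : ℕ → α := fun j => if h : j < J then b ⟨j, h⟩ else z with ha
      by_cases hne : (filter (fun y => (fun j : Fin J => y (path θ z y j)) = b)
        (univ.filter (fun y : Equiv.Perm α =>
        (∀ i < J, ∀ j < J, path θ z y i = path θ z y j → i = j) ∧
        ∀ j < J, y (path θ z y j) ∈ B j))).Nonempty
      · obtain ⟨y0, hy0⟩ := hne
        rw [mem_filter, mem_filter] at hy0
        have hq0 : ∀ y : Equiv.Perm α, (fun j : Fin J => y (path θ z y j)) = b →
            ∀ j ≤ J, qry θ z a j = path θ z y j := by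
          intro y hy
          apply qry_path
          intro j hj
          rw [ha]
          simp only [hj, dif_pos]
          rw [← hy]
        have hinj : Function.Injective (fun j : Fin J => qry θ z a j) := by
          intro i j hij
          simp only at hij
          rw [hq0 y0 hy0.2 i i.2.le, hq0 y0 hy0.2 j j.2.le] at hij
          exact Fin.ext (hy0.1.2.1 i i.2 j j.2 hij)
        refine (card_le_card ?_).trans (card_ext_le (fun j : Fin J => qry θ z a j) b hinj)
        intro y hy
        rw [mem_filter] at hy
        rw [mem_filter]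
        refine ⟨mem_univ _, fun j => ?_⟩
        rw [hq0 y hy.2 j j.2.le]
        exact congrFun hy.2 j
      · rw [not_nonempty_iff_eq_empty] at hne
        rw [hne]
        simp

/-- a collision of the path with an earlier query -/
theorem card_coll_le (θ : ℕ → Equiv.Perm α) (z : α) (i j : ℕ) (hij : i ≤ j) :
    (univ.filter (fun y : Equiv.Perm α =>
      (∀ i' < j + 1, ∀ j' < j + 1, path θ z y i' = path θ z y j' → i' = j') ∧
      path θ z y (j + 1) = path θ z y i)).card
      ≤ (Fintype.card α - (j + 1)).factorial * (Fintype.card α) ^ j := by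
  classical
  have h := Finset.card_le_mul_card_image_of_maps_to
    (s := univ.filter (fun y : Equiv.Perm α =>
      (∀ i' < j + 1, ∀ j' < j + 1, path θ z y i' = path θ z y j' → i' = j') ∧
      path θ z y (j + 1) = path θ z y i))
    (t := (univ : Finset (Fin j → α)))
    (f := fun y => fun l : Fin j => y (path θ z y l)) ?_ (Fintype.card α - (j + 1)).factorial ?_
  · rw [card_univ, Fintype.card_fun, Fintype.card_fin] at h
    exact h
  · intro y _
    exact mem_univ _
  · intro b _
    set a : ℕ → α := fun l => if h : l < j then b ⟨l, h⟩ else z with ha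
    by_cases hne : (filter (fun y => (fun l : Fin j => y (path θ z y l)) = b)
        (univ.filter (fun y : Equiv.Perm α =>
      (∀ i' < j + 1, ∀ j' < j + 1, path θ z y i' = path θ z y j' → i' = j') ∧
      path θ z y (j + 1) = path θ z y i))).Nonempty
    · obtain ⟨y0, hy0⟩ := hne
      rw [mem_filter, mem_filter] at hy0
      have hq0 : ∀ y : Equiv.Perm α, (fun l : Fin j => y (path θ z y l)) = b →
          ∀ l ≤ j, qry θ z a l = path θ z y l := by
        intro y hy
        apply qry_path
        intro l hl
        rw [ha]
        simp only [hl, dif_pos]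
        rw [← hy]
      have hinj : Function.Injective (fun l : Fin (j + 1) => qry θ z a l) := by
        intro l l' hll
        simp only at hll
        rw [hq0 y0 hy0.2 l (by omega), hq0 y0 hy0.2 l' (by omega)] at hll
        exact Fin.ext (hy0.1.2.1 l l.2 l' l'.2 hll)
      refine (card_le_card ?_).trans (card_ext_le (fun l : Fin (j + 1) => qry θ z a l)
        (fun l : Fin (j + 1) => if h : l.1 < j then b ⟨l.1, h⟩ else (θ j)⁻¹ (qry θ z a i)) hinj)
      intro y hy
      rw [mem_filter] at hy
      rw [mem_filter]
      refine ⟨mem_univ _, fun l => ?_⟩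
      rw [hq0 y hy.2 l (by omega)]
      by_cases hl : l.1 < j
      · simp only [hl, dif_pos]
        rw [← hy.2]
      · simp only [hl, dif_neg, not_false_iff]
        have hlj : l.1 = j := by omega
        rw [hlj, hq0 y hy.2 i hij]
        have h2 := (mem_filter.mp hy.1).2.2
        rw [path] at h2
        rw [← h2, Equiv.Perm.inv_def, Equiv.symm_apply_apply]
    · rw [not_nonempty_iff_eq_empty] at hne
      rw [hne]
      simp

end

/-- `n^J (n-J)! ≤ 2 n!` for small `J` -/
theorem pow_mul_factorial_le {n J : ℕ} (h : 2 * J * J ≤ n) :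
    (n : ℝ) ^ J * ((n - J).factorial : ℝ) ≤ 2 * (n.factorial : ℝ) := by
  -- `n! = (n-J)! * (n-J+1) ... n` with every factor at least `n - J`
  rcases Nat.eq_zero_or_pos J with hJ | hJ
  · subst hJ
    simp only [pow_zero, Nat.sub_zero, one_mul]
    have : (0 : ℝ) ≤ (n.factorial : ℝ) := by positivity
    linarith
  have hJn : J ≤ n := by nlinarith
  have hn : 0 < n := by omega
  have h1 : (n - J).factorial * (n - J + 1) ^ J ≤ n.factorial := by
    have := Nat.factorial_mul_pow_le_factorial (m := n - J) (n := J)
    rwa [Nat.sub_add_cancel hJn] at this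
  have h2 : (1 : ℝ) / 2 ≤ (1 - (J : ℝ) / n) ^ J := by
    have hb : (1 : ℝ) + (J : ℝ) * (-((J : ℝ) / n)) ≤ (1 + (-((J : ℝ) / n))) ^ J := by
      apply one_add_mul_le_pow
      have : (J : ℝ) / n ≤ 1 := by
        rw [div_le_one (by exact_mod_cast hn)]
        exact_mod_cast hJn
      linarith
    have h3 : (J : ℝ) * ((J : ℝ) / n) ≤ 1 / 2 := by
      rw [← mul_div_assoc, div_le_iff₀ (by exact_mod_cast hn)]
      have : (2 : ℝ) * J * J ≤ n := by exact_mod_cast h
      nlinarith
    have e : (1 : ℝ) - (J : ℝ) / n = 1 + (-((J : ℝ) / n)) := by ring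
    rw [e]
    refine le_trans ?_ hb
    nlinarith
  have h4 : (n : ℝ) ^ J * (1 / 2) ≤ ((n - J + 1 : ℕ) : ℝ) ^ J := by
    calc (n : ℝ) ^ J * (1 / 2) ≤ (n : ℝ) ^ J * (1 - (J : ℝ) / n) ^ J := by
          apply mul_le_mul_of_nonneg_left h2 (by positivity)
      _ = ((n : ℝ) - J) ^ J := by
          rw [← mul_pow]
          congr 1
          have : (n : ℝ) ≠ 0 := by exact_mod_cast hn.ne'
          field_simp
      _ ≤ _ := by
          have h5 : (n : ℝ) - J = ((n - J : ℕ) : ℝ) := by rw [Nat.cast_sub hJn]
          rw [h5]
          apply pow_le_pow_left₀ (by positivity)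
          push_cast
          linarith
  have h6 : ((n - J).factorial : ℝ) * ((n - J + 1 : ℕ) : ℝ) ^ J ≤ (n.factorial : ℝ) := by
    exact_mod_cast h1
  have h7 : (0 : ℝ) ≤ ((n - J).factorial : ℝ) := by positivity
  nlinarith [mul_le_mul_of_nonneg_left h4 h7]

section

variable {α : Type*} [Fintype α] [DecidableEq α]

/-- the path has a collision among its first `J + 1` points with small probability -/
theorem card_collision_le (θ : ℕ → Equiv.Perm α) (z : α) (J : ℕ)
    (hJ : 2 * (J + 1) * (J + 1) ≤ Fintype.card α) :
    ((univ.filter (fun y : Equiv.Perm α =>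
      ¬ ∀ i < J + 1, ∀ j < J + 1, path θ z y i = path θ z y j → i = j)).card : ℝ)
      ≤ (2 * (J : ℝ) * (J + 1) / Fintype.card α) * ((Fintype.card α).factorial : ℝ) := by
  classical
  set n := Fintype.card α with hn
  have hn0 : (0 : ℝ) < n := by
    have : 0 < n := by nlinarith
    exact_mod_cast this
  have key : ∀ J' : ℕ, J' ≤ J → ((univ.filter (fun y : Equiv.Perm α =>
      ¬ ∀ i < J' + 1, ∀ j < J' + 1, path θ z y i = path θ z y j → i = j)).card : ℝ)
      ≤ (2 * (J' : ℝ) * (J' + 1) / n) * (n.factorial : ℝ) := by
    intro J'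
    induction J' with
    | zero =>
      intro _
      have : univ.filter (fun y : Equiv.Perm α =>
          ¬ ∀ i < 0 + 1, ∀ j < 0 + 1, path θ z y i = path θ z y j → i = j) = ∅ := by
        apply filter_false_of_mem
        intro y _
        rw [not_not]
        intro i hi j hj _
        omega
      rw [this]
      simp
    | succ J' ih =>
      intro hJ'
      have ih' := ih (by omega)
      have hsub : univ.filter (fun y : Equiv.Perm α =>
          ¬ ∀ i < J' + 1 + 1, ∀ j < J' + 1 + 1, path θ z y i = path θ z y j → i = j)
          ⊆ univ.filter (fun y : Equiv.Perm α =>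
            ¬ ∀ i < J' + 1, ∀ j < J' + 1, path θ z y i = path θ z y j → i = j) ∪
            (range (J' + 1)).biUnion (fun i => univ.filter (fun y : Equiv.Perm α =>
              (∀ i' < J' + 1, ∀ j' < J' + 1, path θ z y i' = path θ z y j' → i' = j') ∧
              path θ z y (J' + 1) = path θ z y i)) := by
        intro y hy
        rw [mem_filter] at hy
        rw [mem_union]
        by_cases hc : ∀ i < J' + 1, ∀ j < J' + 1, path θ z y i = path θ z y j → i = j
        · right
          rw [mem_biUnion]
          by_contra hcon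
          push Not at hcon
          apply hy.2
          intro i hi j hj hij
          rcases Nat.lt_succ_iff_lt_or_eq.mp hi with hi' | hi'
          · rcases Nat.lt_succ_iff_lt_or_eq.mp hj with hj' | hj'
            · exact hc i hi' j hj' hij
            · exfalso
              apply hcon i (mem_range.mpr hi')
              rw [mem_filter]
              refine ⟨mem_univ _, hc, ?_⟩
              rw [← hj', hij]
          · rcases Nat.lt_succ_iff_lt_or_eq.mp hj with hj' | hj'
            · exfalso
              apply hcon j (mem_range.mpr hj')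
              rw [mem_filter]
              refine ⟨mem_univ _, hc, ?_⟩
              rw [← hi', hij]
            · omega
        · left
          rw [mem_filter]
          exact ⟨mem_univ _, hc⟩
      have h1 : ((univ.filter (fun y : Equiv.Perm α =>
          ¬ ∀ i < J' + 1 + 1, ∀ j < J' + 1 + 1, path θ z y i = path θ z y j → i = j)).card : ℝ)
          ≤ (2 * (J' : ℝ) * (J' + 1) / n) * (n.factorial : ℝ)
            + (J' + 1) * (((n - (J' + 1)).factorial * n ^ J' : ℕ) : ℝ) := by
        have h2 := card_le_card hsub
        have h3 := h2.trans (card_union_le _ _)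
        have h4 : ((range (J' + 1)).biUnion (fun i => univ.filter (fun y : Equiv.Perm α =>
              (∀ i' < J' + 1, ∀ j' < J' + 1, path θ z y i' = path θ z y j' → i' = j') ∧
              path θ z y (J' + 1) = path θ z y i))).card
            ≤ (J' + 1) * ((n - (J' + 1)).factorial * n ^ J') := by
          refine card_biUnion_le.trans ?_
          refine (sum_le_card_nsmul _ _ ((n - (J' + 1)).factorial * n ^ J') ?_).trans ?_
          · intro i hi
            exact card_coll_le θ z i J' (by rw [mem_range] at hi; omega)
          · rw [card_range, smul_eq_mul]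
        have h5 := h3.trans (Nat.add_le_add_left h4 _)
        have h6 : ((univ.filter (fun y : Equiv.Perm α =>
          ¬ ∀ i < J' + 1 + 1, ∀ j < J' + 1 + 1, path θ z y i = path θ z y j → i = j)).card : ℝ)
          ≤ ((univ.filter (fun y : Equiv.Perm α =>
            ¬ ∀ i < J' + 1, ∀ j < J' + 1, path θ z y i = path θ z y j → i = j)).card : ℝ)
            + (J' + 1) * (((n - (J' + 1)).factorial * n ^ J' : ℕ) : ℝ) := by
          have := (Nat.cast_le (α := ℝ)).mpr h5
          push_cast at this ⊢
          linarith
        linarith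
      have h7 : (n : ℝ) * (((n - (J' + 1)).factorial * n ^ J' : ℕ) : ℝ) ≤ 2 * n.factorial := by
        have := pow_mul_factorial_le (n := n) (J := J' + 1) (by nlinarith)
        push_cast
        calc (n : ℝ) * (((n - (J' + 1)).factorial : ℝ) * n ^ J')
            = (n : ℝ) ^ (J' + 1) * ((n - (J' + 1)).factorial : ℝ) := by ring
          _ ≤ _ := this
      have h8 : (((n - (J' + 1)).factorial * n ^ J' : ℕ) : ℝ) ≤ 2 * n.factorial / n := by
        rw [le_div_iff₀ hn0]
        linarith
      refine h1.trans ?_
      have h9 : ((J' : ℝ) + 1) * (((n - (J' + 1)).factorial * n ^ J' : ℕ) : ℝ)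
          ≤ (J' + 1) * (2 * n.factorial / n) :=
        mul_le_mul_of_nonneg_left h8 (by positivity)
      have h10 : (2 * (J' : ℝ) * (J' + 1) / n) * (n.factorial : ℝ)
            + (J' + 1) * (2 * n.factorial / n)
          ≤ (2 * ((J' + 1 : ℕ) : ℝ) * (((J' + 1 : ℕ) : ℝ) + 1) / n) * (n.factorial : ℝ) := by
        push_cast
        rw [div_mul_eq_mul_div, div_mul_eq_mul_div, ← mul_div_assoc, ← add_div,
          div_le_div_iff_of_pos_right hn0]
        have : (0 : ℝ) ≤ (n.factorial : ℝ) := by positivity
        have h11 : (0 : ℝ) ≤ (J' : ℝ) := by positivity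
        nlinarith [mul_nonneg h11 this]
      linarith
  exact key J le_rfl

end

end Pool.MP99279c.AA
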