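import Pool.Agent.Work.MP_99279c_al.AA.Level

/-!
# Assembly: short words which are laws for almost all pairs of permutations
-/

set_option autoImplicit false
set_option linter.unusedSectionVars false

namespace Pool.MP99279c.AA

open Finset Function FreeGroup Pool.MP99279c

theorem exists_two_pow (x : ℕ) (hx : 1 ≤ x) : ∃ m : ℕ, x ≤ 2 ^ m ∧ 2 ^ m ≤ 2 * x := by
  refine ⟨Nat.log 2 x + 1, (Nat.lt_pow_succ_log_self (by norm_num) x).le, ?_⟩
  rw [pow_succ]
  have := Nat.pow_log_le_self 2 (x := x) (by omega)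
  omega

/-- `λ = log₂ n + 1` -/
def lam (n : ℕ) : ℕ := Nat.log 2 n + 1

theorem lt_two_pow_lam (n : ℕ) : n < 2 ^ lam n := Nat.lt_pow_succ_log_self (by norm_num) n

theorem cube_le (k : ℕ) : (k + 1) ^ 3 ≤ 8 * 2 ^ k := by
  rcases Nat.lt_or_ge k 6 with h | h
  · interval_cases k <;> norm_num
  · induction k, h using Nat.le_induction with
    | base => norm_num
    | succ k hk ih =>
      have h1 : (k + 1 + 1) ^ 3 ≤ 2 * (k + 1) ^ 3 := by
        nlinarith [Nat.mul_le_mul hk hk, Nat.mul_le_mul hk (Nat.mul_le_mul hk hk)]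
      calc (k + 1 + 1) ^ 3 ≤ 2 * (k + 1) ^ 3 := h1
        _ ≤ 2 * (8 * 2 ^ k) := Nat.mul_le_mul_left _ ih
        _ = 8 * 2 ^ (k + 1) := by ring

theorem lam_cube_le (n : ℕ) (hn : 1 ≤ n) : lam n ^ 3 ≤ 8 * n := by
  unfold lam
  exact (cube_le _).trans (Nat.mul_le_mul_left _ (Nat.pow_log_le_self 2 (by omega)))

theorem lam_le (n : ℕ) (hn : 1 ≤ n) : lam n ≤ n := by
  have := Nat.log_lt_self 2 (x := n) (by omega)
  unfold lam
  omega

/-- a word in the kernel of all the homomorphisms killing one of the `p a` -/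
theorem lift_eq_one {n : ℕ} (f : F2 →* Equiv.Perm (Fin n)) {q v : F2}
    (hq : q ∈ Subgroup.normalClosure {v}) (hv : f v = 1) : f q = 1 := by
  have h1 : Subgroup.normalClosure {v} ≤ f.ker := by
    apply Subgroup.normalClosure_le_normal
    rw [Set.singleton_subset_iff]
    exact hv
  exact h1 hq

open Classical in
/-- the combination of the words of all levels -/
theorem combine {n : ℕ} (hn : 1 ≤ n) (x0 : Fin n) (K l0 l1 a M d D m : ℕ) (hK : 0 < K)
    (hl0 : 0 < l0) (hl1 : 0 < l1)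
    (hfrac : ((l0 * a + M * l1 : ℕ) : ℝ) ≤ (1 / 128) * ((l1 * l0 : ℕ) : ℝ))
    (hD : D < n) (hJ : 2 * l1 * l1 ≤ n) (ha : a < l1) (hm : (D + 1) * K ≤ 2 ^ m) :
    ∃ q : F2, q ≠ 1 ∧
      q.norm + 6 ≤ 4 ^ m * (4 ^ d * (n * K + 2 * (l1 + l0 * K) + 6) + 6) ∧
      ((univ.filter (fun p : Equiv.Perm (Fin n) × Equiv.Perm (Fin n) =>
        FreeGroup.lift ![p.1, p.2] q ≠ 1)).card : ℝ)
        ≤ ((univ.filter (fun p : Equiv.Perm (Fin n) × Equiv.Perm (Fin n) =>
            ∀ i < K, (cyc (p.1 * p.2 ^ i) x0).card < n - D)).card : ℝ)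
          + ((l1 : ℝ) / (M + 1) + K * ((n : ℝ) * (2 ^ l1 * (2 * ((D : ℝ) / n) ^ (a + 1)))
            + (l0 : ℝ) * l1 / n + n / 48 * (3 / 8 : ℝ) ^ (2 ^ d))) * (n.factorial : ℝ) ^ 2 := by
  have hnR : (0 : ℝ) < n := by exact_mod_cast hn
  have hcard : Fintype.card (Fin n) = n := Fintype.card_fin n
  -- choose the words
  have hw : ∀ i : ℕ, ∃ w : Fin n → F2, i < K → ((∀ j, w j ≠ 1) ∧
      (∀ j, (w j).norm + 6 ≤ 4 ^ d * (n * K + 2 * (l1 + l0 * K) + 6)) ∧
      ((univ.filter (fun p : Equiv.Perm (Fin n) × Equiv.Perm (Fin n) =>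
        GoodP x0 l0 l1 a M i p ∧ FreeGroup.lift ![p.1, p.2] (w (jdx x0 i p)) ≠ 1)).card : ℝ)
        ≤ (n / 48 * (3 / 8 : ℝ) ^ (2 ^ d)) * (n.factorial : ℝ) ^ 2) := by
    intro i
    by_cases hi : i < K
    · obtain ⟨w, h1, h2, h3⟩ := words_level x0 K i l0 l1 a M d hi hl0 hl1 hfrac
      exact ⟨w, fun _ => ⟨h1, h2, h3⟩⟩
    · exact ⟨fun _ => 1, fun h => absurd h hi⟩
  choose w hw using hw
  have hmodK : ∀ b : ℕ, b % K < K := fun b => Nat.mod_lt b hK
  set pw : ℕ → F2 := fun b => w (b % K) ⟨min (n - D - 1 + b / K) (n - 1), by omega⟩ with hpw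
  obtain ⟨q, hq1, hq2, hq3⟩ := balanced pw (4 ^ d * (n * K + 2 * (l1 + l0 * K) + 6)) m 0
    (fun b _ _ => (hw (b % K) (hmodK b)).1 _)
    (fun b _ _ => by
      have := (hw (b % K) (hmodK b)).2.1 ⟨min (n - D - 1 + b / K) (n - 1), by omega⟩
      rw [hpw]
      simp only
      omega)
  refine ⟨q, hq1, hq3, ?_⟩
  -- the exceptional sets
  set S0 := univ.filter (fun p : Equiv.Perm (Fin n) × Equiv.Perm (Fin n) =>
            ∀ i < K, (cyc (p.1 * p.2 ^ i) x0).card < n - D) with hS0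
  set S1 := univ.filter (fun p : Equiv.Perm (Fin n) × Equiv.Perm (Fin n) =>
            M < (shortE p.2 l1).card) with hS1
  set S2 := fun i : ℕ => univ.filter (fun p : Equiv.Perm (Fin n) × Equiv.Perm (Fin n) =>
            n - D ≤ (cyc (p.1 * p.2 ^ i) x0).card ∧ ∃ x, l1 ≤ (cyc p.2 x).card ∧
            a < ((range l1).filter (fun k => (p.2 ^ (k + 1)) x ∈
              (cyc (p.1 * p.2 ^ i) x0)ᶜ)).card) with hS2
  set S3 := fun i : ℕ => univ.filter (fun p : Equiv.Perm (Fin n) × Equiv.Perm (Fin n) =>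
            ∃ x, (cyc (p.1 * p.2 ^ i) x).card < l0 ∧ (cyc p.2 x).card < l1) with hS3
  set S4 := fun i : ℕ => univ.filter (fun p : Equiv.Perm (Fin n) × Equiv.Perm (Fin n) =>
        GoodP x0 l0 l1 a M i p ∧ FreeGroup.lift ![p.1, p.2] (w i (jdx x0 i p)) ≠ 1) with hS4
  have hsub : univ.filter (fun p : Equiv.Perm (Fin n) × Equiv.Perm (Fin n) =>
      FreeGroup.lift ![p.1, p.2] q ≠ 1)
      ⊆ S0 ∪ (S1 ∪ (range K).biUnion (fun i => S2 i ∪ (S3 i ∪ S4 i))) := by
    intro p hp
    rw [mem_filter] at hp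
    by_contra hc
    rw [mem_union, mem_union, mem_biUnion] at hc
    push Not at hc
    obtain ⟨hc0, hc1, hc2⟩ := hc
    rw [hS0, mem_filter] at hc0
    push Not at hc0
    obtain ⟨i, hi, hgi⟩ := hc0 (mem_univ _)
    have hc3 := hc2 i (mem_range.mpr hi)
    rw [mem_union, mem_union] at hc3
    push Not at hc3
    obtain ⟨h2, h3, h4⟩ := hc3
    have hgood : GoodP x0 l0 l1 a M i p := by
      refine ⟨?_, ?_, ?_⟩
      · rw [hS1, mem_filter] at hc1
        push Not at hc1
        exact hc1 (mem_univ _)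
      · rw [hS2] at h2
        simp only [mem_filter, mem_univ, true_and] at h2
        push Not at h2
        exact h2 hgi
      · rw [hS3] at h3
        simp only [mem_filter, mem_univ, true_and] at h3
        intro x hx
        exact h3 ⟨x, hx⟩
    have hone : FreeGroup.lift ![p.1, p.2] (w i (jdx x0 i p)) = 1 := by
      rw [hS4] at h4
      simp only [mem_filter, mem_univ, true_and] at h4
      by_contra hne
      exact h4 ⟨hgood, hne⟩
    apply hp.2
    -- the index of the leaf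
    set j := jdx x0 i p with hj
    have hjval : (j : ℕ) = (cyc (p.1 * p.2 ^ i) x0).card - 1 := rfl
    have hjlo : n - D - 1 ≤ (j : ℕ) := by omega
    have hjhi : (j : ℕ) < n := j.2
    obtain ⟨t, ht⟩ : ∃ t, (j : ℕ) = n - D - 1 + t := ⟨(j : ℕ) - (n - D - 1), by omega⟩
    have htD : t + 1 ≤ D + 1 := by omega
    have hb1 : t * K + i < 0 + 2 ^ m := by
      have : t * K + i < (D + 1) * K := by
        have h6 := Nat.mul_le_mul_right K htD
        have h7 : (t + 1) * K = t * K + K := by ring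
        omega
      omega
    have hqa := hq2 (t * K + i) (Nat.zero_le _) hb1
    apply lift_eq_one _ hqa
    have e1 : (t * K + i) % K = i := by
      rw [Nat.add_comm, Nat.add_mul_mod_self_right, Nat.mod_eq_of_lt hi]
    have e2 : (t * K + i) / K = t := by
      rw [Nat.add_comm, Nat.add_mul_div_right _ _ hK, Nat.div_eq_of_lt hi, zero_add]
    have e3 : pw (t * K + i) = w i j := by
      rw [hpw]
      simp only [e1]
      congr 1
      apply Fin.ext
      simp only [e2]
      omega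
    rw [e3]
    exact hone
  have hcardU : ((univ.filter (fun p : Equiv.Perm (Fin n) × Equiv.Perm (Fin n) =>
      FreeGroup.lift ![p.1, p.2] q ≠ 1)).card : ℝ)
      ≤ (S0.card : ℝ) + ((S1.card : ℝ)
        + ∑ i ∈ range K, (((S2 i).card : ℝ) + (((S3 i).card : ℝ) + ((S4 i).card : ℝ)))) := by
    have h1 := card_le_card hsub
    have h2 : (S0 ∪ (S1 ∪ (range K).biUnion (fun i => S2 i ∪ (S3 i ∪ S4 i)))).card
        ≤ S0.card + (S1.card + ∑ i ∈ range K, ((S2 i).card + ((S3 i).card + (S4 i).card))) := by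
      refine (card_union_le _ _).trans (Nat.add_le_add_left ?_ _)
      refine (card_union_le _ _).trans (Nat.add_le_add_left ?_ _)
      refine card_biUnion_le.trans (sum_le_sum fun i _ => ?_)
      exact (card_union_le _ _).trans (Nat.add_le_add_left (card_union_le _ _) _)
    exact_mod_cast h1.trans h2
  have hfpos : (0 : ℝ) ≤ (n.factorial : ℝ) := by positivity
  -- S1
  have b1 : (S1.card : ℝ) ≤ ((l1 : ℝ) / (M + 1)) * (n.factorial : ℝ) ^ 2 := by
    rw [hS1, card_prod_filter]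
    have h1 : ∀ s ∈ (univ : Finset (Equiv.Perm (Fin n))),
        ((univ.filter (fun y : Equiv.Perm (Fin n) => M < (shortE (s, y).2 l1).card)).card : ℝ)
        ≤ ((l1 : ℝ) / (M + 1)) * (n.factorial : ℝ) := by
      intro s _
      simp only
      have h2 := card_G0 (α := Fin n) l1 M (by rw [hcard]; exact hn)
      rw [hcard] at h2
      rw [div_mul_eq_mul_div, le_div_iff₀ (by positivity)]
      exact h2
    refine (sum_le_sum h1).trans ?_
    rw [sum_const, card_univ, Fintype.card_perm, hcard, nsmul_eq_mul]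
    apply le_of_eq
    ring
  -- S2
  have b2 : ∀ i ∈ range K, ((S2 i).card : ℝ)
      ≤ ((n : ℝ) * (2 ^ l1 * (2 * ((D : ℝ) / n) ^ (a + 1)))) * (n.factorial : ℝ) ^ 2 := by
    intro i _
    have h1 : (S2 i).card = (univ.filter (fun p : Equiv.Perm (Fin n) × Equiv.Perm (Fin n) =>
            n - D ≤ (cyc p.1 x0).card ∧ ∃ x, l1 ≤ (cyc p.2 x).card ∧
            a < ((range l1).filter (fun k => (p.2 ^ (k + 1)) x ∈ (cyc p.1 x0)ᶜ)).card)).card := by
      apply Finset.card_equiv (shiftEquiv i)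
      intro p
      simp [shiftEquiv, hS2]
    rw [h1, card_prod_filter]
    have h2 : ∀ s ∈ (univ : Finset (Equiv.Perm (Fin n))),
        ((univ.filter (fun y : Equiv.Perm (Fin n) => n - D ≤ (cyc (s, y).1 x0).card ∧
          ∃ x, l1 ≤ (cyc (s, y).2 x).card ∧
            a < ((range l1).filter (fun k => ((s, y).2 ^ (k + 1)) x ∈
              (cyc (s, y).1 x0)ᶜ)).card)).card : ℝ)
        ≤ ((n : ℝ) * (2 ^ l1 * (2 * ((D : ℝ) / n) ^ (a + 1)))) * (n.factorial : ℝ) := by
      intro s _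
      simp only
      by_cases hs : n - D ≤ (cyc s x0).card
      · simp only [hs, true_and]
        have h3 := card_G1 (cyc s x0)ᶜ D l1 a (by rw [card_compl, hcard]; omega)
          (by rw [hcard]; exact hJ) ha (by rw [hcard]; exact hn)
        rw [hcard] at h3
        have e0 : ((n : ℝ) * (2 ^ l1 * (2 * ((D : ℝ) / n) ^ (a + 1)))) * (n.factorial : ℝ)
            = (n : ℝ) * (2 ^ l1 * (2 * (((D : ℝ) / n) ^ (a + 1) * (n.factorial : ℝ)))) := by ring
        rw [e0]
        convert h3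
      · simp only [hs, false_and, filter_false, card_empty, Nat.cast_zero]
        positivity
    refine (sum_le_sum h2).trans ?_
    rw [sum_const, card_univ, Fintype.card_perm, hcard, nsmul_eq_mul]
    apply le_of_eq
    ring
  -- S3
  have b3 : ∀ i ∈ range K, ((S3 i).card : ℝ) ≤ ((l0 : ℝ) * l1 / n) * (n.factorial : ℝ) ^ 2 := by
    intro i _
    have h1 : (S3 i).card = (univ.filter (fun p : Equiv.Perm (Fin n) × Equiv.Perm (Fin n) =>
            ∃ x, (cyc p.1 x).card < l0 ∧ (cyc p.2 x).card < l1)).card := by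
      apply Finset.card_equiv (shiftEquiv i)
      intro p
      simp [shiftEquiv, hS3]
    rw [h1]
    have h2 := card_G3 (α := Fin n) l0 l1 (by rw [hcard]; exact hn)
    rw [hcard] at h2
    convert h2
  -- S4
  have b4 : ∀ i ∈ range K, ((S4 i).card : ℝ)
      ≤ (n / 48 * (3 / 8 : ℝ) ^ (2 ^ d)) * (n.factorial : ℝ) ^ 2 := by
    intro i hi
    exact (hw i (mem_range.mp hi)).2.2
  have b5 : ∑ i ∈ range K, (((S2 i).card : ℝ) + (((S3 i).card : ℝ) + ((S4 i).card : ℝ)))
      ≤ K * (((n : ℝ) * (2 ^ l1 * (2 * ((D : ℝ) / n) ^ (a + 1)))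
            + (l0 : ℝ) * l1 / n + n / 48 * (3 / 8 : ℝ) ^ (2 ^ d)) * (n.factorial : ℝ) ^ 2) := by
    refine (sum_le_sum (fun i hi => add_le_add (b2 i hi)
      (add_le_add (b3 i hi) (b4 i hi)))).trans ?_
    rw [sum_const, card_range, nsmul_eq_mul]
    apply le_of_eq
    ring
  refine hcardU.trans ?_
  rw [add_mul]
  nlinarith [b1, b5]

end Pool.MP99279c.AA
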