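import Pool.Agent.Work.MP_99279c_al.AA.Pair2

/-!
# Good pairs: short random conjugators spread the complement of the giant cycle
-/

set_option autoImplicit false
set_option linter.unusedSectionVars false

namespace Pool.MP99279c.AA

open Finset Function

section

variable {α : Type} [Fintype α] [DecidableEq α]

theorem path_one (t : Equiv.Perm α) (x : α) (j : ℕ) : path (fun _ => 1) x t j = (t ^ j) x := by
  induction j with
  | zero => simp [path]
  | succ j ih => rw [path, ih, Equiv.Perm.one_apply, pow_succ', Equiv.Perm.mul_apply]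

/-- the number of points in short cycles -/
noncomputable def shortE (t : Equiv.Perm α) (l1 : ℕ) : Finset α :=
  univ.filter (fun x => (cyc t x).card < l1)

theorem card_G0 (l1 M : ℕ) (hn : 0 < Fintype.card α) :
    ((univ.filter (fun t : Equiv.Perm α => M < (shortE t l1).card)).card : ℝ) * (M + 1)
      ≤ l1 * ((Fintype.card α).factorial : ℝ) := by
  classical
  calc ((univ.filter (fun t : Equiv.Perm α => M < (shortE t l1).card)).card : ℝ) * (M + 1)
      = ∑ t ∈ univ.filter (fun t : Equiv.Perm α => M < (shortE t l1).card), ((M : ℝ) + 1) := by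
        rw [sum_const, nsmul_eq_mul]
    _ ≤ ∑ t ∈ univ.filter (fun t : Equiv.Perm α => M < (shortE t l1).card),
          ((shortE t l1).card : ℝ) := by
        apply sum_le_sum
        intro t ht
        rw [mem_filter] at ht
        have : M + 1 ≤ (shortE t l1).card := ht.2
        exact_mod_cast this
    _ ≤ ∑ t : Equiv.Perm α, ((shortE t l1).card : ℝ) := by
        apply sum_le_univ_sum_of_nonneg
        intro t
        positivity
    _ = ∑ x : α, ((univ.filter (fun t : Equiv.Perm α => (cyc t x).card < l1)).card : ℝ) := by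
        unfold shortE
        simp only [card_filter]
        push_cast
        rw [sum_comm]
    _ ≤ ∑ x : α, (l1 : ℝ) * ((Fintype.card α - 1).factorial : ℝ) := by
        apply sum_le_sum
        intro x _
        have h1 := card_cyc_le x l1
        have h2 : (univ.filter (fun t : Equiv.Perm α => (cyc t x).card < l1)).card
            ≤ (univ.filter (fun t : Equiv.Perm α => (cyc t x).card ≤ l1)).card := by
          apply card_le_card
          intro t ht
          rw [mem_filter] at ht ⊢
          exact ⟨ht.1, ht.2.le⟩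
        exact_mod_cast h2.trans h1
    _ = _ := by
        rw [sum_const, card_univ, nsmul_eq_mul, factorial_eq hn]
        ring

theorem card_G1 (A : Finset α) (D l1 a : ℕ) (hA : A.card ≤ D) (hl1 : 2 * l1 * l1 ≤ Fintype.card α)
    (ha : a < l1) (hn : 0 < Fintype.card α) :
    ((univ.filter (fun t : Equiv.Perm α => ∃ x : α, l1 ≤ (cyc t x).card ∧
      a < ((range l1).filter (fun k => (t ^ (k + 1)) x ∈ A)).card)).card : ℝ)
      ≤ (Fintype.card α : ℝ) * (2 ^ l1 * (2 * (((D : ℝ) / Fintype.card α) ^ (a + 1)
        * ((Fintype.card α).factorial : ℝ)))) := by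
  classical
  set n := Fintype.card α with hnd
  have hnR : (0 : ℝ) < n := by exact_mod_cast hn
  have hsub : univ.filter (fun t : Equiv.Perm α => ∃ x : α, l1 ≤ (cyc t x).card ∧
      a < ((range l1).filter (fun k => (t ^ (k + 1)) x ∈ A)).card)
      ⊆ (univ : Finset α).biUnion (fun x => (powersetCard (a + 1) (range l1)).biUnion (fun P =>
        univ.filter (fun t : Equiv.Perm α =>
          (∀ i < l1, ∀ j < l1, path (fun _ => 1) x t i = path (fun _ => 1) x t j → i = j) ∧
          ∀ j < l1, t (path (fun _ => 1) x t j) ∈ (if j ∈ P then A else univ)))) := by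
    intro t ht
    rw [mem_filter] at ht
    obtain ⟨_, x, hx1, hx2⟩ := ht
    obtain ⟨P, hP1, hP2⟩ := exists_subset_card_eq (show a + 1 ≤ _ from hx2)
    rw [mem_biUnion]
    refine ⟨x, mem_univ _, ?_⟩
    rw [mem_biUnion]
    refine ⟨P, ?_, ?_⟩
    · rw [mem_powersetCard]
      exact ⟨hP1.trans (filter_subset _ _), hP2⟩
    · rw [mem_filter]
      refine ⟨mem_univ _, ?_, ?_⟩
      · intro i hi j hj hij
        rw [path_one, path_one] at hij
        exact pow_inj_of_lt_card (lt_of_lt_of_le hi hx1) (lt_of_lt_of_le hj hx1) hij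
      · intro j hj
        by_cases hjP : j ∈ P
        · rw [if_pos hjP, path_one]
          have := hP1 hjP
          rw [mem_filter, pow_succ', Equiv.Perm.mul_apply] at this
          exact this.2
        · rw [if_neg hjP]
          exact mem_univ _
  have h1 := (card_le_card hsub).trans card_biUnion_le
  have h2 : ∀ x ∈ (univ : Finset α), (((powersetCard (a + 1) (range l1)).biUnion (fun P =>
        univ.filter (fun t : Equiv.Perm α =>
          (∀ i < l1, ∀ j < l1, path (fun _ => 1) x t i = path (fun _ => 1) x t j → i = j) ∧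
          ∀ j < l1, t (path (fun _ => 1) x t j) ∈ (if j ∈ P then A else univ)))).card : ℝ)
        ≤ 2 ^ l1 * (2 * (((D : ℝ) / n) ^ (a + 1) * (n.factorial : ℝ))) := by
    intro x _
    have h3 : ∀ P ∈ powersetCard (a + 1) (range l1), ((univ.filter (fun t : Equiv.Perm α =>
          (∀ i < l1, ∀ j < l1, path (fun _ => 1) x t i = path (fun _ => 1) x t j → i = j) ∧
          ∀ j < l1, t (path (fun _ => 1) x t j) ∈ (if j ∈ P then A else univ))).card : ℝ)
          ≤ 2 * (((D : ℝ) / n) ^ (a + 1) * (n.factorial : ℝ)) := by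
      intro P hP
      rw [mem_powersetCard] at hP
      have h4 := card_path_le (fun _ => (1 : Equiv.Perm α)) x l1 (fun j => if j ∈ P then A else univ)
      have h5 : ∏ j ∈ range l1, (if j ∈ P then A else univ).card = A.card ^ (a + 1) * n ^ (l1 - (a + 1)) := by
        have e1 : ∀ j, (if j ∈ P then A else univ).card = if j ∈ P then A.card else n := by
          intro j
          by_cases hj : j ∈ P <;> simp [hj, hnd]
        simp only [e1]
        rw [prod_ite, prod_const, prod_const]
        have e2 : (range l1).filter (fun j => j ∈ P) = P := by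
          ext j
          rw [mem_filter]
          exact ⟨fun h => h.2, fun h => ⟨hP.1 h, h⟩⟩
        have e3 : ((range l1).filter (fun j => ¬ j ∈ P)).card = l1 - (a + 1) := by
          have := card_filter_add_card_filter_not (s := range l1) (fun j => j ∈ P)
          rw [e2, hP.2, card_range] at this
          omega
        rw [e2, hP.2, e3]
      rw [h5] at h4
      have h6 : ((univ.filter (fun t : Equiv.Perm α =>
          (∀ i < l1, ∀ j < l1, path (fun _ => 1) x t i = path (fun _ => 1) x t j → i = j) ∧
          ∀ j < l1, t (path (fun _ => 1) x t j) ∈ (if j ∈ P then A else univ))).card : ℝ)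
          ≤ ((n - l1).factorial : ℝ) * ((A.card : ℝ) ^ (a + 1) * (n : ℝ) ^ (l1 - (a + 1))) := by
        exact_mod_cast h4
      refine h6.trans ?_
      have h7 := pow_mul_factorial_le (n := n) (J := l1) hl1
      have h8 : (n : ℝ) ^ l1 = (n : ℝ) ^ (a + 1) * (n : ℝ) ^ (l1 - (a + 1)) := by
        rw [← pow_add]
        congr 1
        omega
      have h9 : (A.card : ℝ) ^ (a + 1) ≤ (D : ℝ) ^ (a + 1) := by
        apply pow_le_pow_left₀ (by positivity)
        exact_mod_cast hA
      have h10 : ((n - l1).factorial : ℝ) * ((A.card : ℝ) ^ (a + 1) * (n : ℝ) ^ (l1 - (a + 1)))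
          ≤ ((n - l1).factorial : ℝ) * ((D : ℝ) ^ (a + 1) * (n : ℝ) ^ (l1 - (a + 1))) := by
        apply mul_le_mul_of_nonneg_left _ (by positivity)
        exact mul_le_mul_of_nonneg_right h9 (by positivity)
      refine h10.trans ?_
      have h11 : ((n - l1).factorial : ℝ) * ((D : ℝ) ^ (a + 1) * (n : ℝ) ^ (l1 - (a + 1)))
          = ((D : ℝ) / n) ^ (a + 1) * ((n : ℝ) ^ l1 * ((n - l1).factorial : ℝ)) := by
        rw [h8, div_pow]
        field_simp
      rw [h11]
      have h12 : (0 : ℝ) ≤ ((D : ℝ) / n) ^ (a + 1) := by positivity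
      have h13 := mul_le_mul_of_nonneg_left h7 h12
      linarith
    have h14 : (((powersetCard (a + 1) (range l1)).biUnion (fun P =>
        univ.filter (fun t : Equiv.Perm α =>
          (∀ i < l1, ∀ j < l1, path (fun _ => 1) x t i = path (fun _ => 1) x t j → i = j) ∧
          ∀ j < l1, t (path (fun _ => 1) x t j) ∈ (if j ∈ P then A else univ)))).card : ℝ)
        ≤ ∑ P ∈ powersetCard (a + 1) (range l1), ((univ.filter (fun t : Equiv.Perm α =>
          (∀ i < l1, ∀ j < l1, path (fun _ => 1) x t i = path (fun _ => 1) x t j → i = j) ∧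
          ∀ j < l1, t (path (fun _ => 1) x t j) ∈ (if j ∈ P then A else univ))).card : ℝ) := by
      exact_mod_cast card_biUnion_le
    refine h14.trans ((sum_le_sum h3).trans ?_)
    rw [sum_const, card_powersetCard, card_range, nsmul_eq_mul]
    apply mul_le_mul_of_nonneg_right _ (by positivity)
    have : l1.choose (a + 1) ≤ 2 ^ l1 := Nat.choose_le_two_pow l1 (a + 1)
    exact_mod_cast this
  have h3 : ((univ.filter (fun t : Equiv.Perm α => ∃ x : α, l1 ≤ (cyc t x).card ∧
      a < ((range l1).filter (fun k => (t ^ (k + 1)) x ∈ A)).card)).card : ℝ)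
      ≤ ∑ x : α, (((powersetCard (a + 1) (range l1)).biUnion (fun P =>
        univ.filter (fun t : Equiv.Perm α =>
          (∀ i < l1, ∀ j < l1, path (fun _ => 1) x t i = path (fun _ => 1) x t j → i = j) ∧
          ∀ j < l1, t (path (fun _ => 1) x t j) ∈ (if j ∈ P then A else univ)))).card : ℝ) := by
    exact_mod_cast h1
  refine h3.trans ((sum_le_sum h2).trans ?_)
  rw [sum_const, card_univ, nsmul_eq_mul]

theorem card_G3 (l0 l1 : ℕ) (hn : 0 < Fintype.card α) :
    ((univ.filter (fun p : Equiv.Perm α × Equiv.Perm α => ∃ x : α, (cyc p.1 x).card < l0 ∧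
      (cyc p.2 x).card < l1)).card : ℝ)
      ≤ ((l0 : ℝ) * l1 / Fintype.card α) * ((Fintype.card α).factorial : ℝ) ^ 2 := by
  classical
  set n := Fintype.card α with hnd
  have hnR : (0 : ℝ) < n := by exact_mod_cast hn
  have h1 : ∀ (x : α) (l : ℕ), (univ.filter (fun t : Equiv.Perm α => (cyc t x).card < l)).card
      ≤ l * (n - 1).factorial := by
    intro x l
    refine le_trans (card_le_card ?_) (card_cyc_le x l)
    intro t ht
    rw [mem_filter] at ht ⊢
    exact ⟨ht.1, ht.2.le⟩
  have hsub : univ.filter (fun p : Equiv.Perm α × Equiv.Perm α => ∃ x : α, (cyc p.1 x).card < l0 ∧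
      (cyc p.2 x).card < l1) ⊆ (univ : Finset α).biUnion (fun x =>
        (univ.filter (fun t : Equiv.Perm α => (cyc t x).card < l0)) ×ˢ
        (univ.filter (fun t : Equiv.Perm α => (cyc t x).card < l1))) := by
    intro p hp
    rw [mem_filter] at hp
    obtain ⟨_, x, hx⟩ := hp
    rw [mem_biUnion]
    refine ⟨x, mem_univ _, ?_⟩
    rw [mem_product, mem_filter, mem_filter]
    exact ⟨⟨mem_univ _, hx.1⟩, mem_univ _, hx.2⟩
  have h2 := (card_le_card hsub).trans card_biUnion_le
  have h3 : ∑ x : α, ((univ.filter (fun t : Equiv.Perm α => (cyc t x).card < l0)) ×ˢ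
        (univ.filter (fun t : Equiv.Perm α => (cyc t x).card < l1))).card
      ≤ n * ((l0 * (n - 1).factorial) * (l1 * (n - 1).factorial)) := by
    refine (sum_le_card_nsmul _ _ ((l0 * (n - 1).factorial) * (l1 * (n - 1).factorial)) ?_).trans ?_
    · intro x _
      rw [card_product]
      exact Nat.mul_le_mul (h1 x l0) (h1 x l1)
    · rw [card_univ, smul_eq_mul]
  have h4 : ((univ.filter (fun p : Equiv.Perm α × Equiv.Perm α => ∃ x : α, (cyc p.1 x).card < l0 ∧
      (cyc p.2 x).card < l1)).card : ℝ)
      ≤ (n : ℝ) * (((l0 : ℝ) * ((n - 1).factorial : ℝ)) * ((l1 : ℝ) * ((n - 1).factorial : ℝ))) := by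
    exact_mod_cast h2.trans h3
  refine h4.trans (le_of_eq ?_)
  rw [factorial_eq hn]
  field_simp

/-- the spreading property of good pairs -/
theorem spread (u t : Equiv.Perm α) (A : Finset α) (l0 l1 a M : ℕ)
    (hE : (shortE t l1).card ≤ M)
    (h1 : ∀ x : α, l1 ≤ (cyc t x).card → ((range l1).filter (fun k => (t ^ (k + 1)) x ∈ A)).card ≤ a)
    (h3 : ∀ x : α, ¬ ((cyc u x).card < l0 ∧ (cyc t x).card < l1)) (x : α) :
    (univ.filter (fun ω : Fin l1 × Fin l0 => (t ^ (ω.1.1 + 1)) ((u ^ ω.2.1) x) ∈ A)).card
      ≤ l0 * a + M * l1 := by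
  classical
  have e1 : (univ.filter (fun ω : Fin l1 × Fin l0 => (t ^ (ω.1.1 + 1)) ((u ^ ω.2.1) x) ∈ A)).card
      = ∑ k' : Fin l0, (univ.filter (fun k : Fin l1 =>
        (t ^ (k.1 + 1)) ((u ^ k'.1) x) ∈ A)).card := by
    rw [card_filter, Fintype.sum_prod_type_right]
    refine sum_congr rfl fun k' _ => ?_
    rw [card_filter]
  have e2 : ∀ z : α, (univ.filter (fun k : Fin l1 => (t ^ (k.1 + 1)) z ∈ A)).card
      = ((range l1).filter (fun k => (t ^ (k + 1)) z ∈ A)).card := by
    intro z
    rw [card_filter, card_filter, ← Fin.sum_univ_eq_sum_range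
      (fun k => if (t ^ (k + 1)) z ∈ A then 1 else 0) l1]
  rw [e1]
  have e3 : ∀ k' ∈ (univ : Finset (Fin l0)), (univ.filter (fun k : Fin l1 =>
        (t ^ (k.1 + 1)) ((u ^ k'.1) x) ∈ A)).card
      ≤ a + (if (u ^ k'.1) x ∈ shortE t l1 then l1 else 0) := by
    intro k' _
    by_cases hs : (u ^ k'.1) x ∈ shortE t l1
    · rw [if_pos hs]
      refine le_trans (card_le_univ _) ?_
      rw [Fintype.card_fin]
      omega
    · rw [if_neg hs, e2, add_zero]
      apply h1
      unfold shortE at hs
      rw [mem_filter] at hs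
      by_contra hc
      exact hs ⟨mem_univ _, not_le.mp hc⟩
  refine (sum_le_sum e3).trans ?_
  rw [sum_add_distrib, sum_const, card_univ, Fintype.card_fin, smul_eq_mul]
  apply Nat.add_le_add_left
  rw [← sum_filter, sum_const, smul_eq_mul]
  apply Nat.mul_le_mul_right
  by_cases hu : (cyc u x).card < l0
  · -- no point of the cycle is in `shortE`
    have : univ.filter (fun k' : Fin l0 => (u ^ k'.1) x ∈ shortE t l1) = ∅ := by
      apply filter_false_of_mem
      intro k' _ hk'
      unfold shortE at hk'
      rw [mem_filter] at hk'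
      apply h3 ((u ^ k'.1) x)
      refine ⟨?_, hk'.2⟩
      rw [cyc_eq_of_mem (mem_cyc.mpr ⟨k'.1, rfl⟩)]
      exact hu
    rw [this, card_empty]
    exact Nat.zero_le _
  · push Not at hu
    refine le_trans ?_ hE
    apply card_le_card_of_injOn (fun k' : Fin l0 => (u ^ k'.1) x)
    · intro k' hk'
      rw [mem_coe, mem_filter] at hk'
      exact hk'.2
    · intro k' _ k'' _ hkk
      simp only at hkk
      exact Fin.ext (pow_inj_of_lt_card (lt_of_lt_of_le k'.2 hu) (lt_of_lt_of_le k''.2 hu) hkk)

end

end Pool.MP99279c.AA
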