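import Pool.Agent.Work.MP_99279c_al.AA.Amp
import Pool.Agent.Work.MP_99279c_al.AA.Good
import Pool.Agent.Work.MP_99279c_al.AA.Cheb

/-!
# The words attached to `x y^i`
-/

set_option autoImplicit false
set_option linter.unusedSectionVars false

namespace Pool.MP99279c.AA

open Finset Function FreeGroup Pool.MP99279c

/-- the word `x y^i` -/
def U (i : ℕ) : F2 := FreeGroup.of 0 * (FreeGroup.of 1) ^ i

theorem norm_pow_le (w : F2) (k : ℕ) : (w ^ k).norm ≤ k * w.norm := by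
  induction k with
  | zero => simp
  | succ k ih =>
    rw [pow_succ]
    have := norm_mul_le (w ^ k) w
    have e : (k + 1) * w.norm = k * w.norm + w.norm := by ring
    omega

theorem U_norm (i : ℕ) : (U i).norm ≤ i + 1 := by
  unfold U
  have h1 := norm_mul_le (FreeGroup.of (0 : Fin 2)) ((FreeGroup.of 1) ^ i)
  have h2 := norm_pow_le (FreeGroup.of (1 : Fin 2)) i
  rw [norm_of] at h1 h2
  omega

theorem U_pow_ne_one (i j : ℕ) : (U i) ^ (j + 1) ≠ 1 := by
  intro h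
  have h1 := congrArg (FreeGroup.lift (fun k : Fin 2 => if k = 0 then Multiplicative.ofAdd (1 : ℤ)
    else 1)) h
  unfold U at h1
  simp only [_root_.map_pow, _root_.map_mul, FreeGroup.lift_apply_of, if_true, one_ne_zero, if_false, one_pow,
    mul_one, _root_.map_one] at h1
  rw [← ofAdd_nsmul, ← ofAdd_zero] at h1
  have h2 := Multiplicative.ofAdd.injective h1
  simp at h2
  omega

/-- the conjugators -/
def cw {l1 l0 : ℕ} (i : ℕ) (ω : Fin l1 × Fin l0) : F2 :=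
  (FreeGroup.of 1) ^ (ω.1.1 + 1) * (U i) ^ ω.2.1

/-- the leaves -/
def leaf {l1 l0 : ℕ} (i j : ℕ) (ω : Fin l1 × Fin l0) : F2 :=
  (cw i ω)⁻¹ * (U i) ^ (j + 1) * cw i ω

theorem leaf_ne_one {l1 l0 : ℕ} (i j : ℕ) (ω : Fin l1 × Fin l0) : leaf i j ω ≠ 1 := by
  intro h
  unfold leaf at h
  apply U_pow_ne_one i j
  have h1 : (U i) ^ (j + 1) = cw i ω * 1 * (cw i ω)⁻¹ := by
    rw [← h]; group
  rw [h1]
  group

theorem leaf_norm {l1 l0 : ℕ} (i j n K : ℕ) (hj : j < n) (hi : i < K) (ω : Fin l1 × Fin l0) :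
    (leaf i j ω).norm ≤ n * K + 2 * (l1 + l0 * K) := by
  unfold leaf
  have hU : (U i).norm ≤ K := (U_norm i).trans (by omega)
  have h1 := norm_mul_le ((cw i ω)⁻¹ * (U i) ^ (j + 1)) (cw i ω)
  have h2 := norm_mul_le (cw i ω)⁻¹ ((U i) ^ (j + 1))
  rw [norm_inv_eq] at h2
  have h3 := norm_pow_le (U i) (j + 1)
  have h4 : (cw i ω).norm ≤ l1 + l0 * K := by
    unfold cw
    have e1 := norm_mul_le ((FreeGroup.of (1 : Fin 2)) ^ (ω.1.1 + 1)) ((U i) ^ ω.2.1)
    have e2 := norm_pow_le (FreeGroup.of (1 : Fin 2)) (ω.1.1 + 1)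
    have e3 := norm_pow_le (U i) ω.2.1
    rw [norm_of, mul_one] at e2
    have e4 : ω.2.1 * (U i).norm ≤ l0 * K := Nat.mul_le_mul ω.2.2.le hU
    have e5 := ω.1.2
    omega
  have h5 : (j + 1) * (U i).norm ≤ n * K := Nat.mul_le_mul hj hU
  omega

section

variable {n : ℕ}

theorem lift_U (p : Equiv.Perm (Fin n) × Equiv.Perm (Fin n)) (i : ℕ) :
    FreeGroup.lift ![p.1, p.2] (U i) = p.1 * p.2 ^ i := by
  unfold U
  simp

/-- good pairs -/
def GoodP (x0 : Fin n) (l0 l1 a M i : ℕ) (p : Equiv.Perm (Fin n) × Equiv.Perm (Fin n)) : Prop :=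
  (shortE p.2 l1).card ≤ M ∧
  (∀ x, l1 ≤ (cyc p.2 x).card →
    ((range l1).filter (fun k => (p.2 ^ (k + 1)) x ∈ (cyc (p.1 * p.2 ^ i) x0)ᶜ)).card ≤ a) ∧
  (∀ x, ¬ ((cyc (p.1 * p.2 ^ i) x).card < l0 ∧ (cyc p.2 x).card < l1))

/-- index of the giant cycle -/
noncomputable def jdx (x0 : Fin n) (i : ℕ) (p : Equiv.Perm (Fin n) × Equiv.Perm (Fin n)) : Fin n :=
  ⟨(cyc (p.1 * p.2 ^ i) x0).card - 1, by
    have h1 : (cyc (p.1 * p.2 ^ i) x0).card ≤ n := by
      simpa using card_le_univ (cyc (p.1 * p.2 ^ i) x0)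
    have h2 := card_cyc_pos (p.1 * p.2 ^ i) x0
    omega⟩

theorem leaf_moved (x0 : Fin n) (l0 l1 a M i : ℕ)
    (hfrac : ((l0 * a + M * l1 : ℕ) : ℝ) ≤ (1 / 128) * ((l1 * l0 : ℕ) : ℝ))
    (p : Equiv.Perm (Fin n) × Equiv.Perm (Fin n)) (hp : GoodP x0 l0 l1 a M i p) (x : Fin n) :
    ((univ.filter (fun ω : Fin l1 × Fin l0 =>
      FreeGroup.lift ![p.1, p.2] (leaf i (jdx x0 i p) ω) x ≠ x)).card : ℝ)
      ≤ (1 / 128) * Fintype.card (Fin l1 × Fin l0) := by
  classical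
  obtain ⟨hE, h1, h3⟩ := hp
  set u := p.1 * p.2 ^ i with hu
  set t := p.2 with ht
  have hs := spread u t (cyc u x0)ᶜ l0 l1 a M hE h1 h3 x
  have hsub : univ.filter (fun ω : Fin l1 × Fin l0 =>
      FreeGroup.lift ![p.1, p.2] (leaf i (jdx x0 i p) ω) x ≠ x)
      ⊆ univ.filter (fun ω : Fin l1 × Fin l0 =>
        (t ^ (ω.1.1 + 1)) ((u ^ ω.2.1) x) ∈ (cyc u x0)ᶜ) := by
    intro ω hω
    rw [mem_filter] at hω ⊢
    refine ⟨mem_univ _, ?_⟩
    rw [mem_compl]
    intro hc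
    apply hω.2
    have hj : (jdx x0 i p : ℕ) + 1 = (cyc u x0).card := by
      have h2 := card_cyc_pos u x0
      unfold jdx
      simp only
      rw [← hu]
      omega
    have e1 : FreeGroup.lift ![p.1, p.2] (cw i ω) x = (t ^ (ω.1.1 + 1)) ((u ^ ω.2.1) x) := by
      unfold cw
      rw [_root_.map_mul, _root_.map_pow, _root_.map_pow, lift_U, Equiv.Perm.mul_apply]
      simp [ht, hu]
    unfold leaf
    rw [_root_.map_mul, _root_.map_mul, _root_.map_inv, _root_.map_pow, lift_U, ← hu, hj,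
      Equiv.Perm.mul_apply, Equiv.Perm.mul_apply, e1, pow_card_cyc_of_mem hc, ← e1]
    exact Equiv.symm_apply_apply _ x
  have h2 := (card_le_card hsub).trans hs
  have h4 : ((univ.filter (fun ω : Fin l1 × Fin l0 =>
      FreeGroup.lift ![p.1, p.2] (leaf i (jdx x0 i p) ω) x ≠ x)).card : ℝ)
      ≤ ((l0 * a + M * l1 : ℕ) : ℝ) := by exact_mod_cast h2
  refine h4.trans (hfrac.trans (le_of_eq ?_))
  rw [Fintype.card_prod, Fintype.card_fin, Fintype.card_fin]

open Classical in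
theorem words_level (x0 : Fin n) (K i l0 l1 a M d : ℕ) (hi : i < K) (hl0 : 0 < l0) (hl1 : 0 < l1)
    (hfrac : ((l0 * a + M * l1 : ℕ) : ℝ) ≤ (1 / 128) * ((l1 * l0 : ℕ) : ℝ)) :
    ∃ w : Fin n → F2, (∀ j, w j ≠ 1) ∧
      (∀ j, (w j).norm + 6 ≤ 4 ^ d * (n * K + 2 * (l1 + l0 * K) + 6)) ∧
      ((univ.filter (fun p : Equiv.Perm (Fin n) × Equiv.Perm (Fin n) =>
        GoodP x0 l0 l1 a M i p ∧ FreeGroup.lift ![p.1, p.2] (w (jdx x0 i p)) ≠ 1)).card : ℝ)
        ≤ (n / 48 * (3 / 8 : ℝ) ^ (2 ^ d)) * (n.factorial : ℝ) ^ 2 := by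
  have : Nonempty (Fin l1 × Fin l0) := ⟨(⟨0, hl1⟩, ⟨0, hl0⟩)⟩
  obtain ⟨Ω', hf, hne, w, hw1, hw2, hw3⟩ := tree (Fin n) (n * K + 2 * (l1 + l0 * K)) d
    (Fin l1 × Fin l0) (fun j ω => leaf i j ω) (fun j ω => leaf_ne_one i j ω)
    (fun j ω => leaf_norm i j n K j.2 hi ω)
  set Bd : ℝ := n / 48 * (3 / 8 : ℝ) ^ (2 ^ d) with hBd
  have hΩ : (0 : ℝ) < Fintype.card Ω' := by
    have : 0 < Fintype.card Ω' := Fintype.card_pos
    exact_mod_cast this
  -- for a good pair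
  have h1 : ∀ p : Equiv.Perm (Fin n) × Equiv.Perm (Fin n), GoodP x0 l0 l1 a M i p →
      ((univ.filter (fun ω : Ω' => FreeGroup.lift ![p.1, p.2] (w (jdx x0 i p) ω) ≠ 1)).card : ℝ)
        ≤ Bd * Fintype.card Ω' := by
    intro p hp
    have h2 := hw3 (Fin n) (FreeGroup.lift ![p.1, p.2]) (jdx x0 i p) (1 / 128) (by norm_num)
      (leaf_moved x0 l0 l1 a M i hfrac p hp)
    have hsub : univ.filter (fun ω : Ω' => FreeGroup.lift ![p.1, p.2] (w (jdx x0 i p) ω) ≠ 1)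
        ⊆ (univ : Finset (Fin n)).biUnion (fun x => univ.filter (fun ω : Ω' =>
          FreeGroup.lift ![p.1, p.2] (w (jdx x0 i p) ω) x ≠ x)) := by
      intro ω hω
      rw [mem_filter] at hω
      rw [mem_biUnion]
      by_contra hc
      push Not at hc
      apply hω.2
      ext x
      have := hc x (mem_univ _)
      rw [mem_filter] at this
      push Not at this
      rw [this (mem_univ _), Equiv.Perm.one_apply]
    have h3 : ((univ.filter (fun ω : Ω' =>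
        FreeGroup.lift ![p.1, p.2] (w (jdx x0 i p) ω) ≠ 1)).card : ℝ)
        ≤ ∑ x : Fin n, ((univ.filter (fun ω : Ω' =>
          FreeGroup.lift ![p.1, p.2] (w (jdx x0 i p) ω) x ≠ x)).card : ℝ) := by
      exact_mod_cast (card_le_card hsub).trans card_biUnion_le
    refine h3.trans ?_
    have h4 : ∀ x ∈ (univ : Finset (Fin n)), ((univ.filter (fun ω : Ω' =>
          FreeGroup.lift ![p.1, p.2] (w (jdx x0 i p) ω) x ≠ x)).card : ℝ)
        ≤ (1 / 48) * ((3 / 8 : ℝ) ^ (2 ^ d) * Fintype.card Ω') := by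
      intro x _
      have h5 := h2 x
      have e : (48 * (1 / 128 : ℝ)) = 3 / 8 := by norm_num
      rw [e] at h5
      linarith
    refine (sum_le_sum h4).trans ?_
    rw [sum_const, card_univ, Fintype.card_fin, nsmul_eq_mul, hBd]
    apply le_of_eq
    ring
  -- double counting
  have hcardP : (Fintype.card (Equiv.Perm (Fin n) × Equiv.Perm (Fin n)) : ℝ)
      = (n.factorial : ℝ) ^ 2 := by
    rw [Fintype.card_prod, Fintype.card_perm, Fintype.card_fin, sq]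
    push_cast
    ring
  have h2 : ∑ ω : Ω', ((univ.filter (fun p : Equiv.Perm (Fin n) × Equiv.Perm (Fin n) =>
        GoodP x0 l0 l1 a M i p ∧ FreeGroup.lift ![p.1, p.2] (w (jdx x0 i p) ω) ≠ 1)).card : ℝ)
      ≤ ∑ ω : Ω', Bd * (n.factorial : ℝ) ^ 2 := by
    have e1 : ∑ ω : Ω', ((univ.filter (fun p : Equiv.Perm (Fin n) × Equiv.Perm (Fin n) =>
        GoodP x0 l0 l1 a M i p ∧ FreeGroup.lift ![p.1, p.2] (w (jdx x0 i p) ω) ≠ 1)).card : ℝ)
        = ∑ p : Equiv.Perm (Fin n) × Equiv.Perm (Fin n),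
          ∑ ω : Ω', (if (GoodP x0 l0 l1 a M i p ∧
            FreeGroup.lift ![p.1, p.2] (w (jdx x0 i p) ω) ≠ 1) then (1 : ℝ) else 0) := by
      rw [sum_comm]
      refine sum_congr rfl fun ω _ => ?_
      rw [card_filter]
      push_cast
      rfl
    rw [e1]
    have e2 : ∀ p ∈ (univ : Finset (Equiv.Perm (Fin n) × Equiv.Perm (Fin n))),
        ∑ ω : Ω', (if (GoodP x0 l0 l1 a M i p ∧
            FreeGroup.lift ![p.1, p.2] (w (jdx x0 i p) ω) ≠ 1) then (1 : ℝ) else 0)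
        ≤ Bd * Fintype.card Ω' := by
      intro p _
      by_cases hp : GoodP x0 l0 l1 a M i p
      · have h3 := h1 p hp
        rw [card_filter] at h3
        push_cast at h3
        simpa [hp] using h3
      · simp only [hp, false_and, if_false, sum_const_zero]
        rw [hBd]
        positivity
    refine (sum_le_sum e2).trans ?_
    rw [sum_const, card_univ, nsmul_eq_mul, hcardP, sum_const, card_univ, nsmul_eq_mul]
    apply le_of_eq
    ring
  obtain ⟨ω, _, hω⟩ := exists_le_of_sum_le (univ_nonempty : (univ : Finset Ω').Nonempty) h2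
  exact ⟨fun j => w j ω, fun j => hw1 j ω, fun j => hw2 j ω, hω⟩

end

end Pool.MP99279c.AA
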