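import Pool.Agent.Work.MP_99279c_al.Rec
import Mathlib

/-!
# The lazy random walk of a transitive pair of permutations
-/

set_option autoImplicit false
set_option linter.unusedSectionVars false

namespace Pool.MP99279c.AA

open Finset Function FreeGroup Pool.MP99279c

section

variable {α : Type} [Fintype α] [DecidableEq α]

/-- one step of the lazy walk -/
noncomputable def Pop (g h : Equiv.Perm α) (F : α → ℝ) : α → ℝ :=
  fun x => (2 * F x + F (g x) + F (h x)) / 4

/-- the energy -/
noncomputable def En2 (g h : Equiv.Perm α) (F : α → ℝ) : ℝ :=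
  ∑ x, ((F x - F (g x)) ^ 2 + (F x - F (h x)) ^ 2)

theorem En2_nonneg (g h : Equiv.Perm α) (F : α → ℝ) : 0 ≤ En2 g h F :=
  sum_nonneg (fun _ _ => by positivity)

theorem sum_Pop (g h : Equiv.Perm α) (F : α → ℝ) : ∑ x, Pop g h F x = ∑ x, F x := by
  unfold Pop
  rw [← sum_div, sum_add_distrib, sum_add_distrib, ← mul_sum, Equiv.sum_comp g F,
    Equiv.sum_comp h F]
  ring

theorem sq_Pop_le (g h : Equiv.Perm α) (F : α → ℝ) :
    ∑ x, (Pop g h F x) ^ 2 ≤ ∑ x, (F x) ^ 2 - En2 g h F / 8 := by
  have h1 : ∀ x ∈ (univ : Finset α), (Pop g h F x) ^ 2 ≤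
      ((F x) ^ 2 / 2 + (F (g x)) ^ 2 / 4 + (F (h x)) ^ 2 / 4)
        - ((F x - F (g x)) ^ 2 + (F x - F (h x)) ^ 2) / 8 := by
    intro x _
    unfold Pop
    nlinarith [sq_nonneg (F (g x) - F (h x))]
  refine (sum_le_sum h1).trans ?_
  rw [sum_sub_distrib, sum_add_distrib, sum_add_distrib, ← sum_div, ← sum_div, ← sum_div,
    ← sum_div, Equiv.sum_comp g (fun x => (F x) ^ 2), Equiv.sum_comp h (fun x => (F x) ^ 2)]
  unfold En2
  linarith

/-- the points reached in `k` steps -/
def Rch (g h : Equiv.Perm α) (x : α) : ℕ → Finset α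
  | 0 => {x}
  | k + 1 => Rch g h x k ∪ ((Rch g h x k).image g ∪ (Rch g h x k).image h)

theorem Rch_diff (g h : Equiv.Perm α) (F : α → ℝ) (e : ℝ)
    (hg : ∀ z, |F z - F (g z)| ≤ e) (hh : ∀ z, |F z - F (h z)| ≤ e) (x : α) :
    ∀ k, ∀ y ∈ Rch g h x k, |F x - F y| ≤ k * e := by
  have he : 0 ≤ e := (abs_nonneg _).trans (hg x)
  intro k
  induction k with
  | zero =>
    intro y hy
    rw [Rch, mem_singleton] at hy
    rw [hy]
    simp
  | succ k ih =>
    intro y hy
    rw [Rch, mem_union, mem_union, mem_image, mem_image] at hy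
    push_cast
    rcases hy with hy | ⟨z, hz, rfl⟩ | ⟨z, hz, rfl⟩
    · have := ih y hy
      linarith
    · have h1 := ih z hz
      have h2 := hg z
      have h3 := abs_sub_le (F x) (F z) (F (g z))
      linarith
    · have h1 := ih z hz
      have h2 := hh z
      have h3 := abs_sub_le (F x) (F z) (F (h z))
      linarith

/-- transitivity in the form used here -/
def Conn (g h : Equiv.Perm α) : Prop :=
  ∀ T : Finset α, T.Nonempty → (∀ z ∈ T, g z ∈ T) → (∀ z ∈ T, h z ∈ T) → T = univ

theorem Rch_card (g h : Equiv.Perm α) (hc : Conn g h) (x : α) :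
    ∀ k, min (k + 1) (Fintype.card α) ≤ (Rch g h x k).card := by
  intro k
  induction k with
  | zero =>
    rw [Rch, card_singleton]
    exact min_le_left _ _
  | succ k ih =>
    have hsub : Rch g h x k ⊆ Rch g h x (k + 1) := by
      rw [Rch]
      exact subset_union_left
    have hx : ∀ k, x ∈ Rch g h x k := by
      intro k
      induction k with
      | zero => rw [Rch]; exact mem_singleton_self _
      | succ k ih => rw [Rch]; exact mem_union_left _ ih
    by_cases hlt : (Rch g h x k).card < (Rch g h x (k + 1)).card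
    · have h1 : min (k + 1 + 1) (Fintype.card α) ≤ min (k + 1) (Fintype.card α) + 1 := by omega
      omega
    · have heq : Rch g h x k = Rch g h x (k + 1) := eq_of_subset_of_card_le hsub (by omega)
      have huniv : Rch g h x k = univ := by
        apply hc _ ⟨x, hx k⟩
        · intro z hz
          rw [heq, Rch]
          exact mem_union_right _ (mem_union_left _ (mem_image_of_mem _ hz))
        · intro z hz
          rw [heq, Rch]
          exact mem_union_right _ (mem_union_right _ (mem_image_of_mem _ hz))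
      rw [← heq, huniv, card_univ]
      exact min_le_right _ _

theorem mem_Rch (g h : Equiv.Perm α) (hc : Conn g h) (x y : α) :
    y ∈ Rch g h x (Fintype.card α) := by
  have h1 := Rch_card g h hc x (Fintype.card α)
  have h2 : Rch g h x (Fintype.card α) = univ := by
    rw [← card_eq_iff_eq_univ]
    have := card_le_univ (Rch g h x (Fintype.card α))
    omega
  rw [h2]
  exact mem_univ _

theorem poincare (g h : Equiv.Perm α) (hc : Conn g h) (F : α → ℝ) (hF : ∑ x, F x = 0) :
    2 * ∑ x, (F x) ^ 2 ≤ (Fintype.card α : ℝ) ^ 3 * En2 g h F := by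
  rcases isEmpty_or_nonempty α with hα | hα
  · simp [En2]
  set n : ℝ := (Fintype.card α : ℝ) with hn
  have hn1 : 0 < n := by
    rw [hn]
    exact_mod_cast Fintype.card_pos
  set E := En2 g h F with hE
  have hE0 : 0 ≤ E := En2_nonneg g h F
  set e := Real.sqrt E with he
  have he0 : 0 ≤ e := Real.sqrt_nonneg _
  have hee : e ^ 2 = E := Real.sq_sqrt hE0
  have hterm : ∀ z, (F z - F (g z)) ^ 2 + (F z - F (h z)) ^ 2 ≤ E := by
    intro z
    rw [hE]
    unfold En2
    exact single_le_sum (f := fun x => (F x - F (g x)) ^ 2 + (F x - F (h x)) ^ 2)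
      (fun _ _ => by positivity) (mem_univ z)
  have hg : ∀ z, |F z - F (g z)| ≤ e := by
    intro z
    rw [he]
    apply Real.abs_le_sqrt
    have := hterm z
    nlinarith [sq_nonneg (F z - F (h z))]
  have hh : ∀ z, |F z - F (h z)| ≤ e := by
    intro z
    rw [he]
    apply Real.abs_le_sqrt
    have := hterm z
    nlinarith [sq_nonneg (F z - F (g z))]
  have hdiff : ∀ x y, (F x - F y) ^ 2 ≤ n ^ 2 * E := by
    intro x y
    have h1 := Rch_diff g h F e hg hh x (Fintype.card α) y (mem_Rch g h hc x y)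
    rw [← hn] at h1
    have h2 : (F x - F y) ^ 2 ≤ (n * e) ^ 2 := by
      rw [← sq_abs (F x - F y)]
      exact pow_le_pow_left₀ (abs_nonneg _) h1 2
    calc (F x - F y) ^ 2 ≤ (n * e) ^ 2 := h2
      _ = n ^ 2 * E := by rw [mul_pow, hee]
  have hdouble : ∑ x, ∑ y, (F x - F y) ^ 2 = 2 * n * ∑ x, (F x) ^ 2 := by
    have e1 : ∀ x ∈ (univ : Finset α), ∑ y, (F x - F y) ^ 2
        = n * (F x) ^ 2 + ∑ y, (F y) ^ 2 := by
      intro x _
      have e2 : ∀ y ∈ (univ : Finset α), (F x - F y) ^ 2
          = (F x) ^ 2 + (F y) ^ 2 - 2 * F x * F y := by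
        intro y _
        ring
      rw [sum_congr rfl e2, sum_sub_distrib, sum_add_distrib, ← mul_sum, hF, sum_const, card_univ,
        nsmul_eq_mul, ← hn]
      ring
    rw [sum_congr rfl e1, sum_add_distrib, ← mul_sum, sum_const, card_univ, nsmul_eq_mul, ← hn]
    ring
  have hle : ∑ x, ∑ y, (F x - F y) ^ 2 ≤ n * (n * (n ^ 2 * E)) := by
    calc ∑ x, ∑ y, (F x - F y) ^ 2 ≤ ∑ _x : α, ∑ _y : α, n ^ 2 * E :=
          sum_le_sum (fun x _ => sum_le_sum (fun y _ => hdiff x y))
      _ = n * (n * (n ^ 2 * E)) := by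
          rw [sum_const, sum_const, card_univ, nsmul_eq_mul, nsmul_eq_mul, ← hn]
  rw [hdouble] at hle
  have h3 : n * (2 * ∑ x, (F x) ^ 2) ≤ n * (n ^ 3 * E) := by
    calc n * (2 * ∑ x, (F x) ^ 2) = 2 * n * ∑ x, (F x) ^ 2 := by ring
      _ ≤ n * (n * (n ^ 2 * E)) := hle
      _ = n * (n ^ 3 * E) := by ring
  exact le_of_mul_le_mul_left h3 hn1

theorem contract (g h : Equiv.Perm α) (hc : Conn g h) (F : α → ℝ) (hF : ∑ x, F x = 0)
    (hn : 0 < Fintype.card α) :
    ∑ x, (Pop g h F x) ^ 2 ≤ (1 - 1 / (4 * (Fintype.card α : ℝ) ^ 3)) * ∑ x, (F x) ^ 2 := by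
  have h1 := sq_Pop_le g h F
  have h2 := poincare g h hc F hF
  set n : ℝ := (Fintype.card α : ℝ) with hndef
  have hn1 : 0 < n := by
    rw [hndef]
    exact_mod_cast hn
  set S := ∑ x, (F x) ^ 2 with hS
  set E := En2 g h F with hE
  have h3 : S / (4 * n ^ 3) ≤ E / 8 := by
    rw [div_le_iff₀ (by positivity)]
    have : E / 8 * (4 * n ^ 3) = n ^ 3 * E / 2 := by ring
    rw [this]
    linarith
  calc ∑ x, (Pop g h F x) ^ 2 ≤ S - E / 8 := h1
    _ ≤ S - S / (4 * n ^ 3) := by linarith
    _ = (1 - 1 / (4 * n ^ 3)) * S := by ring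

theorem contract_iter (g h : Equiv.Perm α) (hc : Conn g h) (F : α → ℝ) (hF : ∑ x, F x = 0)
    (hn : 0 < Fintype.card α) : ∀ l : ℕ, ∑ x, ((Pop g h)^[l] F x) = 0 ∧
    ∑ x, ((Pop g h)^[l] F x) ^ 2
      ≤ (1 - 1 / (4 * (Fintype.card α : ℝ) ^ 3)) ^ l * ∑ x, (F x) ^ 2 := by
  intro l
  have hn1 : (1 : ℝ) ≤ (Fintype.card α : ℝ) := by exact_mod_cast hn
  have hpos : 0 ≤ 1 - 1 / (4 * (Fintype.card α : ℝ) ^ 3) := by
    have h3 : (1 : ℝ) ≤ (Fintype.card α : ℝ) ^ 3 := one_le_pow₀ hn1
    have : 1 / (4 * (Fintype.card α : ℝ) ^ 3) ≤ 1 := by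
      rw [div_le_one (by positivity)]
      linarith
    linarith
  induction l with
  | zero => simp [hF]
  | succ l ih =>
    rw [Function.iterate_succ_apply']
    refine ⟨by rw [sum_Pop]; exact ih.1, ?_⟩
    refine (contract g h hc _ ih.1 hn).trans ?_
    rw [pow_succ' (1 - 1 / (4 * (Fintype.card α : ℝ) ^ 3)) l, mul_assoc]
    exact mul_le_mul_of_nonneg_left ih.2 hpos

end

/-- transitive groups are connected -/
theorem conn_of_transitive {α : Type} [Fintype α] [DecidableEq α] (f : Fin 2 → Equiv.Perm α)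
    (ht : MulAction.IsPretransitive (Subgroup.closure (Set.range f)) α) : Conn (f 0) (f 1) := by
  intro T hT h0 h1
  obtain ⟨x, hx⟩ := hT
  have hfin : (T : Set α).Finite := T.finite_toSet
  have key : ∀ g ∈ Subgroup.closure (Set.range f), ∀ z, z ∈ T ↔ g z ∈ T := by
    intro g hg
    induction hg using Subgroup.closure_induction with
    | mem g hg =>
      obtain ⟨i, rfl⟩ := hg
      have hm : ∀ z ∈ T, f i z ∈ T := by
        fin_cases i
        · exact h0
        · exact h1
      have himg : T.map (f i).toEmbedding = T := by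
        apply eq_of_subset_of_card_le
        · intro z hz
          rw [mem_map_equiv] at hz
          have := hm _ hz
          rwa [Equiv.apply_symm_apply] at this
        · rw [card_map]
      intro z
      constructor
      · exact hm z
      · intro hz
        rw [← himg, mem_map_equiv, Equiv.symm_apply_apply] at hz
        exact hz
    | one => intro z; rfl
    | mul a b _ _ ha hb =>
      intro z
      rw [hb z, ha (b z)]
      rfl
    | inv a _ ha =>
      intro z
      rw [ha (a⁻¹ z)]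
      have : a (a⁻¹ z) = z := Equiv.apply_symm_apply a z
      rw [this]
  rw [← card_eq_iff_eq_univ]
  apply le_antisymm (card_le_univ _)
  have : (univ : Finset α) ⊆ T := by
    intro y _
    obtain ⟨⟨g, hg⟩, hgy⟩ := ht.exists_smul_eq x y
    have h2 : g x = y := hgy
    rw [← h2]
    exact (key g hg x).mp hx
  exact card_le_card this

/-- the steps -/
def stp : Fin 4 → F2 := ![1, 1, FreeGroup.of 0, FreeGroup.of 1]

theorem stp_norm (i : Fin 4) : (stp i).norm ≤ 1 := by
  fin_cases i
  · simp [stp]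
  · simp [stp]
  · simp [stp]
  · simp [stp]

/-- the walk, realised by words -/
theorem walk : ∀ l : ℕ, ∃ (Ω : Type) (_ : Fintype Ω) (_ : Nonempty Ω) (c : Ω → F2),
    (∀ ω, (c ω).norm ≤ l) ∧ ∀ (α : Type) [Fintype α] [DecidableEq α] (φ : F2 →* Equiv.Perm α)
      (F : α → ℝ) (x : α),
      ∑ ω, F (φ (c ω) x) = Fintype.card Ω
        * (Pop (φ (FreeGroup.of 0)) (φ (FreeGroup.of 1)))^[l] F x := by
  intro l
  induction l with
  | zero =>
    refine ⟨Unit, inferInstance, inferInstance, fun _ => 1, ?_, ?_⟩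
    · intro _
      simp
    · intro α _ _ φ F x
      simp
  | succ l ih =>
    obtain ⟨Ω, hf, hne, c, hc1, hc2⟩ := ih
    refine ⟨Fin 4 × Ω, inferInstance, inferInstance, fun ω => c ω.2 * stp ω.1, ?_, ?_⟩
    · intro ω
      have h1 := norm_mul_le (c ω.2) (stp ω.1)
      have h2 := hc1 ω.2
      have h3 := stp_norm ω.1
      change (c ω.2 * stp ω.1).norm ≤ l + 1
      omega
    · intro α _ _ φ F x
      rw [Fintype.sum_prod_type]
      have e1 : ∀ i : Fin 4, ∑ ω : Ω, F (φ (c (i, ω).2 * stp (i, ω).1) x)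
          = Fintype.card Ω * (Pop (φ (FreeGroup.of 0)) (φ (FreeGroup.of 1)))^[l] F (φ (stp i) x) := by
        intro i
        rw [← hc2 α φ F (φ (stp i) x)]
        apply sum_congr rfl
        intro ω _
        rw [_root_.map_mul, Equiv.Perm.mul_apply]
      rw [sum_congr rfl (fun i _ => e1 i), Fin.sum_univ_four, Function.iterate_succ_apply',
        Fintype.card_prod, Fintype.card_fin]
      simp only [stp, Matrix.cons_val_zero, Matrix.cons_val_one, Matrix.cons_val,
        _root_.map_one, Equiv.Perm.one_apply]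
      unfold Pop
      push_cast
      ring

end Pool.MP99279c.AA
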