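import Pool.Agent.Work.MP_99279c_al.AA.Return

/-!
# The pair bound for giant cycles
-/

set_option autoImplicit false
set_option linter.unusedSectionVars false

namespace Pool.MP99279c.AA

open Finset Function

section

variable {α : Type} [Fintype α] [DecidableEq α]

/-! ### The number of points avoiding `R` for many steps -/

/-- the interleaving bijections -/
def theta (s : Equiv.Perm α) (k : ℕ) (j : ℕ) : Equiv.Perm α := if (j + 1) % k = 0 then s⁻¹ else 1

theorem path_theta (s y : Equiv.Perm α) (k : ℕ) (hk : 1 ≤ k) (z : α) (l : ℕ) :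
    path (theta s k) (s⁻¹ z) y⁻¹ (l * k) = s⁻¹ ((((s * y ^ k)⁻¹) ^ l) z) := by
  have aux : ∀ (w : α) (i : ℕ), path (theta s k) (s⁻¹ z) y⁻¹ i = w → ∀ r, r < k →
      i % k = 0 → path (theta s k) (s⁻¹ z) y⁻¹ (i + r) = ((y⁻¹) ^ r) w := by
    intro w i hi r
    induction r with
    | zero => intro _ _; simpa using hi
    | succ r ih =>
      intro hr hik
      rw [← Nat.add_assoc, path, ih (by omega) hik, theta, if_neg, Equiv.Perm.one_apply, pow_succ',
        Equiv.Perm.mul_apply]
      intro h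
      have h1 : (i + (r + 1)) % k = 0 := by rwa [← Nat.add_assoc]
      rw [Nat.add_mod, hik, zero_add, Nat.mod_mod, Nat.mod_eq_of_lt hr] at h1
      omega
  induction l with
  | zero => simp [path]
  | succ l ih =>
    have h1 := aux _ (l * k) ih (k - 1) (by omega) (Nat.mul_mod_left l k)
    have h2 : (l + 1) * k = l * k + (k - 1) + 1 := by
      have : (l + 1) * k = l * k + k := by ring
      omega
    rw [h2, path, h1, theta, if_pos]
    · rw [pow_succ' ((s * y ^ k)⁻¹), Equiv.Perm.mul_apply, mul_inv_rev, Equiv.Perm.mul_apply]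
      congr 1
      rw [← Equiv.Perm.mul_apply (y⁻¹), ← pow_succ', Nat.sub_add_cancel hk, inv_pow]
    · rw [← h2]
      exact Nat.mul_mod_left _ _

theorem answer_theta (s y : Equiv.Perm α) (k : ℕ) (hk : 1 ≤ k) (z : α) (l : ℕ) :
    y⁻¹ (path (theta s k) (s⁻¹ z) y⁻¹ (l * k + (k - 1))) = (((s * y ^ k)⁻¹) ^ (l + 1)) z := by
  have h1 := path_theta s y k hk z (l + 1)
  have h2 : (l + 1) * k = l * k + (k - 1) + 1 := by
    have : (l + 1) * k = l * k + k := by ring
    omega
  rw [h2, path, theta, if_pos] at h1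
  · exact (s⁻¹).injective h1
  · rw [← h2]
    exact Nat.mul_mod_left _ _

theorem card_avoid_le (s : Equiv.Perm α) (k m : ℕ) (hk : 1 ≤ k) (R : Finset α) (z : α)
    (hJ : 2 * (m * k) * (m * k) ≤ Fintype.card α) (hn : 0 < Fintype.card α) :
    ((univ.filter (fun y : Equiv.Perm α => ∀ l < m + 1, (((s * y ^ k)⁻¹) ^ l) z ∉ R)).card : ℝ)
      ≤ ((Fintype.card α).factorial : ℝ)
        * (2 * (1 - (R.card : ℝ) / Fintype.card α) ^ m
          + 2 * ((m * k : ℕ) : ℝ) ^ 2 / Fintype.card α) := by
  classical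
  set n := Fintype.card α with hnd
  have hnR : (0 : ℝ) < n := by exact_mod_cast hn
  set J := m * k with hJd
  rcases Nat.eq_zero_or_pos m with hm | hm
  · -- trivial
    have h1 : (univ.filter (fun y : Equiv.Perm α => ∀ l < m + 1, (((s * y ^ k)⁻¹) ^ l) z ∉ R)).card
        ≤ n.factorial := by
      rw [hnd, ← Fintype.card_perm, ← card_univ]
      exact card_le_card (fun _ _ => mem_univ _)
    have h2 : ((univ.filter (fun y : Equiv.Perm α =>
        ∀ l < m + 1, (((s * y ^ k)⁻¹) ^ l) z ∉ R)).card : ℝ) ≤ n.factorial := by exact_mod_cast h1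
    refine h2.trans ?_
    have h3 : (0 : ℝ) ≤ n.factorial := by positivity
    have h4 : (1 : ℝ) ≤ 2 * (1 - (R.card : ℝ) / n) ^ m + 2 * ((J : ℕ) : ℝ) ^ 2 / n := by
      rw [hm, pow_zero]
      have : (0 : ℝ) ≤ 2 * ((J : ℕ) : ℝ) ^ 2 / n := by positivity
      linarith
    nlinarith
  have hJ0 : 0 < J := Nat.mul_pos hm hk
  set θ := theta s k with hθ
  set w := s⁻¹ z with hw
  set B : ℕ → Finset α := fun j => if (j + 1) % k = 0 then Rᶜ else univ with hB
  -- split
  have hsub : univ.filter (fun y : Equiv.Perm α => ∀ l < m + 1, (((s * y ^ k)⁻¹) ^ l) z ∉ R)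
      ⊆ ((univ.filter (fun y : Equiv.Perm α =>
        (∀ i < J, ∀ j < J, path θ w y i = path θ w y j → i = j) ∧
        ∀ j < J, y (path θ w y j) ∈ B j)) ∪
        (univ.filter (fun y : Equiv.Perm α =>
        ¬ ∀ i < (J - 1) + 1, ∀ j < (J - 1) + 1, path θ w y i = path θ w y j → i = j))).image
          (fun y => y⁻¹) := by
    intro y hy
    rw [mem_filter] at hy
    rw [mem_image]
    refine ⟨y⁻¹, ?_, inv_inv y⟩
    rw [mem_union, mem_filter, mem_filter, Nat.sub_add_cancel hJ0]
    by_cases hc : ∀ i < J, ∀ j < J, path θ w y⁻¹ i = path θ w y⁻¹ j → i = j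
    · left
      refine ⟨mem_univ _, hc, ?_⟩
      intro j hj
      rw [hB]
      simp only
      by_cases hjk : (j + 1) % k = 0
      · rw [if_pos hjk, mem_compl]
        obtain ⟨c, hc'⟩ := Nat.dvd_of_mod_eq_zero hjk
        have hc0 : 0 < c := by
          rcases Nat.eq_zero_or_pos c with h | h
          · rw [h, mul_zero] at hc'
            omega
          · exact h
        have hj2 : j = (c - 1) * k + (k - 1) := by
          have e : k * c = (c - 1) * k + k := by
            obtain ⟨c', rfl⟩ : ∃ c', c = c' + 1 := ⟨c - 1, by omega⟩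
            rw [Nat.add_sub_cancel]; ring
          omega
        have h1 := answer_theta s y k hk z (c - 1)
        rw [Nat.sub_add_cancel hc0, ← hj2] at h1
        rw [h1]
        apply hy.2
        have : k * c ≤ m * k := by omega
        have h2 : c * k ≤ m * k := by linarith
        have := Nat.le_of_mul_le_mul_right h2 (by omega)
        omega
      · rw [if_neg hjk]
        exact mem_univ _
    · right
      exact ⟨mem_univ _, hc⟩
  have h1 := (card_le_card hsub).trans (card_image_le.trans (card_union_le _ _))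
  have h2 := card_path_le θ w J B
  have h3 := card_collision_le θ w (J - 1) (by
    rw [Nat.sub_add_cancel hJ0]; exact hJ)
  have h4 : ∏ j ∈ range J, (B j).card = (n - R.card) ^ m * n ^ (J - m) := by
    -- among `0..J-1` exactly `m` indices are special
    have e : ∀ m' : ℕ, ∏ j ∈ range (m' * k), (B j).card
        = (n - R.card) ^ m' * n ^ (m' * k - m') := by
      intro m'
      induction m' with
      | zero => simp
      | succ m' ih =>
        have e1 : (m' + 1) * k = m' * k + (k - 1) + 1 := by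
          have : (m' + 1) * k = m' * k + k := by ring
          omega
        rw [e1, prod_range_succ, prod_range_add, ih]
        have e2 : ∀ j ∈ range (k - 1), (B (m' * k + j)).card = n := by
          intro j hj
          rw [mem_range] at hj
          rw [hB]
          simp only
          rw [if_neg, card_univ]
          intro h
          rw [Nat.add_assoc, Nat.add_mod, Nat.mul_mod_left, zero_add, Nat.mod_mod,
            Nat.mod_eq_of_lt (by omega)] at h
          omega
        rw [prod_congr rfl e2, prod_const, card_range]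
        have e3 : (B (m' * k + (k - 1))).card = n - R.card := by
          rw [hB]
          simp only
          rw [if_pos, card_compl]
          rw [← e1]
          exact Nat.mul_mod_left _ _
        rw [e3]
        have e4 : m' * k + (k - 1) + 1 - (m' + 1) = (m' * k - m') + (k - 1) := by
          have : m' ≤ m' * k := Nat.le_mul_of_pos_right _ hk
          omega
        rw [e4]
        ring
    exact e m
  rw [h4] at h2
  have hRn : R.card ≤ n := card_le_univ _
  -- real estimates
  have h5 : (((n - J).factorial * ((n - R.card) ^ m * n ^ (J - m)) : ℕ) : ℝ)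
      ≤ (n.factorial : ℝ) * (2 * (1 - (R.card : ℝ) / n) ^ m) := by
    have e1 := pow_mul_factorial_le (n := n) (J := J) hJ
    have hmJ : m ≤ J := Nat.le_mul_of_pos_right _ hk
    have e2 : (((n - J).factorial * ((n - R.card) ^ m * n ^ (J - m)) : ℕ) : ℝ)
        = ((n : ℝ) ^ J * ((n - J).factorial : ℝ)) * (1 - (R.card : ℝ) / n) ^ m := by
      push_cast
      rw [Nat.cast_sub hRn]
      have e3 : (n : ℝ) ^ J = (n : ℝ) ^ m * (n : ℝ) ^ (J - m) := by
        rw [← pow_add]; congr 1; omega
      rw [e3]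
      have e4 : ((n : ℝ) - R.card) ^ m = (n : ℝ) ^ m * (1 - (R.card : ℝ) / n) ^ m := by
        rw [← mul_pow]
        congr 1
        field_simp
      rw [e4]
      ring
    rw [e2]
    have e5 : (0 : ℝ) ≤ (1 - (R.card : ℝ) / n) ^ m := by
      apply pow_nonneg
      rw [sub_nonneg, div_le_one hnR]
      exact_mod_cast hRn
    nlinarith
  have h6 : (((univ.filter (fun y : Equiv.Perm α =>
      ∀ l < m + 1, (((s * y ^ k)⁻¹) ^ l) z ∉ R)).card : ℕ) : ℝ)
      ≤ (((n - J).factorial * ((n - R.card) ^ m * n ^ (J - m)) : ℕ) : ℝ)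
        + ((univ.filter (fun y : Equiv.Perm α =>
        ¬ ∀ i < (J - 1) + 1, ∀ j < (J - 1) + 1, path θ w y i = path θ w y j → i = j)).card : ℝ) := by
    have := h1.trans (Nat.add_le_add_right h2 _)
    exact_mod_cast this
  have h7 : (2 * ((J - 1 : ℕ) : ℝ) * (((J - 1 : ℕ) : ℝ) + 1) / n) * (n.factorial : ℝ)
      ≤ (n.factorial : ℝ) * (2 * ((J : ℕ) : ℝ) ^ 2 / n) := by
    rw [mul_comm]
    apply mul_le_mul_of_nonneg_left _ (by positivity)
    apply div_le_div_of_nonneg_right _ hnR.le
    have : ((J - 1 : ℕ) : ℝ) = J - 1 := by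
      rw [Nat.cast_sub hJ0]; simp
    rw [this]
    have : (1 : ℝ) ≤ J := by exact_mod_cast hJ0
    nlinarith
  rw [mul_add]
  linarith

theorem sum_badB_le (s : Equiv.Perm α) (k m : ℕ) (hk : 1 ≤ k) (R : Finset α)
    (hJ : 2 * (m * k) * (m * k) ≤ Fintype.card α) (hn : 0 < Fintype.card α) :
    (∑ y : Equiv.Perm α, (badB (s * y ^ k) R (m + 1) : ℝ))
      ≤ ((Fintype.card α).factorial : ℝ) * Fintype.card α
        * (2 * (1 - (R.card : ℝ) / Fintype.card α) ^ m
          + 2 * ((m * k : ℕ) : ℝ) ^ 2 / Fintype.card α) := by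
  classical
  have h1 : ∀ y : Equiv.Perm α, (badB (s * y ^ k) R (m + 1) : ℝ)
      = ∑ z : α, (if ∀ l < m + 1, (((s * y ^ k)⁻¹) ^ l) z ∉ R then (1 : ℝ) else 0) := by
    intro y
    unfold badB
    rw [card_filter]
    push_cast
    rfl
  simp only [h1]
  rw [sum_comm]
  have h2 : ∀ z : α, (∑ y : Equiv.Perm α,
      (if ∀ l < m + 1, (((s * y ^ k)⁻¹) ^ l) z ∉ R then (1 : ℝ) else 0))
      ≤ ((Fintype.card α).factorial : ℝ)
        * (2 * (1 - (R.card : ℝ) / Fintype.card α) ^ m
          + 2 * ((m * k : ℕ) : ℝ) ^ 2 / Fintype.card α) := by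
    intro z
    have := card_avoid_le s k m hk R z hJ hn
    rw [card_filter] at this
    push_cast at this ⊢
    exact this
  refine (sum_le_sum (fun z _ => h2 z)).trans ?_
  rw [sum_const, card_univ, nsmul_eq_mul]
  apply le_of_eq
  ring

/-! ### Invariance under re-randomisation -/

theorem avoid_mul {g : Equiv.Perm α} {R : Finset α} (ρ : Equiv.Perm R) {z : α} {m : ℕ}
    (h : ∀ l < m, ((g⁻¹) ^ l) z ∉ R) :
    ∀ l < m, (((Equiv.Perm.ofSubtype ρ * g)⁻¹) ^ l) z ∉ R := by
  have key : ∀ l < m, (((Equiv.Perm.ofSubtype ρ * g)⁻¹) ^ l) z = ((g⁻¹) ^ l) z := by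
    intro l
    induction l with
    | zero => intro _; simp
    | succ l ih =>
      intro hl
      rw [pow_succ', Equiv.Perm.mul_apply, ih (by omega), pow_succ', Equiv.Perm.mul_apply,
        mul_inv_rev, Equiv.Perm.mul_apply, ofSubtype_inv_notMem ρ (h l (by omega))]
  intro l hl
  rw [key l hl]
  exact h l hl

theorem badB_mul (g : Equiv.Perm α) (R : Finset α) (ρ : Equiv.Perm R) (m : ℕ) :
    badB (Equiv.Perm.ofSubtype ρ * g) R m = badB g R m := by
  classical
  unfold badB
  congr 1
  ext z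
  rw [mem_filter, mem_filter]
  constructor
  · rintro ⟨h, h'⟩
    refine ⟨h, ?_⟩
    have := avoid_mul ρ⁻¹ h'
    rwa [← mul_assoc, ← map_mul, inv_mul_cancel, map_one, one_mul] at this
  · rintro ⟨h, h'⟩
    exact ⟨h, avoid_mul ρ h'⟩

theorem cyc_mul_of_compl {s : Equiv.Perm α} {x0 : α} {R : Finset α} (hR : cyc s x0 = Rᶜ)
    (ρ : Equiv.Perm R) : cyc (Equiv.Perm.ofSubtype ρ * s) x0 = Rᶜ := by
  have e : ∀ z ∈ Rᶜ, (Equiv.Perm.ofSubtype ρ * s) z = s z := by
    intro z hz
    rw [Equiv.Perm.mul_apply]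
    apply Equiv.Perm.ofSubtype_apply_of_not_mem
    rw [← hR] at hz
    have := apply_mem_cyc hz
    rw [hR, mem_compl] at this
    exact this
  have h1 : cyc (Equiv.Perm.ofSubtype ρ * s) x0 ⊆ Rᶜ := by
    apply cyc_subset
    · rw [← hR]; exact self_mem_cyc s x0
    · intro z hz
      rw [e z hz]
      rw [← hR] at hz ⊢
      exact apply_mem_cyc hz
  apply Finset.Subset.antisymm h1
  rw [← hR]
  apply cyc_subset (self_mem_cyc _ _)
  intro z hz
  rw [← e z (h1 hz)]
  exact apply_mem_cyc hz

/-- averaging over the re-randomisation -/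
theorem card_class_le (x0 : α) (y : Equiv.Perm α) (R : Finset α) (hR : 0 < R.card)
    (g0 m b : ℕ) (hb : b < g0) (hbn : b < Fintype.card α) (κ : ℝ) (hκ : 0 < κ) (τ : ℝ)
    (hτ : ((Fintype.card α - g0 : ℕ) : ℝ) / (Fintype.card α - b : ℕ) + κ + 1 / R.card
          + m / ((Fintype.card α - b : ℕ) * κ ^ 2) ≤ τ) :
    ((univ.filter (fun s : Equiv.Perm α => cyc s x0 = Rᶜ ∧ badB (s * y) R m ≤ b ∧
      g0 ≤ (cyc (s * y) x0).card)).card : ℝ)
      ≤ τ * ((univ.filter (fun s : Equiv.Perm α => cyc s x0 = Rᶜ)).card : ℝ) := by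
  classical
  set A := univ.filter (fun s : Equiv.Perm α => cyc s x0 = Rᶜ) with hA
  set f : Equiv.Perm α → ℝ := fun s => if (badB (s * y) R m ≤ b ∧
      g0 ≤ (cyc (s * y) x0).card) then 1 else 0 with hf
  have h1 : ((univ.filter (fun s : Equiv.Perm α => cyc s x0 = Rᶜ ∧ badB (s * y) R m ≤ b ∧
      g0 ≤ (cyc (s * y) x0).card)).card : ℝ) = ∑ s ∈ A, f s := by
    rw [hA, hf, sum_ite, sum_const_zero, add_zero, sum_const, nsmul_eq_mul, mul_one,
      filter_filter]
  have h2 : ∀ ρ : Equiv.Perm R, ∑ s ∈ A, f s = ∑ s ∈ A, f (Equiv.Perm.ofSubtype ρ * s) := by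
    intro ρ
    symm
    apply sum_bij (fun s _ => (Equiv.Perm.ofSubtype ρ * s : Equiv.Perm α))
    · intro s hs
      rw [hA, mem_filter] at hs ⊢
      exact ⟨mem_univ _, cyc_mul_of_compl hs.2 ρ⟩
    · intro s _ s' _ h
      exact mul_left_cancel h
    · intro s hs
      rw [hA, mem_filter] at hs
      refine ⟨Equiv.Perm.ofSubtype ρ⁻¹ * s, ?_, ?_⟩
      · rw [hA, mem_filter]
        exact ⟨mem_univ _, cyc_mul_of_compl hs.2 ρ⁻¹⟩
      · rw [← mul_assoc, ← map_mul, mul_inv_cancel, map_one, one_mul]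
    · intro s _
      rfl
  have hNpos : (0 : ℝ) < (R.card.factorial : ℝ) := by positivity
  have h3 : (R.card.factorial : ℝ) * ∑ s ∈ A, f s
      = ∑ s ∈ A, ∑ ρ : Equiv.Perm R, f (Equiv.Perm.ofSubtype ρ * s) := by
    rw [sum_comm]
    rw [← sum_congr rfl (fun ρ _ => h2 ρ), sum_const, card_univ, Fintype.card_perm,
      Fintype.card_coe, nsmul_eq_mul]
  have h4 : ∀ s ∈ A, ∑ ρ : Equiv.Perm R, f (Equiv.Perm.ofSubtype ρ * s)
      ≤ (R.card.factorial : ℝ) * τ := by
    intro s _
    by_cases hB : badB (s * y) R m ≤ b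
    · have e1 : ∑ ρ : Equiv.Perm R, f (Equiv.Perm.ofSubtype ρ * s)
          = ((univ.filter (fun ρ : Equiv.Perm R =>
            g0 ≤ (cyc (Equiv.Perm.ofSubtype ρ * (s * y)) x0).card)).card : ℝ) := by
        rw [hf]
        simp only [mul_assoc, badB_mul, hB, true_and]
        rw [sum_ite, sum_const_zero, add_zero, sum_const, nsmul_eq_mul, mul_one]
      rw [e1]
      have e2 := card_rho_le (g := s * y) (R := R) m g0 x0 hR (lt_of_le_of_lt hB hb)
        (lt_of_le_of_lt hB hbn) κ hκ
      refine e2.trans ?_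
      apply mul_le_mul_of_nonneg_left _ hNpos.le
      refine le_trans ?_ hτ
      have e3 : (0 : ℝ) < (Fintype.card α - b : ℕ) := by
        have : 0 < Fintype.card α - b := by omega
        exact_mod_cast this
      have e4 : ((Fintype.card α - b : ℕ) : ℝ) ≤ (Fintype.card α - badB (s * y) R m : ℕ) := by
        have : Fintype.card α - b ≤ Fintype.card α - badB (s * y) R m := by omega
        exact_mod_cast this
      have e5 : ((Fintype.card α - g0 : ℕ) : ℝ) / (Fintype.card α - badB (s * y) R m : ℕ)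
          ≤ ((Fintype.card α - g0 : ℕ) : ℝ) / (Fintype.card α - b : ℕ) :=
        div_le_div_of_nonneg_left (by positivity) e3 e4
      have e6 : (m : ℝ) / ((Fintype.card α - badB (s * y) R m : ℕ) * κ ^ 2)
          ≤ (m : ℝ) / ((Fintype.card α - b : ℕ) * κ ^ 2) :=
        div_le_div_of_nonneg_left (by positivity) (by positivity)
          (mul_le_mul_of_nonneg_right e4 (by positivity))
      linarith
    · have e1 : ∀ ρ : Equiv.Perm R, f (Equiv.Perm.ofSubtype ρ * s) = 0 := by
        intro ρ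
        rw [hf]
        simp only [mul_assoc, badB_mul, hB, false_and, if_false]
      rw [sum_congr rfl (fun ρ _ => e1 ρ), sum_const_zero]
      have e3 : (0 : ℝ) ≤ ((Fintype.card α - g0 : ℕ) : ℝ) / (Fintype.card α - b : ℕ) + κ
          + 1 / R.card + m / ((Fintype.card α - b : ℕ) * κ ^ 2) := by positivity
      exact mul_nonneg hNpos.le (e3.trans hτ)
  have h5 : (R.card.factorial : ℝ) * ∑ s ∈ A, f s ≤ (R.card.factorial : ℝ) * (τ * A.card) := by
    rw [h3]
    refine (sum_le_sum h4).trans ?_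
    rw [sum_const, nsmul_eq_mul]
    apply le_of_eq
    ring
  rw [h1]
  exact le_of_mul_le_mul_left h5 hNpos

end

end Pool.MP99279c.AA
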