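import Pool.Agent.Work.MP_99279c_al.AA.Pair

/-!
# The pair bound for giant cycles, final form
-/

set_option autoImplicit false
set_option linter.unusedSectionVars false

namespace Pool.MP99279c.AA

open Finset Function

section

variable {α : Type} [Fintype α] [DecidableEq α]

theorem card_prod_filter (P : Equiv.Perm α × Equiv.Perm α → Prop) [DecidablePred P] :
    ((univ.filter P).card : ℝ)
      = ∑ s : Equiv.Perm α, ((univ.filter (fun y : Equiv.Perm α => P (s, y))).card : ℝ) := by
  rw [card_filter, Fintype.sum_prod_type]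
  push_cast
  refine sum_congr rfl fun s _ => ?_
  rw [card_filter]
  push_cast
  rfl

theorem card_prod_filter' (P : Equiv.Perm α × Equiv.Perm α → Prop) [DecidablePred P] :
    ((univ.filter P).card : ℝ)
      = ∑ y : Equiv.Perm α, ((univ.filter (fun s : Equiv.Perm α => P (s, y))).card : ℝ) := by
  rw [card_filter, Fintype.sum_prod_type_right]
  push_cast
  refine sum_congr rfl fun s _ => ?_
  rw [card_filter]
  push_cast
  rfl

theorem factorial_eq {n : ℕ} (hn : 0 < n) : ((n.factorial : ℕ) : ℝ) = n * ((n - 1).factorial : ℝ) := by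
  rw [← Nat.mul_factorial_pred hn.ne']
  push_cast
  ring

theorem pair_bound (x0 : α) (g0 N0 b m k : ℕ) (κ : ℝ) (hg0 : 1 ≤ g0) (hN0 : 1 ≤ N0)
    (hb : b < g0) (hbn : b < Fintype.card α) (hk : 1 ≤ k) (hκ : 0 < κ)
    (hNn : N0 ≤ Fintype.card α)
    (hJ : 2 * (m * k) * (m * k) ≤ Fintype.card α) :
    ((univ.filter (fun p : Equiv.Perm α × Equiv.Perm α => g0 ≤ (cyc p.1 x0).card ∧
      g0 ≤ (cyc (p.1 * p.2 ^ k) x0).card)).card : ℝ)
      ≤ ((Fintype.card α).factorial : ℝ) ^ 2
        * ((N0 : ℝ) / Fintype.card α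
          + (Fintype.card α / ((b : ℝ) + 1)) * (2 * (1 - (N0 : ℝ) / Fintype.card α) ^ m
            + 2 * ((m * k : ℕ) : ℝ) ^ 2 / Fintype.card α)
          + (((Fintype.card α + 1 - g0 : ℕ) : ℝ) / Fintype.card α)
            * (((Fintype.card α - g0 : ℕ) : ℝ) / (Fintype.card α - b : ℕ) + κ + 1 / N0
              + (m + 1 : ℕ) / ((Fintype.card α - b : ℕ) * κ ^ 2))) := by
  classical
  set n := Fintype.card α with hnd
  have hn : 0 < n := by omega
  have hnR : (0 : ℝ) < n := by exact_mod_cast hn
  set e0 : ℝ := 2 * (1 - (N0 : ℝ) / n) ^ m + 2 * ((m * k : ℕ) : ℝ) ^ 2 / n with he0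
  set t : ℝ := ((n - g0 : ℕ) : ℝ) / (n - b : ℕ) + κ + 1 / N0
              + (m + 1 : ℕ) / ((n - b : ℕ) * κ ^ 2) with ht
  have hfac : (n.factorial : ℝ) = n * ((n - 1).factorial : ℝ) := factorial_eq hn
  have hfpos : (0 : ℝ) < (n.factorial : ℝ) := by positivity
  have hf1pos : (0 : ℝ) < ((n - 1).factorial : ℝ) := by positivity
  have hcardP : ((univ : Finset (Equiv.Perm α)).card : ℝ) = n.factorial := by
    rw [card_univ, Fintype.card_perm]
  set A1 := univ.filter (fun p : Equiv.Perm α × Equiv.Perm α => (cyc p.1 x0)ᶜ.card < N0) with hA1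
  set A2 := univ.filter (fun p : Equiv.Perm α × Equiv.Perm α => N0 ≤ (cyc p.1 x0)ᶜ.card ∧
    b < badB (p.1 * p.2 ^ k) (cyc p.1 x0)ᶜ (m + 1)) with hA2
  set A3 := univ.filter (fun p : Equiv.Perm α × Equiv.Perm α => g0 ≤ (cyc p.1 x0).card ∧
    N0 ≤ (cyc p.1 x0)ᶜ.card ∧ badB (p.1 * p.2 ^ k) (cyc p.1 x0)ᶜ (m + 1) ≤ b ∧
    g0 ≤ (cyc (p.1 * p.2 ^ k) x0).card) with hA3
  have hsub : univ.filter (fun p : Equiv.Perm α × Equiv.Perm α => g0 ≤ (cyc p.1 x0).card ∧
      g0 ≤ (cyc (p.1 * p.2 ^ k) x0).card) ⊆ A1 ∪ A2 ∪ A3 := by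
    intro p hp
    rw [mem_filter] at hp
    rw [mem_union, mem_union, hA1, hA2, hA3, mem_filter, mem_filter, mem_filter]
    by_cases h1 : (cyc p.1 x0)ᶜ.card < N0
    · exact Or.inl (Or.inl ⟨mem_univ _, h1⟩)
    · by_cases h2 : b < badB (p.1 * p.2 ^ k) (cyc p.1 x0)ᶜ (m + 1)
      · exact Or.inl (Or.inr ⟨mem_univ _, not_lt.mp h1, h2⟩)
      · exact Or.inr ⟨mem_univ _, hp.2.1, not_lt.mp h1, not_lt.mp h2, hp.2.2⟩
  have hcard : ((univ.filter (fun p : Equiv.Perm α × Equiv.Perm α => g0 ≤ (cyc p.1 x0).card ∧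
      g0 ≤ (cyc (p.1 * p.2 ^ k) x0).card)).card : ℝ) ≤ (A1.card : ℝ) + A2.card + A3.card := by
    have h1 := (card_le_card hsub).trans
      ((card_union_le _ _).trans (Nat.add_le_add_right (card_union_le _ _) _))
    exact_mod_cast h1
  -- part 1
  have hp1 : (A1.card : ℝ) ≤ (n.factorial : ℝ) ^ 2 * ((N0 : ℝ) / n) := by
    rw [hA1, card_prod_filter']
    have h1 : ∀ y ∈ (univ : Finset (Equiv.Perm α)),
        ((univ.filter (fun s : Equiv.Perm α => (cyc (s, y).1 x0)ᶜ.card < N0)).card : ℝ)
        ≤ N0 * ((n - 1).factorial : ℝ) := by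
      intro y _
      have h2 := card_cyc_mem x0 (Icc (n + 1 - N0) n) (by
        intro l hl
        rw [mem_Icc] at hl
        omega)
      have h3 : (univ.filter (fun s : Equiv.Perm α => (cyc (s, y).1 x0)ᶜ.card < N0)).card
          ≤ (univ.filter (fun s : Equiv.Perm α =>
            (cyc s x0).card ∈ Icc (n + 1 - N0) n)).card := by
        apply card_le_card
        intro s hs
        rw [mem_filter] at hs ⊢
        refine ⟨mem_univ _, ?_⟩
        have h4 := hs.2
        simp only [card_compl] at h4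
        have h5 : (cyc s x0).card ≤ Fintype.card α := card_le_univ _
        rw [mem_Icc]
        omega
      rw [h2, Nat.card_Icc] at h3
      have h4 : n + 1 - (n + 1 - N0) = N0 := by omega
      rw [h4] at h3
      exact_mod_cast h3
    refine (sum_le_sum h1).trans ?_
    rw [sum_const, nsmul_eq_mul, hcardP]
    apply le_of_eq
    rw [sq, hfac]
    field_simp
  -- part 2
  have hp2 : (A2.card : ℝ) ≤ (n.factorial : ℝ) ^ 2 * ((n / ((b : ℝ) + 1)) * e0) := by
    rw [hA2, card_prod_filter]
    have h1 : ∀ s ∈ (univ : Finset (Equiv.Perm α)),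
        ((univ.filter (fun y : Equiv.Perm α => N0 ≤ (cyc (s, y).1 x0)ᶜ.card ∧
          b < badB ((s, y).1 * (s, y).2 ^ k) (cyc (s, y).1 x0)ᶜ (m + 1))).card : ℝ)
        ≤ (n.factorial : ℝ) * ((n / ((b : ℝ) + 1)) * e0) := by
      intro s _
      simp only
      by_cases hN : N0 ≤ (cyc s x0)ᶜ.card
      · simp only [hN, true_and]
        set R := (cyc s x0)ᶜ with hR
        have h2 := sum_badB_le s k m hk R hJ hn
        have hRn : (R.card : ℝ) ≤ n := by exact_mod_cast card_le_univ R
        have h3 : ((univ.filter (fun y : Equiv.Perm α =>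
            b < badB (s * y ^ k) R (m + 1))).card : ℝ) * ((b : ℝ) + 1)
            ≤ ∑ y : Equiv.Perm α, (badB (s * y ^ k) R (m + 1) : ℝ) := by
          calc ((univ.filter (fun y : Equiv.Perm α =>
            b < badB (s * y ^ k) R (m + 1))).card : ℝ) * ((b : ℝ) + 1)
              = ∑ y ∈ univ.filter (fun y : Equiv.Perm α =>
                b < badB (s * y ^ k) R (m + 1)), ((b : ℝ) + 1) := by
                rw [sum_const, nsmul_eq_mul]
            _ ≤ ∑ y ∈ univ.filter (fun y : Equiv.Perm α =>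
                b < badB (s * y ^ k) R (m + 1)), (badB (s * y ^ k) R (m + 1) : ℝ) := by
                apply sum_le_sum
                intro y hy
                rw [mem_filter] at hy
                have : b + 1 ≤ badB (s * y ^ k) R (m + 1) := hy.2
                exact_mod_cast this
            _ ≤ _ := by
                apply sum_le_univ_sum_of_nonneg
                intro y
                positivity
        have h4 : (2 * (1 - (R.card : ℝ) / n) ^ m + 2 * ((m * k : ℕ) : ℝ) ^ 2 / n) ≤ e0 := by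
          rw [he0]
          have h5 : (1 - (R.card : ℝ) / n) ^ m ≤ (1 - (N0 : ℝ) / n) ^ m := by
            apply pow_le_pow_left₀
            · rw [sub_nonneg, div_le_one hnR]
              exact hRn
            · have : (N0 : ℝ) / n ≤ (R.card : ℝ) / n := by
                apply div_le_div_of_nonneg_right _ hnR.le
                exact_mod_cast hN
              linarith
          linarith
        have h5 : (0 : ℝ) < (b : ℝ) + 1 := by positivity
        have h6 : ((univ.filter (fun y : Equiv.Perm α =>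
            b < badB (s * y ^ k) R (m + 1))).card : ℝ) * ((b : ℝ) + 1)
            ≤ (n.factorial : ℝ) * n * e0 :=
          h3.trans (h2.trans (mul_le_mul_of_nonneg_left h4 (by positivity)))
        have h7 : (n.factorial : ℝ) * ((n / ((b : ℝ) + 1)) * e0)
            = (n.factorial : ℝ) * n * e0 / ((b : ℝ) + 1) := by ring
        rw [h7, le_div_iff₀ h5]
        exact h6
      · simp only [hN, false_and, filter_false, card_empty, Nat.cast_zero]
        have h8 : (0 : ℝ) ≤ e0 := by
          rw [he0]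
          have : (0 : ℝ) ≤ (1 - (N0 : ℝ) / n) ^ m := by
            apply pow_nonneg
            rw [sub_nonneg, div_le_one hnR]
            exact_mod_cast hNn
          positivity
        positivity
    refine (sum_le_sum h1).trans ?_
    rw [sum_const, nsmul_eq_mul, hcardP]
    apply le_of_eq
    ring
  -- part 3
  have hp3 : (A3.card : ℝ) ≤ (n.factorial : ℝ) ^ 2 * ((((n + 1 - g0 : ℕ) : ℝ) / n) * t) := by
    rw [hA3, card_prod_filter']
    have ht0 : 0 ≤ t := by rw [ht]; positivity
    have h1 : ∀ y ∈ (univ : Finset (Equiv.Perm α)),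
        ((univ.filter (fun s : Equiv.Perm α => g0 ≤ (cyc (s, y).1 x0).card ∧
          N0 ≤ (cyc (s, y).1 x0)ᶜ.card ∧
          badB ((s, y).1 * (s, y).2 ^ k) (cyc (s, y).1 x0)ᶜ (m + 1) ≤ b ∧
          g0 ≤ (cyc ((s, y).1 * (s, y).2 ^ k) x0).card)).card : ℝ)
        ≤ (((n + 1 - g0 : ℕ) : ℝ) * ((n - 1).factorial : ℝ)) * t := by
      intro y _
      simp only
      -- partition according to the complement of the cycle
      set T : Finset (Finset α) := univ.filter (fun R => g0 ≤ Rᶜ.card ∧ N0 ≤ R.card) with hT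
      have h2 : (univ.filter (fun s : Equiv.Perm α => g0 ≤ (cyc s x0).card ∧
          N0 ≤ (cyc s x0)ᶜ.card ∧
          badB (s * y ^ k) (cyc s x0)ᶜ (m + 1) ≤ b ∧
          g0 ≤ (cyc (s * y ^ k) x0).card))
          ⊆ T.biUnion (fun R => univ.filter (fun s : Equiv.Perm α => cyc s x0 = Rᶜ ∧
            badB (s * y ^ k) R (m + 1) ≤ b ∧ g0 ≤ (cyc (s * y ^ k) x0).card)) := by
        intro s hs
        rw [mem_filter] at hs
        rw [mem_biUnion]
        refine ⟨(cyc s x0)ᶜ, ?_, ?_⟩
        · rw [hT, mem_filter, compl_compl]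
          exact ⟨mem_univ _, hs.2.1, hs.2.2.1⟩
        · rw [mem_filter, compl_compl]
          exact ⟨mem_univ _, rfl, hs.2.2.2.1, hs.2.2.2.2⟩
      have h3 : ((univ.filter (fun s : Equiv.Perm α => g0 ≤ (cyc s x0).card ∧
          N0 ≤ (cyc s x0)ᶜ.card ∧
          badB (s * y ^ k) (cyc s x0)ᶜ (m + 1) ≤ b ∧
          g0 ≤ (cyc (s * y ^ k) x0).card)).card : ℝ)
          ≤ ∑ R ∈ T, ((univ.filter (fun s : Equiv.Perm α => cyc s x0 = Rᶜ ∧
            badB (s * y ^ k) R (m + 1) ≤ b ∧ g0 ≤ (cyc (s * y ^ k) x0).card)).card : ℝ) := by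
        exact_mod_cast (card_le_card h2).trans card_biUnion_le
      have h4 : ∀ R ∈ T, ((univ.filter (fun s : Equiv.Perm α => cyc s x0 = Rᶜ ∧
            badB (s * y ^ k) R (m + 1) ≤ b ∧ g0 ≤ (cyc (s * y ^ k) x0).card)).card : ℝ)
          ≤ t * ((univ.filter (fun s : Equiv.Perm α => cyc s x0 = Rᶜ)).card : ℝ) := by
        intro R hR
        rw [hT, mem_filter] at hR
        apply card_class_le x0 (y ^ k) R (by omega) g0 (m + 1) b hb hbn κ hκ
        rw [ht]
        have hRpos : (0 : ℝ) < N0 := by exact_mod_cast hN0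
        have h5 : (1 : ℝ) / R.card ≤ 1 / N0 := by
          apply one_div_le_one_div_of_le hRpos
          exact_mod_cast hR.2.2
        linarith
      have h5 : ∑ R ∈ T, ((univ.filter (fun s : Equiv.Perm α => cyc s x0 = Rᶜ)).card : ℝ)
          ≤ ((n + 1 - g0 : ℕ) : ℝ) * ((n - 1).factorial : ℝ) := by
        have h6 : ∑ R ∈ T, (univ.filter (fun s : Equiv.Perm α => cyc s x0 = Rᶜ)).card
            ≤ (univ.filter (fun s : Equiv.Perm α => g0 ≤ (cyc s x0).card)).card := by
          rw [← card_biUnion]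
          · apply card_le_card
            intro s hs
            rw [mem_biUnion] at hs
            obtain ⟨R, hR, hs⟩ := hs
            rw [hT, mem_filter] at hR
            rw [mem_filter] at hs ⊢
            refine ⟨mem_univ _, ?_⟩
            rw [hs.2]
            exact hR.2.1
          · intro R _ R' _ hRR
            rw [Function.onFun, disjoint_left]
            intro s h1 h2
            rw [mem_filter] at h1 h2
            exact hRR (compl_injective (h1.2.symm.trans h2.2))
        rw [card_cyc_ge x0 g0 hg0] at h6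
        exact_mod_cast h6
      refine h3.trans ((sum_le_sum h4).trans ?_)
      rw [← mul_sum, mul_comm]
      exact mul_le_mul_of_nonneg_right h5 ht0
    refine (sum_le_sum h1).trans ?_
    rw [sum_const, nsmul_eq_mul, hcardP]
    apply le_of_eq
    rw [sq, hfac]
    field_simp
  rw [mul_add, mul_add]
  linarith

end

end Pool.MP99279c.AA
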