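import Pool.Agent.Work.MP_99279c_al.AA.Sample

/-!
# Re-randomising a permutation on a set `R`: the cycle structure through the first return map
-/

set_option autoImplicit false
set_option linter.unusedSectionVars false

namespace Pool.MP99279c.AA

open Finset Function

section

variable {α : Type} [Fintype α] [DecidableEq α] (g : Equiv.Perm α) (R : Finset α)

/-- the backward orbit of `z` meets `R` -/
def hit (z : α) : Prop := ∃ l : ℕ, ((g⁻¹) ^ l) z ∈ R

open Classical in
/-- the first time the backward orbit of `z` meets `R` -/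
noncomputable def bt (z : α) : ℕ := if h : hit g R z then Nat.find h else 0

/-- the first point of `R` in the backward orbit -/
noncomputable def rr (z : α) : α := ((g⁻¹) ^ (bt g R z)) z

variable {g R}

theorem rr_mem {z : α} (h : hit g R z) : rr g R z ∈ R := by
  classical
  unfold rr bt
  rw [dif_pos h]
  exact Nat.find_spec h

theorem bt_min {z : α} {l : ℕ} (hl : l < bt g R z) : ((g⁻¹) ^ l) z ∉ R := by
  classical
  unfold bt at hl
  by_cases h : hit g R z
  · rw [dif_pos h] at hl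
    exact Nat.find_min h hl
  · rw [dif_neg h] at hl
    omega

theorem bt_le {z : α} {l : ℕ} (h : ((g⁻¹) ^ l) z ∈ R) : bt g R z ≤ l := by
  by_contra hc
  exact bt_min (not_le.mp hc) h

theorem hit_of_mem {z : α} (h : z ∈ R) : hit g R z := ⟨0, by simpa using h⟩

theorem bt_of_mem {z : α} (h : z ∈ R) : bt g R z = 0 := by
  have := bt_le (g := g) (R := R) (z := z) (l := 0) (by simpa using h)
  omega

theorem rr_of_mem {z : α} (h : z ∈ R) : rr g R z = z := by
  unfold rr
  rw [bt_of_mem h]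
  simp

theorem hit_of_hit_inv {z : α} (h : hit g R (g⁻¹ z)) : hit g R z := by
  obtain ⟨l, hl⟩ := h
  exact ⟨l + 1, by rwa [pow_succ, Equiv.Perm.mul_apply]⟩

theorem hit_inv {z : α} (h : hit g R z) : hit g R (g⁻¹ z) := by
  obtain ⟨l, hl⟩ := h
  rcases Nat.eq_zero_or_pos l with h0 | h0
  · subst h0
    refine ⟨orderOf g - 1, ?_⟩
    rw [← Equiv.Perm.mul_apply, ← pow_succ, Nat.sub_add_cancel (orderOf_pos g), inv_pow,
      pow_orderOf_eq_one, inv_one]
    simpa using hl
  · refine ⟨l - 1, ?_⟩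
    rwa [← Equiv.Perm.mul_apply, ← pow_succ, Nat.sub_add_cancel h0]

theorem rr_inv {z : α} (h : hit g R z) (hz : z ∉ R) : rr g R (g⁻¹ z) = rr g R z := by
  have h' := hit_inv h
  have e : bt g R z = bt g R (g⁻¹ z) + 1 := by
    apply le_antisymm
    · apply bt_le
      rw [pow_succ, Equiv.Perm.mul_apply]
      exact rr_mem h'
    · rcases Nat.eq_zero_or_pos (bt g R z) with h0 | h0
      · exfalso
        apply hz
        have := rr_mem h
        unfold rr at this
        rw [h0] at this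
        simpa using this
      · have : bt g R (g⁻¹ z) ≤ bt g R z - 1 := by
          apply bt_le
          rw [← Equiv.Perm.mul_apply, ← pow_succ, Nat.sub_add_cancel h0]
          exact rr_mem h
        omega
  unfold rr
  rw [e, pow_succ, Equiv.Perm.mul_apply]

theorem hit_inv_of_mem (r : R) : hit g R (g⁻¹ r) := hit_inv (hit_of_mem r.2)

variable (g R)

/-- the inverse of the first return map of `g` on `R` -/
noncomputable def bmap (r : R) : R := ⟨rr g R (g⁻¹ r), rr_mem (hit_inv_of_mem r)⟩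

theorem bmap_aux {r r' : R} (h : (bmap g R r : α) = bmap g R r')
    (hle : bt g R (g⁻¹ (r : α)) ≤ bt g R (g⁻¹ (r' : α))) : r = r' := by
  unfold bmap rr at h
  simp only at h
  set a := bt g R (g⁻¹ (r : α)) with ha
  set b := bt g R (g⁻¹ (r' : α)) with hb
  obtain ⟨c, hc⟩ : ∃ c, b = c + a := ⟨b - a, by omega⟩
  rw [hc, Nat.add_comm, pow_add, Equiv.Perm.mul_apply] at h
  have h1 : g⁻¹ (r : α) = ((g⁻¹) ^ c) (g⁻¹ (r' : α)) := ((g⁻¹) ^ a).injective h
  rcases Nat.eq_zero_or_pos c with h0 | h0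
  · rw [h0] at h1
    simp only [pow_zero, Equiv.Perm.one_apply] at h1
    exact Subtype.ext ((g⁻¹).injective h1)
  · exfalso
    have h2 : (r : α) = ((g⁻¹) ^ (c - 1)) (g⁻¹ (r' : α)) := by
      apply (g⁻¹).injective
      rw [h1, ← Equiv.Perm.mul_apply (g⁻¹) ((g⁻¹) ^ (c - 1)), ← pow_succ', Nat.sub_add_cancel h0]
    have h3 : ((g⁻¹) ^ (c - 1)) (g⁻¹ (r' : α)) ∈ R := h2 ▸ r.2
    have h4 := bt_le h3
    rw [← hb] at h4
    omega

theorem bmap_injective : Function.Injective (bmap g R) := by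
  intro r r' h
  rcases le_total (bt g R (g⁻¹ (r : α))) (bt g R (g⁻¹ (r' : α))) with hle | hle
  · exact bmap_aux g R (congrArg Subtype.val h) hle
  · exact (bmap_aux g R (congrArg Subtype.val h.symm) hle).symm

/-- the inverse first return map as a permutation of `R` -/
noncomputable def bperm : Equiv.Perm R :=
  Equiv.ofBijective (bmap g R) (Finite.injective_iff_bijective.mp (bmap_injective g R))

/-- weights of the blocks: points at backward distance less than `m` -/
noncomputable def wt (m : ℕ) (q : R) : ℕ := by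
  classical
  exact (univ.filter (fun z : α => hit g R z ∧ bt g R z < m ∧ rr g R z = q)).card

theorem wt_le (m : ℕ) (q : R) : wt g R m q ≤ m := by
  classical
  unfold wt
  conv_rhs => rw [← card_range m]
  apply card_le_card_of_injOn (fun z => bt g R z)
  · intro z hz
    rw [mem_coe, mem_filter] at hz
    rw [mem_coe, mem_range]
    exact hz.2.2.1
  · intro z hz z' hz' hzz
    rw [mem_coe, mem_filter] at hz hz'
    have h1 := hz.2.2.2
    have h2 := hz'.2.2.2
    unfold rr at h1 h2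
    simp only at hzz
    rw [hzz, ← h2] at h1
    exact ((g⁻¹) ^ (bt g R z')).injective h1

/-- number of points whose backward orbit avoids `R` for `m` steps -/
noncomputable def badB (m : ℕ) : ℕ := by
  classical
  exact (univ.filter (fun z : α => ∀ l < m, ((g⁻¹) ^ l) z ∉ R)).card

theorem sum_wt (m : ℕ) : ∑ q, wt g R m q = Fintype.card α - badB g R m := by
  classical
  have h1 : ∑ q, wt g R m q
      = (univ.filter (fun z : α => hit g R z ∧ bt g R z < m)).card := by
    unfold wt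
    rw [← card_biUnion]
    · congr 1
      ext z
      rw [mem_biUnion, mem_filter]
      constructor
      · rintro ⟨q, _, hq⟩
        rw [mem_filter] at hq
        exact ⟨mem_univ _, hq.2.1, hq.2.2.1⟩
      · rintro ⟨_, h, h'⟩
        exact ⟨⟨rr g R z, rr_mem h⟩, mem_univ _, by
          rw [mem_filter]; exact ⟨mem_univ _, h, h', rfl⟩⟩
    · intro q _ q' _ hqq
      rw [Function.onFun, disjoint_left]
      intro z h1 h2
      rw [mem_filter] at h1 h2
      exact hqq (Subtype.ext (h1.2.2.2.symm.trans h2.2.2.2))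
  rw [h1]
  unfold badB
  have h2 : univ.filter (fun z : α => hit g R z ∧ bt g R z < m)
      = (univ.filter (fun z : α => ∀ l < m, ((g⁻¹) ^ l) z ∉ R))ᶜ := by
    ext z
    rw [mem_filter, mem_compl, mem_filter]
    constructor
    · rintro ⟨_, h, h'⟩ ⟨_, h''⟩
      exact h'' _ h' (rr_mem h)
    · intro h
      push Not at h
      obtain ⟨l, hl, hl'⟩ := h (mem_univ _)
      exact ⟨mem_univ _, ⟨l, hl'⟩, lt_of_le_of_lt (bt_le hl') hl⟩
  rw [h2, card_compl]

variable {g R}

theorem ofSubtype_inv_notMem (ρ : Equiv.Perm R) {z : α} (hz : z ∉ R) :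
    ((Equiv.Perm.ofSubtype ρ : Equiv.Perm α))⁻¹ z = z := by
  rw [Equiv.Perm.inv_eq_iff_eq]
  exact (Equiv.Perm.ofSubtype_apply_of_not_mem ρ hz).symm

theorem ofSubtype_inv_mem (ρ : Equiv.Perm R) (z : R) :
    ((Equiv.Perm.ofSubtype ρ : Equiv.Perm α))⁻¹ z = (ρ⁻¹ z : R) := by
  rw [← map_inv]
  exact Equiv.Perm.ofSubtype_apply_coe ρ⁻¹ z

/-- structure of the cycles of `ρ g` -/
theorem rr_mem_cyc (ρ : Equiv.Perm R) {x0 : α} (hx0 : hit g R x0) {z : α}
    (hz : z ∈ cyc (Equiv.Perm.ofSubtype ρ * g) x0) :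
    ∃ h : hit g R z, (⟨rr g R z, rr_mem h⟩ : R) ∈ cyc (ρ * (bperm g R)⁻¹) ⟨rr g R x0, rr_mem hx0⟩ := by
  classical
  set U : Finset α := univ.filter (fun z => ∃ h : hit g R z,
    (⟨rr g R z, rr_mem h⟩ : R) ∈ cyc (ρ * (bperm g R)⁻¹) ⟨rr g R x0, rr_mem hx0⟩) with hU
  have h1 : cyc (Equiv.Perm.ofSubtype ρ * g) x0 ⊆ U := by
    apply cyc_subset_inv
    · rw [hU, mem_filter]
      exact ⟨mem_univ _, hx0, self_mem_cyc _ _⟩
    · intro z hz
      rw [hU, mem_filter] at hz ⊢
      obtain ⟨_, hh, hm⟩ := hz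
      refine ⟨mem_univ _, ?_⟩
      rw [mul_inv_rev, Equiv.Perm.mul_apply]
      by_cases hzR : z ∈ R
      · have e1 := ofSubtype_inv_mem ρ ⟨z, hzR⟩
        simp only at e1
        rw [e1]
        refine ⟨hit_inv_of_mem _, ?_⟩
        have e2 : (⟨rr g R (g⁻¹ (ρ⁻¹ ⟨z, hzR⟩ : R)), rr_mem (hit_inv_of_mem _)⟩ : R)
            = (ρ * (bperm g R)⁻¹)⁻¹ ⟨z, hzR⟩ := by
          rw [mul_inv_rev, inv_inv, Equiv.Perm.mul_apply]
          rfl
        rw [e2]
        apply inv_apply_mem_cyc
        have e3 : (⟨rr g R z, rr_mem hh⟩ : R) = ⟨z, hzR⟩ := Subtype.ext (rr_of_mem hzR)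
        rwa [e3] at hm
      · rw [ofSubtype_inv_notMem ρ hzR]
        refine ⟨hit_inv hh, ?_⟩
        have e3 : (⟨rr g R (g⁻¹ z), rr_mem (hit_inv hh)⟩ : R) = ⟨rr g R z, rr_mem hh⟩ :=
          Subtype.ext (rr_inv hh hzR)
        rwa [e3]
  have h2 := h1 hz
  rw [hU, mem_filter] at h2
  exact h2.2

/-- the weight missed by the block cycle is at most the number of points missed -/
theorem sum_wt_le (m : ℕ) (ρ : Equiv.Perm R) {x0 : α} (hx0 : hit g R x0) :
    ∑ q, (if q ∈ cyc (ρ * (bperm g R)⁻¹) ⟨rr g R x0, rr_mem hx0⟩ then 0 else wt g R m q)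
      ≤ Fintype.card α - (cyc (Equiv.Perm.ofSubtype ρ * g) x0).card := by
  classical
  rw [← card_compl]
  have h1 : ∑ q, (if q ∈ cyc (ρ * (bperm g R)⁻¹) ⟨rr g R x0, rr_mem hx0⟩ then 0 else wt g R m q)
      = ∑ q ∈ (cyc (ρ * (bperm g R)⁻¹) ⟨rr g R x0, rr_mem hx0⟩)ᶜ, wt g R m q := by
    rw [← sum_filter_add_sum_filter_not univ
      (fun q => q ∈ cyc (ρ * (bperm g R)⁻¹) ⟨rr g R x0, rr_mem hx0⟩)]
    have e1 : ∑ q ∈ univ.filter (fun q => q ∈ cyc (ρ * (bperm g R)⁻¹) ⟨rr g R x0, rr_mem hx0⟩),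
        (if q ∈ cyc (ρ * (bperm g R)⁻¹) ⟨rr g R x0, rr_mem hx0⟩ then 0 else wt g R m q) = 0 := by
      apply sum_eq_zero
      intro q hq
      rw [mem_filter] at hq
      rw [if_pos hq.2]
    rw [e1, zero_add]
    have e2 : univ.filter (fun q => ¬ q ∈ cyc (ρ * (bperm g R)⁻¹) ⟨rr g R x0, rr_mem hx0⟩)
        = (cyc (ρ * (bperm g R)⁻¹) ⟨rr g R x0, rr_mem hx0⟩)ᶜ := by
      ext q
      rw [mem_filter, mem_compl]
      exact ⟨fun h => h.2, fun h => ⟨mem_univ _, h⟩⟩
    rw [e2]
    apply sum_congr rfl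
    intro q hq
    rw [mem_compl] at hq
    rw [if_neg hq]
  rw [h1]
  unfold wt
  rw [← card_biUnion]
  · apply card_le_card
    intro z hz
    rw [mem_biUnion] at hz
    obtain ⟨q, hq, hz⟩ := hz
    rw [mem_filter] at hz
    rw [mem_compl] at hq ⊢
    intro hc
    obtain ⟨hh, hm⟩ := rr_mem_cyc ρ hx0 hc
    apply hq
    have : q = ⟨rr g R z, rr_mem hh⟩ := Subtype.ext hz.2.2.2.symm
    rwa [this]
  · intro q _ q' _ hqq
    rw [Function.onFun, disjoint_left]
    intro z h1 h2
    rw [mem_filter] at h1 h2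
    exact hqq (Subtype.ext (h1.2.2.2.symm.trans h2.2.2.2))

/-- if the cycle is long then its points meet `R` -/
theorem hit_of_long (m : ℕ) (ρ : Equiv.Perm R) {x0 : α}
    (h : badB g R m < (cyc (Equiv.Perm.ofSubtype ρ * g) x0).card) : hit g R x0 := by
  classical
  by_contra hx0
  have h1 : cyc (Equiv.Perm.ofSubtype ρ * g) x0 ⊆ univ.filter (fun z => ¬ hit g R z) := by
    apply cyc_subset_inv
    · rw [mem_filter]
      exact ⟨mem_univ _, hx0⟩
    · intro z hz
      rw [mem_filter] at hz ⊢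
      refine ⟨mem_univ _, fun hc => hz.2 ?_⟩
      have hzR : z ∉ R := fun h => hz.2 (hit_of_mem h)
      rw [mul_inv_rev, Equiv.Perm.mul_apply, ofSubtype_inv_notMem ρ hzR] at hc
      exact hit_of_hit_inv hc
  have h2 : (univ.filter (fun z => ¬ hit g R z)).card ≤ badB g R m := by
    unfold badB
    apply card_le_card
    intro z hz
    rw [mem_filter] at hz ⊢
    exact ⟨mem_univ _, fun l _ hl => hz.2 ⟨l, hl⟩⟩
  have h3 := card_le_card h1
  omega

/-- Number of `ρ` in `Sym(R)` such that the cycle of `x0` under `ρ g` has length at least `g0`. -/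
theorem card_rho_le (m g0 : ℕ) (x0 : α) (hR : 0 < R.card) (hB : badB g R m < g0)
    (hBn : badB g R m < Fintype.card α) (κ : ℝ) (hκ : 0 < κ) :
    ((univ.filter (fun ρ : Equiv.Perm R =>
      g0 ≤ (cyc (Equiv.Perm.ofSubtype ρ * g) x0).card)).card : ℝ)
      ≤ (R.card.factorial : ℝ)
        * (((Fintype.card α - g0 : ℕ) : ℝ) / (Fintype.card α - badB g R m : ℕ) + κ + 1 / R.card
          + m / ((Fintype.card α - badB g R m : ℕ) * κ ^ 2)) := by
  classical
  by_cases hx0 : hit g R x0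
  · have h1 := card_light_le (⟨rr g R x0, rr_mem hx0⟩ : R) (wt g R m) m (Fintype.card α - g0)
      (wt_le g R m) (by rw [sum_wt]; omega) κ hκ
    rw [sum_wt, Fintype.card_coe] at h1
    refine le_trans ?_ h1
    have h2 : (univ.filter (fun ρ : Equiv.Perm R =>
        g0 ≤ (cyc (Equiv.Perm.ofSubtype ρ * g) x0).card)).card
        ≤ (univ.filter (fun P : Equiv.Perm R =>
          ∑ q, (if q ∈ cyc P ⟨rr g R x0, rr_mem hx0⟩ then 0 else wt g R m q)
            ≤ Fintype.card α - g0)).card := by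
      apply card_le_card_of_injOn (fun ρ => ρ * (bperm g R)⁻¹)
      · intro ρ hρ
        rw [mem_coe, mem_filter] at hρ
        rw [mem_coe, mem_filter]
        refine ⟨mem_univ _, (sum_wt_le m ρ hx0).trans ?_⟩
        omega
      · intro ρ _ ρ' _ h
        exact mul_right_cancel h
    exact_mod_cast h2
  · have h1 : univ.filter (fun ρ : Equiv.Perm R =>
        g0 ≤ (cyc (Equiv.Perm.ofSubtype ρ * g) x0).card) = ∅ := by
      apply filter_false_of_mem
      intro ρ _ h
      exact hx0 (hit_of_long m ρ (lt_of_lt_of_le hB h))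
    rw [h1, card_empty, Nat.cast_zero]
    positivity

end

end Pool.MP99279c.AA
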