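import Pool.Agent.Work.MP_99279c_al.AA.Unif

/-!
# Second moment for the cycle of a point of a random permutation
-/

set_option autoImplicit false

namespace Pool.MP99279c.AA

open Finset Function

section

variable {β : Type} [Fintype β] [DecidableEq β]

theorem conj_mem_cyc (k P : Equiv.Perm β) (r q : β) (hr : k r = r) :
    k q ∈ cyc (k * P * k⁻¹) r ↔ q ∈ cyc P r := by
  rw [mem_cyc, mem_cyc]
  have h : ∀ i : ℕ, ((k * P * k⁻¹) ^ i) r = k ((P ^ i) r) := by
    intro i
    rw [conj_pow, Equiv.Perm.mul_apply, Equiv.Perm.mul_apply]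
    congr 2
    rw [Equiv.Perm.inv_eq_iff_eq]
    exact hr.symm
  constructor
  · rintro ⟨i, hi⟩
    rw [h i] at hi
    exact ⟨i, k.injective hi⟩
  · rintro ⟨i, hi⟩
    exact ⟨i, by rw [h i, hi]⟩

/-- number of permutations whose cycle of `r` avoids `q` and `q'` -/
noncomputable def cc (r q q' : β) : ℕ :=
  (univ.filter (fun P : Equiv.Perm β => q ∉ cyc P r ∧ q' ∉ cyc P r)).card

theorem cc_conj (k : Equiv.Perm β) (r q q' : β) (hr : k r = r) : cc r (k q) (k q') = cc r q q' := by
  unfold cc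
  symm
  apply Finset.card_equiv (MulAut.conj k).toEquiv
  intro P
  rw [mem_filter, mem_filter]
  simp only [MulEquiv.toEquiv_eq_coe, MulEquiv.coe_toEquiv, MulAut.conj_apply, mem_univ, true_and]
  rw [conj_mem_cyc k P r q hr, conj_mem_cyc k P r q' hr]

theorem cc_const (r q0 q1 q q' : β) (h01 : q0 ≠ q1) (h0 : q0 ≠ r) (h1 : q1 ≠ r) (hqq : q ≠ q')
    (hq : q ≠ r) (hq' : q' ≠ r) : cc r q q' = cc r q0 q1 := by
  set k1 : Equiv.Perm β := Equiv.swap q0 q with hk1
  have e1 : k1 q0 = q := Equiv.swap_apply_left _ _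
  have e2 : k1 r = r := Equiv.swap_apply_of_ne_of_ne h0.symm hq.symm
  have e3 : k1 q1 ≠ q := by
    intro h
    rw [← e1] at h
    exact h01 (k1.injective h).symm
  have e4 : k1 q1 ≠ r := by
    intro h
    rw [← e2] at h
    exact h1 (k1.injective h)
  set k2 : Equiv.Perm β := Equiv.swap (k1 q1) q' with hk2
  have e5 : k2 q = q := Equiv.swap_apply_of_ne_of_ne e3.symm hqq
  have e6 : k2 r = r := Equiv.swap_apply_of_ne_of_ne e4.symm hq'.symm
  have e7 : k2 (k1 q1) = q' := Equiv.swap_apply_left _ _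
  have := cc_conj (k2 * k1) r q0 q1 (by rw [Equiv.Perm.mul_apply, e2, e6])
  rw [Equiv.Perm.mul_apply, Equiv.Perm.mul_apply, e1, e5, e7] at this
  exact this

theorem cc_le (r q q' : β) : cc r q q' ≤ (Fintype.card β).factorial := by
  rw [← Fintype.card_perm, ← card_univ]
  exact card_le_card (fun _ _ => mem_univ _)

theorem cc_le_diag (r q q' : β) : cc r q q' ≤ cc r q q := by
  apply card_le_card
  intro P hP
  rw [mem_filter] at hP ⊢
  exact ⟨hP.1, hP.2.1, hP.2.1⟩

theorem cc_left (r q : β) : cc r r q = 0 := by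
  unfold cc
  rw [card_eq_zero]
  apply filter_false_of_mem
  intro P _ h
  exact h.1 (self_mem_cyc P r)

theorem cc_comm (r q q' : β) : cc r q q' = cc r q' q := by
  unfold cc
  congr 1
  ext P
  rw [mem_filter, mem_filter, and_comm (a := q ∉ cyc P r)]

theorem second_moment (r : β) (a : β → ℝ) (ha : ∑ q, a q = 0) :
    ∑ P : Equiv.Perm β, (∑ q, if q ∈ cyc P r then 0 else a q) ^ 2
      ≤ ((Fintype.card β).factorial : ℝ) * ∑ q, a q ^ 2 := by
  classical
  -- expand
  have h1 : ∑ P : Equiv.Perm β, (∑ q, if q ∈ cyc P r then 0 else a q) ^ 2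
      = ∑ q, ∑ q', a q * a q' * (cc r q q' : ℝ) := by
    have e : ∀ P : Equiv.Perm β, (∑ q, if q ∈ cyc P r then 0 else a q) ^ 2
        = ∑ q, ∑ q', a q * a q' * (if q ∉ cyc P r ∧ q' ∉ cyc P r then 1 else 0) := by
      intro P
      rw [sq, sum_mul_sum]
      refine sum_congr rfl fun q _ => sum_congr rfl fun q' _ => ?_
      by_cases hq : q ∈ cyc P r <;> by_cases hq' : q' ∈ cyc P r <;> simp [hq, hq']
    simp only [e]
    rw [sum_comm]
    refine sum_congr rfl fun q _ => ?_
    rw [sum_comm]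
    refine sum_congr rfl fun q' _ => ?_
    rw [← mul_sum, cc, card_filter]
    push_cast
    rfl
  rw [h1]
  -- a constant for the off-diagonal terms
  obtain ⟨c2, hc0, hcN, hc⟩ : ∃ c2 : ℕ, (c2 ≤ (Fintype.card β).factorial) ∧
      (∀ q q', q ≠ q' → q ≠ r → q' ≠ r → cc r q q' = c2) ∧
      ((∀ q q', q ≠ r → q' ≠ r → q = q') → c2 = 0) := by
    by_cases hex : ∃ q0 q1 : β, q0 ≠ q1 ∧ q0 ≠ r ∧ q1 ≠ r
    · obtain ⟨q0, q1, h01, h0, h1'⟩ := hex
      refine ⟨cc r q0 q1, cc_le _ _ _, fun q q' h h' h'' => cc_const r q0 q1 q q' h01 h0 h1' h h' h'',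
        fun h => absurd (h q0 q1 h0 h1') h01⟩
    · push Not at hex
      refine ⟨0, Nat.zero_le _, fun q q' h h' h'' => absurd (hex q q' h h') h'', fun _ => rfl⟩
  set N : ℝ := ((Fintype.card β).factorial : ℝ) with hN
  have hc0' : (c2 : ℝ) ≤ N := by rw [hN]; exact_mod_cast hc0
  -- the value of each coefficient
  have hterm : ∀ q q', a q * a q' * (cc r q q' : ℝ)
      = (if q = r ∨ q' = r then 0 else a q * a q' * (c2 : ℝ))
        + (if q = q' ∧ q ≠ r then a q ^ 2 * ((cc r q q : ℝ) - c2) else 0) := by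
    intro q q'
    by_cases hq : q = r
    · subst hq
      rw [cc_left]
      simp
    · by_cases hq' : q' = r
      · subst hq'
        rw [cc_comm, cc_left]
        have : ¬ (q = q' ∧ q ≠ q') := fun h => h.2 h.1
        simp [hq]
      · by_cases hqq : q = q'
        · subst hqq
          simp only [hq, or_self, if_false, ne_eq, not_false_eq_true, and_self, if_true]
          ring
        · rw [hcN q q' hqq hq hq']
          simp [hq, hq', hqq]
  simp only [hterm]
  have h2 : ∑ q, ∑ q', ((if q = r ∨ q' = r then 0 else a q * a q' * (c2 : ℝ))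
        + (if q = q' ∧ q ≠ r then a q ^ 2 * ((cc r q q : ℝ) - c2) else 0))
      = (c2 : ℝ) * (a r) ^ 2 + ∑ q, (if q ≠ r then a q ^ 2 * ((cc r q q : ℝ) - c2) else 0) := by
    simp only [sum_add_distrib]
    congr 1
    · have h3 : ∀ q q', (if q = r ∨ q' = r then 0 else a q * a q' * (c2 : ℝ))
          = (c2 : ℝ) * ((if q = r then 0 else a q) * (if q' = r then 0 else a q')) := by
        intro q q'
        by_cases hq : q = r <;> by_cases hq' : q' = r <;> simp [hq, hq'] <;> ring
      simp only [h3]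
      simp only [← mul_sum]
      rw [← sum_mul]
      have h4 : ∑ q, (if q = r then 0 else a q) = - a r := by
        have : ∑ q, a q = ∑ q, (if q = r then 0 else a q) + ∑ q, (if q = r then a q else 0) := by
          rw [← sum_add_distrib]
          refine sum_congr rfl fun q _ => ?_
          by_cases hq : q = r <;> simp [hq]
        rw [ha, sum_ite_eq' univ r, if_pos (mem_univ r)] at this
        linarith
      rw [h4]
      ring
    · refine sum_congr rfl fun q _ => ?_
      by_cases hq : q = r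
      · simp [hq]
      · simp only [ne_eq, hq, not_false_eq_true, and_true, if_true]
        rw [sum_ite_eq univ q, if_pos (mem_univ q)]
  rw [h2]
  have har : ∑ q, a q ^ 2 = a r ^ 2 + ∑ q, (if q ≠ r then a q ^ 2 else 0) := by
    have : ∑ q, a q ^ 2 = ∑ q, (if q ≠ r then a q ^ 2 else 0)
        + ∑ q, (if q = r then a q ^ 2 else 0) := by
      rw [← sum_add_distrib]
      refine sum_congr rfl fun q _ => ?_
      by_cases hq : q = r <;> simp [hq]
    rw [this, sum_ite_eq' univ r, if_pos (mem_univ r)]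
    ring
  rw [har, mul_add, mul_sum]
  have hN0 : 0 ≤ N := by rw [hN]; positivity
  apply add_le_add
  · nlinarith [sq_nonneg (a r)]
  · apply sum_le_sum
    intro q _
    by_cases hq : q = r
    · simp [hq]
    · simp only [ne_eq, hq, not_false_eq_true, if_true]
      have h5 : (cc r q q : ℝ) ≤ N := by rw [hN]; exact_mod_cast cc_le r q q
      have h6 : (0 : ℝ) ≤ c2 := by positivity
      nlinarith [sq_nonneg (a q)]

/-- If the cycle of `r` in a random permutation misses little weight then it is long. -/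
theorem card_light_le (r : β) (w : β → ℕ) (m D : ℕ) (hw : ∀ q, w q ≤ m)
    (hW : 0 < ∑ q, w q) (κ : ℝ) (hκ : 0 < κ) :
    ((univ.filter (fun P : Equiv.Perm β => ∑ q, (if q ∈ cyc P r then 0 else w q) ≤ D)).card : ℝ)
      ≤ ((Fintype.card β).factorial : ℝ)
        * ((D : ℝ) / (∑ q, w q : ℕ) + κ + 1 / Fintype.card β + m / ((∑ q, w q : ℕ) * κ ^ 2)) := by
  classical
  set n := Fintype.card β with hn
  have hn0 : 0 < n := Fintype.card_pos_iff.mpr ⟨r⟩
  have hnR : (0 : ℝ) < n := by exact_mod_cast hn0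
  set W : ℕ := ∑ q, w q with hWdef
  have hWR : (0 : ℝ) < W := by exact_mod_cast hW
  set a : β → ℝ := fun q => 1 / (n : ℝ) - w q / W with ha
  have hasum : ∑ q, a q = 0 := by
    rw [ha, sum_sub_distrib, sum_const, card_univ, ← hn, nsmul_eq_mul, ← sum_div,
      ← Nat.cast_sum, ← hWdef]
    field_simp
    ring
  have hsq : ∑ q, a q ^ 2 ≤ m / W := by
    have e1 : ∑ q, a q ^ 2 = ∑ q, ((w q : ℝ) ^ 2 / W ^ 2) - 1 / n := by
      have e2 : ∀ q, a q ^ 2 = (w q : ℝ) ^ 2 / W ^ 2 + (1 / (n : ℝ)) ^ 2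
          - 2 / (n * W) * w q := by
        intro q
        rw [ha]
        field_simp
        ring
      simp only [e2]
      rw [sum_sub_distrib, sum_add_distrib, sum_const, card_univ, ← hn, nsmul_eq_mul, ← mul_sum,
        ← Nat.cast_sum, ← hWdef]
      field_simp
      ring
    have e3 : ∑ q, ((w q : ℝ) ^ 2 / W ^ 2) ≤ m / W := by
      have e4 : ∀ q ∈ (univ : Finset β), (w q : ℝ) ^ 2 / W ^ 2 ≤ m / W ^ 2 * w q := by
        intro q _
        rw [div_mul_eq_mul_div]
        apply div_le_div_of_nonneg_right _ (by positivity)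
        have : (w q : ℝ) ≤ m := by exact_mod_cast hw q
        nlinarith [Nat.cast_nonneg (α := ℝ) (w q)]
      refine (sum_le_sum e4).trans ?_
      rw [← mul_sum, ← Nat.cast_sum, ← hWdef, sq, div_mul_eq_mul_div, mul_div_mul_right _ _ hWR.ne']
    have : (0 : ℝ) < 1 / n := by positivity
    linarith
  set F : Equiv.Perm β → ℝ := fun P => ∑ q, if q ∈ cyc P r then 0 else a q with hF
  have hFval : ∀ P : Equiv.Perm β, F P = ((n - (cyc P r).card : ℕ) : ℝ) / n
      - ((∑ q, (if q ∈ cyc P r then 0 else w q) : ℕ) : ℝ) / W := by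
    intro P
    rw [hF]
    simp only
    have e1 : ∀ q, (if q ∈ cyc P r then 0 else a q)
        = (if q ∈ cyc P r then 0 else (1 : ℝ)) / n
          - ((if q ∈ cyc P r then 0 else w q : ℕ) : ℝ) / W := by
      intro q
      by_cases hq : q ∈ cyc P r <;> simp [hq, ha]
    simp only [e1]
    rw [sum_sub_distrib, ← sum_div, ← sum_div, ← Nat.cast_sum]
    congr 2
    have e2 : ∀ q, (if q ∈ cyc P r then 0 else (1 : ℝ)) = (if q ∈ (cyc P r)ᶜ then (1 : ℝ) else 0) := by
      intro q
      by_cases hq : q ∈ cyc P r <;> simp [hq]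
    simp only [e2]
    rw [sum_ite_mem, univ_inter, sum_const, card_compl, nsmul_eq_mul, mul_one]
  -- Chebyshev
  have hcheb : ((univ.filter (fun P : Equiv.Perm β => κ < F P)).card : ℝ) * κ ^ 2
      ≤ (n.factorial : ℝ) * (m / W) := by
    calc ((univ.filter (fun P : Equiv.Perm β => κ < F P)).card : ℝ) * κ ^ 2
        = ∑ P ∈ univ.filter (fun P : Equiv.Perm β => κ < F P), κ ^ 2 := by
          rw [sum_const, nsmul_eq_mul]
      _ ≤ ∑ P ∈ univ.filter (fun P : Equiv.Perm β => κ < F P), F P ^ 2 := by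
          apply sum_le_sum
          intro P hP
          rw [mem_filter] at hP
          exact pow_le_pow_left₀ hκ.le hP.2.le 2
      _ ≤ ∑ P, F P ^ 2 := by
          apply sum_le_univ_sum_of_nonneg
          intro P
          positivity
      _ ≤ (n.factorial : ℝ) * ∑ q, a q ^ 2 := second_moment r a hasum
      _ ≤ _ := by
          apply mul_le_mul_of_nonneg_left hsq (by positivity)
  -- long cycles
  set θ : ℝ := (D : ℝ) / W + κ with hθ
  have hθ0 : 0 ≤ θ := by positivity
  have hlong : ((univ.filter (fun P : Equiv.Perm β =>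
      ((n - (cyc P r).card : ℕ) : ℝ) / n ≤ θ)).card : ℝ)
      ≤ (n.factorial : ℝ) * (θ + 1 / n) := by
    set g : ℕ := n - ⌊θ * n⌋₊ with hg
    have h1 : univ.filter (fun P : Equiv.Perm β => ((n - (cyc P r).card : ℕ) : ℝ) / n ≤ θ)
        ⊆ univ.filter (fun P : Equiv.Perm β => (cyc P r).card ∈ Icc (max 1 g) n) := by
      intro P hP
      rw [mem_filter] at hP ⊢
      refine ⟨mem_univ _, ?_⟩
      rw [mem_Icc, max_le_iff]
      refine ⟨⟨card_cyc_pos P r, ?_⟩, card_le_univ _⟩
      have h2 := hP.2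
      rw [div_le_iff₀ hnR] at h2
      have h3 : n - (cyc P r).card ≤ ⌊θ * n⌋₊ := Nat.le_floor h2
      omega
    have h4 := card_le_card h1
    rw [card_cyc_mem r (Icc (max 1 g) n) (by
      intro l hl
      rw [mem_Icc] at hl
      omega), Nat.card_Icc] at h4
    have h5 : n + 1 - max 1 g ≤ ⌊θ * n⌋₊ + 1 := by omega
    have h6 : (univ.filter (fun P : Equiv.Perm β =>
        ((n - (cyc P r).card : ℕ) : ℝ) / n ≤ θ)).card
        ≤ (⌊θ * n⌋₊ + 1) * (n - 1).factorial := h4.trans (Nat.mul_le_mul_right _ h5)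
    have h7 : ((univ.filter (fun P : Equiv.Perm β =>
        ((n - (cyc P r).card : ℕ) : ℝ) / n ≤ θ)).card : ℝ)
        ≤ (⌊θ * n⌋₊ + 1) * ((n - 1).factorial : ℝ) := by exact_mod_cast h6
    have h8 : ((n.factorial : ℕ) : ℝ) = n * ((n - 1).factorial : ℝ) := by
      rw [← Nat.mul_factorial_pred hn0.ne']
      push_cast
      ring
    rw [h8]
    refine h7.trans ?_
    have h9 : (⌊θ * n⌋₊ : ℝ) ≤ θ * n := Nat.floor_le (by positivity)
    have h10 : (0 : ℝ) ≤ ((n - 1).factorial : ℝ) := by positivity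
    have h11 : (n : ℝ) * ((n - 1).factorial : ℝ) * (θ + 1 / n)
        = (θ * n + 1) * ((n - 1).factorial : ℝ) := by
      field_simp
    rw [h11]
    apply mul_le_mul_of_nonneg_right _ h10
    linarith
  -- combine
  have hsub : univ.filter (fun P : Equiv.Perm β =>
      ∑ q, (if q ∈ cyc P r then 0 else w q) ≤ D)
      ⊆ univ.filter (fun P : Equiv.Perm β => ((n - (cyc P r).card : ℕ) : ℝ) / n ≤ θ)
        ∪ univ.filter (fun P : Equiv.Perm β => κ < F P) := by
    intro P hP
    rw [mem_filter] at hP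
    rw [mem_union, mem_filter, mem_filter]
    by_cases h : ((n - (cyc P r).card : ℕ) : ℝ) / n ≤ θ
    · left; exact ⟨mem_univ _, h⟩
    · right
      refine ⟨mem_univ _, ?_⟩
      rw [hFval]
      push Not at h
      have h1 : ((∑ q, (if q ∈ cyc P r then 0 else w q) : ℕ) : ℝ) / W ≤ D / W := by
        apply div_le_div_of_nonneg_right _ hWR.le
        exact_mod_cast hP.2
      rw [hθ] at h
      linarith
  have h1 : ((univ.filter (fun P : Equiv.Perm β =>
      ∑ q, (if q ∈ cyc P r then 0 else w q) ≤ D)).card : ℝ)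
      ≤ ((univ.filter (fun P : Equiv.Perm β =>
        ((n - (cyc P r).card : ℕ) : ℝ) / n ≤ θ)).card : ℝ)
        + ((univ.filter (fun P : Equiv.Perm β => κ < F P)).card : ℝ) := by
    exact_mod_cast (card_le_card hsub).trans (card_union_le _ _)
  have h2 : ((univ.filter (fun P : Equiv.Perm β => κ < F P)).card : ℝ)
      ≤ (n.factorial : ℝ) * (m / (W * κ ^ 2)) := by
    rw [← div_div, ← mul_div_assoc, le_div_iff₀ (by positivity)]
    exact hcheb
  calc _ ≤ (n.factorial : ℝ) * (θ + 1 / n) + (n.factorial : ℝ) * (m / (W * κ ^ 2)) := by linarith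
    _ = _ := by rw [hθ]; ring

end

end Pool.MP99279c.AA
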