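import Pool.Agent.Work.MP_99279c_al.AA.Amp2
import Pool.Agent.Work.MP_99279c_al.AA.Final

/-!
# Amplification: from small support to the identity, for all transitive pairs at once
-/

set_option autoImplicit false
set_option linter.unusedSectionVars false

namespace Pool.MP99279c.AA

open Finset Function FreeGroup Pool.MP99279c

theorem one_sub_pow_le (t : ℝ) (ht0 : 0 ≤ t) (ht1 : t ≤ 1) (l : ℕ) :
    (1 - t) ^ l ≤ 1 / (1 + l * t) := by
  have h1 : 1 + (l : ℝ) * t ≤ (1 + t) ^ l := one_add_mul_le_pow (by linarith) l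
  have h2 : (1 - t) ^ l * (1 + t) ^ l ≤ 1 := by
    rw [← mul_pow]
    apply pow_le_one₀
    · nlinarith
    · nlinarith
  have h3 : 0 < 1 + (l : ℝ) * t := by positivity
  rw [le_div_iff₀ h3]
  calc (1 - t) ^ l * (1 + l * t) ≤ (1 - t) ^ l * (1 + t) ^ l :=
        mul_le_mul_of_nonneg_left h1 (pow_nonneg (by linarith) _)
    _ ≤ 1 := h2

/-- the leaf: a random conjugate moves every point with probability at most `1/3 - 1/(4n)` -/
theorem leaf_transitive {n : ℕ} (hn : 2 ≤ n) (f : Fin 2 → Equiv.Perm (Fin n))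
    (ht : MulAction.IsPretransitive (Subgroup.closure (Set.range f)) (Fin n))
    (v : F2) (hv : 3 * (FreeGroup.lift f v).support.card < n)
    {Ω : Type} [Fintype Ω] [Nonempty Ω] (c : Ω → F2)
    (hc : ∀ (α : Type) [Fintype α] [DecidableEq α] (φ : F2 →* Equiv.Perm α) (F : α → ℝ) (x : α),
      ∑ ω, F (φ (c ω) x) = Fintype.card Ω
        * (Pop (φ (FreeGroup.of 0)) (φ (FreeGroup.of 1)))^[576 * n ^ 6] F x)
    (x : Fin n) :
    ((univ.filter (fun ω => FreeGroup.lift f ((c ω)⁻¹ * v * c ω) x ≠ x)).card : ℝ)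
      ≤ (1 / 3 - 1 / (4 * n)) * Fintype.card Ω := by
  classical
  have hnR2 : (2 : ℝ) ≤ n := by exact_mod_cast hn
  have hnR : (0 : ℝ) < n := by linarith
  set φ : F2 →* Equiv.Perm (Fin n) := FreeGroup.lift f with hφ
  have hφ0 : φ (FreeGroup.of 0) = f 0 := by rw [hφ, FreeGroup.lift_apply_of]
  have hφ1 : φ (FreeGroup.of 1) = f 1 := by rw [hφ, FreeGroup.lift_apply_of]
  have hconn : Conn (f 0) (f 1) := conn_of_transitive f ht
  set S := (φ v).support with hS
  set s : ℝ := (S.card : ℝ) with hs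
  have hs3 : 3 * s ≤ n - 1 := by
    have h1 : 3 * S.card + 1 ≤ n := hv
    have h2 : ((3 * S.card + 1 : ℕ) : ℝ) ≤ (n : ℝ) := by exact_mod_cast h1
    push_cast at h2
    rw [hs]
    linarith
  have hs0 : 0 ≤ s := by rw [hs]; positivity
  set F : Fin n → ℝ := fun y => (if y ∈ S then (1 : ℝ) else 0) - s / n with hF
  have hFsum : ∑ y, F y = 0 := by
    have e1 : ∑ y : Fin n, (if y ∈ S then (1 : ℝ) else 0) = s := by
      rw [sum_boole, hs]
      congr 2
      ext y
      simp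
    rw [hF]
    simp only
    rw [sum_sub_distrib, e1, sum_const, card_univ, Fintype.card_fin, nsmul_eq_mul]
    field_simp
    ring
  have hFsq : ∑ y, (F y) ^ 2 ≤ n := by
    have e1 : ∀ y ∈ (univ : Finset (Fin n)), (F y) ^ 2 ≤ 1 := by
      intro y _
      have h1 : s / n ≤ 1 := by
        rw [div_le_one hnR]
        linarith
      have h2 : 0 ≤ s / n := by positivity
      rw [hF]
      simp only
      split_ifs
      · nlinarith
      · nlinarith
    refine (sum_le_sum e1).trans ?_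
    rw [sum_const, card_univ, Fintype.card_fin, nsmul_eq_mul, mul_one]
  have hcard : Fintype.card (Fin n) = n := Fintype.card_fin n
  have hiter := (contract_iter (f 0) (f 1) hconn F hFsum (by rw [hcard]; omega) (576 * n ^ 6)).2
  rw [hcard] at hiter
  set V : ℝ := (Pop (f 0) (f 1))^[576 * n ^ 6] F x with hV
  have hV2 : V ^ 2 ≤ 1 / (144 * n ^ 2) := by
    have h1 : V ^ 2 ≤ ∑ y, ((Pop (f 0) (f 1))^[576 * n ^ 6] F y) ^ 2 := by
      rw [hV]
      exact single_le_sum (f := fun y => ((Pop (f 0) (f 1))^[576 * n ^ 6] F y) ^ 2)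
        (fun _ _ => by positivity) (mem_univ x)
    have ht1 : 1 / (4 * (n : ℝ) ^ 3) ≤ 1 := by
      rw [div_le_one (by positivity)]
      have : (1 : ℝ) ≤ (n : ℝ) ^ 3 := one_le_pow₀ (by linarith)
      linarith
    have h2 := one_sub_pow_le (1 / (4 * (n : ℝ) ^ 3)) (by positivity) ht1 (576 * n ^ 6)
    have h3 : 1 / (1 + ((576 * n ^ 6 : ℕ) : ℝ) * (1 / (4 * (n : ℝ) ^ 3))) ≤ 1 / (144 * n ^ 3) := by
      apply one_div_le_one_div_of_le (by positivity)
      push_cast
      have : (576 * (n : ℝ) ^ 6) * (1 / (4 * (n : ℝ) ^ 3)) = 144 * n ^ 3 := by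
        field_simp
        ring
      rw [this]
      linarith
    calc V ^ 2 ≤ _ := h1
      _ ≤ (1 - 1 / (4 * (n : ℝ) ^ 3)) ^ (576 * n ^ 6) * ∑ y, (F y) ^ 2 := hiter
      _ ≤ (1 / (144 * n ^ 3)) * n := by
          apply mul_le_mul (h2.trans h3) hFsq (sum_nonneg (fun _ _ => by positivity))
            (by positivity)
      _ = 1 / (144 * n ^ 2) := by
          field_simp
  have hV1 : V ≤ 1 / (12 * n) := by
    have : V ^ 2 ≤ (1 / (12 * n)) ^ 2 := by
      refine hV2.trans (le_of_eq ?_)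
      rw [div_pow, one_pow, mul_pow]
      norm_num
    exact le_of_sq_le_sq this (by positivity)
  have hsum := hc (Fin n) φ F x
  rw [hφ0, hφ1, ← hV] at hsum
  have hcount : ∑ ω, F (φ (c ω) x)
      = ((univ.filter (fun ω => φ ((c ω)⁻¹ * v * c ω) x ≠ x)).card : ℝ)
        - Fintype.card Ω * (s / n) := by
    rw [hF]
    simp only
    rw [sum_sub_distrib, sum_boole, sum_const, card_univ, nsmul_eq_mul]
    congr 3
    apply filter_congr
    intro ω _
    have h1 := moved_conj φ (c ω)⁻¹ v x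
    rw [inv_inv, _root_.map_inv, inv_inv] at h1
    rw [h1, hS, Equiv.Perm.mem_support]
  rw [hcount] at hsum
  have h4 : ((univ.filter (fun ω => φ ((c ω)⁻¹ * v * c ω) x ≠ x)).card : ℝ)
      = Fintype.card Ω * (V + s / n) := by linarith
  rw [h4, mul_comm]
  apply mul_le_mul_of_nonneg_right _ (Nat.cast_nonneg _)
  have h5 : s / n ≤ 1 / 3 - 1 / (3 * n) := by
    rw [div_le_iff₀ hnR]
    have : (1 / 3 - 1 / (3 * (n : ℝ))) * n = (n - 1) / 3 := by
      field_simp
    rw [this]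
    linarith
  have h6 : (1 : ℝ) / (3 * n) = 1 / (12 * n) + 1 / (4 * n) := by
    field_simp
    norm_num
  linarith

/-- **Amplification.** A word `w`, only polynomially longer than `v`, which is trivial on all pairs
generating a transitive group for which `v` moves less than one third of the points. -/
theorem amplify (n : ℕ) (hn : 2 ≤ n) (v : F2) (hv : v ≠ 1) :
    ∃ w : F2, w ≠ 1 ∧ w.norm ≤ 4096 * n ^ 12 * (v.norm + 1152 * n ^ 6 + 1) ∧
      ∀ f : Fin 2 → Equiv.Perm (Fin n),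
        MulAction.IsPretransitive (Subgroup.closure (Set.range f)) (Fin n) →
        3 * (FreeGroup.lift f v).support.card < n → FreeGroup.lift f w = 1 := by
  classical
  have hnR2 : (2 : ℝ) ≤ n := by exact_mod_cast hn
  have hnR : (0 : ℝ) < n := by linarith
  obtain ⟨Ω, _, _, c, hc1, hc2⟩ := walk (576 * n ^ 6)
  obtain ⟨d, hd1, hd2⟩ := exists_two_pow (4 * n ^ 3) (by
    have : 0 < n ^ 3 := by positivity
    omega)
  set L := v.norm + 1152 * n ^ 6 with hL
  obtain ⟨Ω', _, _, w, hw1, hw2, hw3⟩ := tree2 L d Ω (fun ω => (c ω)⁻¹ * v * c ω)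
    (fun ω h => hv (by
      have h1 : c ω * ((c ω)⁻¹ * v * c ω) * (c ω)⁻¹ = c ω * 1 * (c ω)⁻¹ :=
        congrArg (fun t => c ω * t * (c ω)⁻¹) h
      have h2 : c ω * ((c ω)⁻¹ * v * c ω) * (c ω)⁻¹ = v := by group
      rw [h2] at h1
      rw [h1]
      group))
    (fun ω => by
      have h1 := norm_mul_le ((c ω)⁻¹ * v) (c ω)
      have h2 := norm_mul_le (c ω)⁻¹ v
      rw [norm_inv_eq] at h2
      have h3 := hc1 ω
      change ((c ω)⁻¹ * v * c ω).norm ≤ L
      omega)
  -- the good choice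
  set Bad : Finset (Fin 2 → Equiv.Perm (Fin n)) := univ.filter (fun f =>
    MulAction.IsPretransitive (Subgroup.closure (Set.range f)) (Fin n) ∧
      3 * (FreeGroup.lift f v).support.card < n) with hBad
  set q : ℝ := 1 / 3 - 1 / (4 * n) with hq
  have hq0 : 0 ≤ q := by
    rw [hq]
    have : 1 / (4 * (n : ℝ)) ≤ 1 / 8 := one_div_le_one_div_of_le (by norm_num) (by linarith)
    linarith
  have hpt : ∀ f ∈ Bad, ∀ x, ((univ.filter (fun ω => FreeGroup.lift f (w ω) x ≠ x)).card : ℝ)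
      ≤ (3 * q) ^ (2 ^ d) / 3 * Fintype.card Ω' := by
    intro f hf x
    rw [hBad, mem_filter] at hf
    obtain ⟨_, hf1, hf2⟩ := hf
    have h1 := hw3 (Fin n) (FreeGroup.lift f) q hq0
      (fun x => leaf_transitive hn f hf1 v hf2 c hc2 x) x
    have h2 : (3 * q) ^ (2 ^ d) / 3 * Fintype.card Ω'
        = ((3 * q) ^ (2 ^ d) * Fintype.card Ω') / 3 := by ring
    rw [h2, le_div_iff₀ (by norm_num)]
    linarith
  -- the numbers
  have hfac : (n.factorial : ℝ) ^ 2 * n ≤ Real.exp (3 * n ^ 2) := by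
    have h1 : (n.factorial : ℝ) ≤ (n : ℝ) ^ n := by exact_mod_cast Nat.factorial_le_pow n
    have h2 : (n : ℝ) ≤ Real.exp n := by
      have := Real.add_one_le_exp (n : ℝ)
      linarith
    have h3 : (n.factorial : ℝ) ≤ Real.exp (n * n) := by
      calc (n.factorial : ℝ) ≤ (n : ℝ) ^ n := h1
        _ ≤ (Real.exp n) ^ n := pow_le_pow_left₀ hnR.le h2 n
        _ = Real.exp (n * n) := by rw [← Real.exp_nat_mul]
    calc (n.factorial : ℝ) ^ 2 * n ≤ (Real.exp (n * n)) ^ 2 * Real.exp n := by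
          apply mul_le_mul (pow_le_pow_left₀ (by positivity) h3 2) h2 hnR.le (by positivity)
      _ = Real.exp (2 * (n * n) + n) := by
          rw [← Real.exp_nat_mul, ← Real.exp_add]
          push_cast
          rfl
      _ ≤ Real.exp (3 * n ^ 2) := by
          apply Real.exp_le_exp.mpr
          nlinarith
  have hqpow : (3 * q) ^ (2 ^ d) ≤ Real.exp (-(3 * n ^ 2)) := by
    have h1 : 3 * q = 1 - 3 / (4 * n) := by
      rw [hq]
      ring
    have h2 : 3 * q ≤ Real.exp (-(3 / (4 * n))) := by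
      rw [h1]
      have := Real.add_one_le_exp (-(3 / (4 * (n : ℝ))))
      linarith
    calc (3 * q) ^ (2 ^ d) ≤ (Real.exp (-(3 / (4 * n)))) ^ (2 ^ d) :=
          pow_le_pow_left₀ (by positivity) h2 _
      _ = Real.exp (((2 ^ d : ℕ) : ℝ) * (-(3 / (4 * n)))) := by rw [← Real.exp_nat_mul]
      _ ≤ Real.exp (-(3 * n ^ 2)) := by
          apply Real.exp_le_exp.mpr
          have h3 : ((4 * n ^ 3 : ℕ) : ℝ) ≤ ((2 ^ d : ℕ) : ℝ) := by exact_mod_cast hd1
          push_cast at h3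
          have h4 : 0 < 3 / (4 * (n : ℝ)) := by positivity
          have h5 := mul_le_mul_of_nonneg_right h3 h4.le
          have h6 : 4 * (n : ℝ) ^ 3 * (3 / (4 * n)) = 3 * n ^ 2 := by
            field_simp
          push_cast
          linarith
  have hex : ∃ ω, ∀ f ∈ Bad, FreeGroup.lift f (w ω) = 1 := by
    by_contra hcon
    push Not at hcon
    have hsub : (univ : Finset Ω') ⊆ Bad.biUnion (fun f => (univ : Finset (Fin n)).biUnion
        (fun x => univ.filter (fun ω => FreeGroup.lift f (w ω) x ≠ x))) := by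
      intro ω _
      obtain ⟨f, hf, hfw⟩ := hcon ω
      have : ∃ x, FreeGroup.lift f (w ω) x ≠ x := by
        by_contra h
        push Not at h
        exact hfw (Equiv.Perm.ext h)
      obtain ⟨x, hx⟩ := this
      rw [mem_biUnion]
      refine ⟨f, hf, ?_⟩
      rw [mem_biUnion]
      exact ⟨x, mem_univ _, by rw [mem_filter]; exact ⟨mem_univ _, hx⟩⟩
    have h1 : (Fintype.card Ω' : ℝ) ≤ ∑ f ∈ Bad, ∑ x : Fin n,
        ((univ.filter (fun ω => FreeGroup.lift f (w ω) x ≠ x)).card : ℝ) := by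
      have h2 := card_le_card hsub
      rw [card_univ] at h2
      have h3 : (Bad.biUnion (fun f => (univ : Finset (Fin n)).biUnion
        (fun x => univ.filter (fun ω => FreeGroup.lift f (w ω) x ≠ x)))).card
          ≤ ∑ f ∈ Bad, ∑ x : Fin n, (univ.filter (fun ω => FreeGroup.lift f (w ω) x ≠ x)).card :=
        card_biUnion_le.trans (sum_le_sum (fun f _ => card_biUnion_le))
      exact_mod_cast h2.trans h3
    have h2 : ∑ f ∈ Bad, ∑ x : Fin n,
        ((univ.filter (fun ω => FreeGroup.lift f (w ω) x ≠ x)).card : ℝ)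
        ≤ ∑ _f ∈ Bad, ∑ _x : Fin n, ((3 * q) ^ (2 ^ d) / 3 * Fintype.card Ω') :=
      sum_le_sum (fun f hf => sum_le_sum (fun x _ => hpt f hf x))
    have hBc : (Bad.card : ℝ) ≤ (n.factorial : ℝ) ^ 2 := by
      have h3 := card_le_univ Bad
      rw [Fintype.card_fun, Fintype.card_fin, Fintype.card_perm, Fintype.card_fin] at h3
      exact_mod_cast h3
    rw [sum_const, sum_const, card_univ, Fintype.card_fin, nsmul_eq_mul, nsmul_eq_mul] at h2
    have hΩ : (0 : ℝ) < Fintype.card Ω' := by exact_mod_cast Fintype.card_pos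
    have h4 : (Bad.card : ℝ) * (n * ((3 * q) ^ (2 ^ d) / 3 * Fintype.card Ω'))
        ≤ (1 / 3) * Fintype.card Ω' := by
      calc (Bad.card : ℝ) * (n * ((3 * q) ^ (2 ^ d) / 3 * Fintype.card Ω'))
          ≤ (n.factorial : ℝ) ^ 2 * (n * ((3 * q) ^ (2 ^ d) / 3 * Fintype.card Ω')) :=
            mul_le_mul_of_nonneg_right hBc (by positivity)
        _ = ((n.factorial : ℝ) ^ 2 * n) * (3 * q) ^ (2 ^ d) / 3 * Fintype.card Ω' := by ring
        _ ≤ (Real.exp (3 * n ^ 2) * Real.exp (-(3 * n ^ 2))) / 3 * Fintype.card Ω' := by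
            apply mul_le_mul_of_nonneg_right _ hΩ.le
            apply div_le_div_of_nonneg_right _ (by norm_num)
            exact mul_le_mul hfac hqpow (by positivity) (by positivity)
        _ = (1 / 3) * Fintype.card Ω' := by
            rw [← Real.exp_add, add_neg_cancel, Real.exp_zero]
    linarith
  obtain ⟨ω, hω⟩ := hex
  refine ⟨w ω, hw1 ω, ?_, ?_⟩
  · have h1 := hw2 ω
    have h2 : 12 ^ d ≤ 4096 * n ^ 12 := by
      calc 12 ^ d ≤ 16 ^ d := Nat.pow_le_pow_left (by norm_num) d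
        _ = (2 ^ d) ^ 4 := by rw [← pow_mul, mul_comm, pow_mul]; norm_num
        _ ≤ (2 * (4 * n ^ 3)) ^ 4 := Nat.pow_le_pow_left hd2 4
        _ = 4096 * n ^ 12 := by ring
    have h3 := Nat.mul_le_mul_right (L + 1) h2
    have h4 : 4096 * n ^ 12 * (v.norm + 1152 * n ^ 6 + 1) = 4096 * n ^ 12 * (L + 1) := by
      rw [hL]
    rw [h4]
    omega
  · intro f hf1 hf2
    apply hω
    rw [hBad, mem_filter]
    exact ⟨mem_univ _, hf1, hf2⟩

/-- the version for several words -/
theorem amplify_list (n : ℕ) (hn : 2 ≤ n) (N B : ℕ) (hN : 0 < N) (v : ℕ → F2)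
    (hv : ∀ i < N, v i ≠ 1) (hB : ∀ i < N, (v i).norm ≤ B) :
    ∃ w : F2, w ≠ 1 ∧ w.norm ≤ 4 * N ^ 2 * (4096 * n ^ 12 * (B + 1152 * n ^ 6 + 1) + 6) ∧
      ∀ f : Fin 2 → Equiv.Perm (Fin n),
        MulAction.IsPretransitive (Subgroup.closure (Set.range f)) (Fin n) →
        (∃ i < N, 3 * (FreeGroup.lift f (v i)).support.card < n) → FreeGroup.lift f w = 1 := by
  have h1 : ∀ i : ℕ, ∃ u : F2, i < N → (u ≠ 1 ∧
      u.norm ≤ 4096 * n ^ 12 * (B + 1152 * n ^ 6 + 1) ∧
      ∀ f : Fin 2 → Equiv.Perm (Fin n),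
        MulAction.IsPretransitive (Subgroup.closure (Set.range f)) (Fin n) →
        3 * (FreeGroup.lift f (v i)).support.card < n → FreeGroup.lift f u = 1) := by
    intro i
    by_cases hi : i < N
    · obtain ⟨u, h1, h2, h3⟩ := amplify n hn (v i) (hv i hi)
      refine ⟨u, fun _ => ⟨h1, h2.trans ?_, h3⟩⟩
      apply Nat.mul_le_mul_left
      have := hB i hi
      omega
    · exact ⟨1, fun h => absurd h hi⟩
  choose u hu using h1
  obtain ⟨m, hm1, hm2⟩ := exists_two_pow N hN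
  have hmod : ∀ b : ℕ, b % N < N := fun b => Nat.mod_lt b hN
  obtain ⟨q, hq1, hq2, hq3⟩ := balanced (fun b => u (b % N))
    (4096 * n ^ 12 * (B + 1152 * n ^ 6 + 1)) m 0
    (fun b _ _ => (hu (b % N) (hmod b)).1) (fun b _ _ => (hu (b % N) (hmod b)).2.1)
  refine ⟨q, hq1, ?_, ?_⟩
  · have h2 : 4 ^ m ≤ 4 * N ^ 2 := by
      calc 4 ^ m = (2 ^ m) ^ 2 := by rw [← pow_mul, mul_comm, pow_mul]; norm_num
        _ ≤ (2 * N) ^ 2 := Nat.pow_le_pow_left hm2 2
        _ = 4 * N ^ 2 := by ring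
    have h3 := Nat.mul_le_mul_right (4096 * n ^ 12 * (B + 1152 * n ^ 6 + 1) + 6) h2
    omega
  · rintro f hf ⟨i, hi, hfi⟩
    have h2 := hq2 i (by omega) (by omega)
    simp only [Nat.mod_eq_of_lt hi] at h2
    exact lift_eq_one _ h2 ((hu i hi).2.2 f hf hfi)

end Pool.MP99279c.AA
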