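import Pool.Agent.Work.MP_99279c_al.AA.Count

/-!
# The length of the cycle of a point of a random permutation is uniform
-/

set_option autoImplicit false

namespace Pool.MP99279c.AA

open Finset Function

section

variable {α : Type*} [Fintype α] [DecidableEq α]

open Classical in
/-- the cycle of `x` under `s`, as a finite set -/
noncomputable def cyc (s : Equiv.Perm α) (x : α) : Finset α :=
  univ.filter (fun z => ∃ i : ℕ, (s ^ i) x = z)

omit [DecidableEq α] in
theorem mem_cyc {s : Equiv.Perm α} {x z : α} : z ∈ cyc s x ↔ ∃ i : ℕ, (s ^ i) x = z := by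
  simp [cyc]

omit [DecidableEq α] in
theorem self_mem_cyc (s : Equiv.Perm α) (x : α) : x ∈ cyc s x := mem_cyc.mpr ⟨0, by simp⟩

omit [DecidableEq α] in
theorem apply_mem_cyc {s : Equiv.Perm α} {x z : α} (h : z ∈ cyc s x) : s z ∈ cyc s x := by
  obtain ⟨i, rfl⟩ := mem_cyc.mp h
  exact mem_cyc.mpr ⟨i + 1, by rw [pow_succ', Equiv.Perm.mul_apply]⟩

omit [DecidableEq α] in
/-- a set containing `x` and closed under `s` contains the cycle -/
theorem cyc_subset {s : Equiv.Perm α} {x : α} {U : Finset α} (hx : x ∈ U)
    (hU : ∀ z ∈ U, s z ∈ U) : cyc s x ⊆ U := by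
  intro z hz
  obtain ⟨i, rfl⟩ := mem_cyc.mp hz
  clear hz
  induction i with
  | zero => simpa using hx
  | succ i ih =>
    rw [pow_succ', Equiv.Perm.mul_apply]
    exact hU _ ih

omit [DecidableEq α] in
theorem inv_mem_of_forall {s : Equiv.Perm α} {U : Finset α}
    (hU : ∀ z ∈ U, s z ∈ U) {z : α} (hz : z ∈ U) : s⁻¹ z ∈ U := by
  have h1 : (s⁻¹ : Equiv.Perm α) = s ^ (orderOf s - 1) := by
    rw [eq_comm, ← mul_eq_one_iff_eq_inv, ← pow_succ,
      Nat.sub_add_cancel (orderOf_pos s), pow_orderOf_eq_one]
  rw [h1]
  generalize orderOf s - 1 = k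
  induction k with
  | zero => simpa using hz
  | succ k ih => rw [pow_succ', Equiv.Perm.mul_apply]; exact hU _ ih

omit [DecidableEq α] in
theorem inv_apply_mem_cyc {s : Equiv.Perm α} {x z : α} (h : z ∈ cyc s x) : s⁻¹ z ∈ cyc s x :=
  inv_mem_of_forall (fun _ => apply_mem_cyc) h

omit [DecidableEq α] in
/-- a set closed under `s⁻¹` is closed under `s` -/
theorem apply_mem_of_forall_inv {s : Equiv.Perm α} {U : Finset α}
    (hU : ∀ z ∈ U, s⁻¹ z ∈ U) {z : α} (hz : z ∈ U) : s z ∈ U := by
  have := inv_mem_of_forall (s := s⁻¹) hU hz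
  rwa [inv_inv] at this

omit [DecidableEq α] in
theorem cyc_subset_inv {s : Equiv.Perm α} {x : α} {U : Finset α} (hx : x ∈ U)
    (hU : ∀ z ∈ U, s⁻¹ z ∈ U) : cyc s x ⊆ U :=
  cyc_subset hx (fun _ => apply_mem_of_forall_inv hU)

omit [DecidableEq α] in
theorem mem_periodicPts_perm (s : Equiv.Perm α) (x : α) : x ∈ periodicPts (s : α → α) := by
  refine mk_mem_periodicPts (orderOf_pos s) ?_
  rw [IsPeriodicPt, IsFixedPt, ← Equiv.Perm.coe_pow, pow_orderOf_eq_one, Equiv.Perm.one_apply]

omit [DecidableEq α] in
theorem minimalPeriod_pos_perm (s : Equiv.Perm α) (x : α) : 0 < minimalPeriod (s : α → α) x :=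
  minimalPeriod_pos_of_mem_periodicPts (mem_periodicPts_perm s x)

theorem card_cyc (s : Equiv.Perm α) (x : α) : (cyc s x).card = minimalPeriod (s : α → α) x := by
  have h : cyc s x = (range (minimalPeriod (s : α → α) x)).image (fun i => (s : α → α)^[i] x) := by
    ext z
    rw [mem_cyc, mem_image]
    constructor
    · rintro ⟨i, rfl⟩
      refine ⟨i % minimalPeriod (s : α → α) x, ?_, ?_⟩
      · rw [mem_range]
        exact Nat.mod_lt _ (minimalPeriod_pos_perm s x)
      · rw [iterate_mod_minimalPeriod_eq, Equiv.Perm.coe_pow]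
    · rintro ⟨i, _, rfl⟩
      exact ⟨i, by rw [Equiv.Perm.coe_pow]⟩
  rw [h, card_image_of_injOn, card_range]
  intro i hi j hj hij
  rw [mem_coe, mem_range] at hi hj
  exact (iterate_eq_iterate_iff_of_lt_minimalPeriod hi hj).mp hij

theorem pow_inj_of_lt_card {s : Equiv.Perm α} {x : α} {i j : ℕ} (hi : i < (cyc s x).card)
    (hj : j < (cyc s x).card) (hij : (s ^ i) x = (s ^ j) x) : i = j := by
  rw [card_cyc] at hi hj
  rw [Equiv.Perm.coe_pow, Equiv.Perm.coe_pow] at hij
  exact (iterate_eq_iterate_iff_of_lt_minimalPeriod hi hj).mp hij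

theorem pow_card_cyc (s : Equiv.Perm α) (x : α) : (s ^ (cyc s x).card) x = x := by
  rw [card_cyc, Equiv.Perm.coe_pow]
  exact iterate_minimalPeriod

omit [DecidableEq α] in
theorem cyc_eq_of_mem {s : Equiv.Perm α} {x z : α} (h : z ∈ cyc s x) : cyc s z = cyc s x := by
  apply Finset.Subset.antisymm
  · exact cyc_subset h (fun _ => apply_mem_cyc)
  · obtain ⟨i, rfl⟩ := mem_cyc.mp h
    refine cyc_subset ?_ (fun _ => apply_mem_cyc)
    -- `x` is an iterate of `s^i x`
    have : ∀ k : ℕ, ((s⁻¹) ^ k) ((s ^ i) x) ∈ cyc s ((s ^ i) x) := by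
      intro k
      induction k with
      | zero => simpa using self_mem_cyc s _
      | succ k ih =>
        rw [pow_succ', Equiv.Perm.mul_apply]
        exact inv_apply_mem_cyc ih
    have h2 := this i
    rwa [← Equiv.Perm.mul_apply, inv_pow, inv_mul_cancel, Equiv.Perm.one_apply] at h2

/-- on the cycle of `x`, `s ^ |cycle|` is trivial -/
theorem pow_card_cyc_of_mem {s : Equiv.Perm α} {x z : α} (h : z ∈ cyc s x) :
    (s ^ (cyc s x).card) z = z := by
  rw [← cyc_eq_of_mem h]
  exact pow_card_cyc s z

end

section

variable {β : Type*} [Fintype β] [DecidableEq β]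

omit [Fintype β] in
theorem minimalPeriod_option_none (σ : Equiv.Perm β) :
    minimalPeriod (Equiv.Perm.decomposeOption.symm (none, σ) : Option β → Option β) none = 1 := by
  rw [minimalPeriod_eq_one_iff_isFixedPt, IsFixedPt]
  exact Equiv.Perm.decomposeOption_symm_of_none_apply σ none

omit [Fintype β] in
theorem decomposeOption_symm_some (σ : Equiv.Perm β) (a b : β) :
    (Equiv.Perm.decomposeOption.symm (some a, σ) : Option β → Option β) (some b)
      = if σ b = a then none else some (σ b) := by
  rw [Equiv.Perm.decomposeOption_symm_apply, Equiv.Perm.mul_apply]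
  simp only [Equiv.optionCongr_apply, Option.map_some]
  by_cases h : σ b = a
  · rw [if_pos h, h, Equiv.swap_apply_right]
  · rw [if_neg h, Equiv.swap_apply_of_ne_of_ne (by simp) (by simpa using h)]

theorem minimalPeriod_option_some (σ : Equiv.Perm β) (a : β) :
    minimalPeriod (Equiv.Perm.decomposeOption.symm (some a, σ) : Option β → Option β) none
      = minimalPeriod (σ : β → β) a + 1 := by
  set P : Option β → Option β := ⇑(Equiv.Perm.decomposeOption.symm (some a, σ)) with hP
  set p := minimalPeriod (σ : β → β) a with hp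
  have hp0 : 0 < p := minimalPeriod_pos_perm σ a
  have h1 : ∀ i, i < p → P^[i + 1] none = some ((σ : β → β)^[i] a) := by
    intro i
    induction i with
    | zero =>
      intro _
      rw [iterate_succ_apply, iterate_zero, id, iterate_zero, id, hP,
        Equiv.Perm.decomposeOption_symm_apply, Equiv.Perm.mul_apply]
      simp
    | succ i ih =>
      intro hi
      rw [iterate_succ_apply', ih (by omega), hP, decomposeOption_symm_some, if_neg,
        iterate_succ_apply']
      intro h
      have h' : (σ : β → β)^[i + 1] a = (σ : β → β)^[0] a := by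
        rw [iterate_succ_apply', h]; rfl
      have := (iterate_eq_iterate_iff_of_lt_minimalPeriod (f := (σ : β → β)) (x := a)
        (m := i + 1) (n := 0) hi hp0).mp h'
      omega
  have h2 : P^[p + 1] none = none := by
    obtain ⟨q, hq⟩ : ∃ q, p = q + 1 := ⟨p - 1, by omega⟩
    have h3 := h1 q (by omega)
    rw [hq, iterate_succ_apply', h3, hP, decomposeOption_symm_some, if_pos]
    have h5 : (σ : β → β)^[q + 1] a = a := by
      rw [← hq, hp]
      exact iterate_minimalPeriod
    rwa [iterate_succ_apply'] at h5
  apply le_antisymm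
  · exact IsPeriodicPt.minimalPeriod_le (by omega) h2
  · by_contra hlt
    push Not at hlt
    have hpos : 0 < minimalPeriod P none := minimalPeriod_pos_perm _ none
    obtain ⟨i, hi⟩ : ∃ i, minimalPeriod P none = i + 1 := ⟨minimalPeriod P none - 1, by omega⟩
    have h4 := h1 i (by omega)
    rw [← hi, iterate_minimalPeriod] at h4
    simp at h4

end

theorem card_minimalPeriod_eq : ∀ (n : ℕ) (α : Type) [Fintype α] [DecidableEq α],
    Fintype.card α = n → ∀ (x : α) (l : ℕ), 1 ≤ l → l ≤ n →
    (univ.filter (fun s : Equiv.Perm α => minimalPeriod (s : α → α) x = l)).card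
      = (n - 1).factorial := by
  intro n
  induction n with
  | zero => intro α _ _ _ x l h1 h2; omega
  | succ m ih =>
    intro α _ _ hcard x l h1 h2
    let β := {b : α // b ≠ x}
    have hβ : Fintype.card β = m := by
      have h0 := Fintype.card_congr (Equiv.optionSubtypeNe x)
      rw [Fintype.card_option, hcard] at h0
      exact Nat.succ_injective h0
    let e : Option β ≃ α := Equiv.optionSubtypeNe x
    have he : e none = x := Equiv.optionSubtypeNe_none x
    -- transport
    let E : Equiv.Perm α ≃ Option β × Equiv.Perm β :=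
      e.symm.permCongr.trans Equiv.Perm.decomposeOption
    have hE : ∀ s : Equiv.Perm α, minimalPeriod (s : α → α) x
        = minimalPeriod (Equiv.Perm.decomposeOption.symm (E s) : Option β → Option β) none := by
      intro s
      have : Equiv.Perm.decomposeOption.symm (E s) = e.symm.permCongr s := by
        simp [E]
      rw [this]
      rw [minimalPeriod_eq_minimalPeriod_iff]
      intro k
      have hk : ∀ k : ℕ, (e.symm.permCongr s : Option β → Option β)^[k] none
          = e.symm ((s : α → α)^[k] x) := by
        intro k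
        induction k with
        | zero =>
          rw [iterate_zero, iterate_zero, id, id, ← he, Equiv.symm_apply_apply]
        | succ k ihk =>
          rw [iterate_succ_apply', ihk, iterate_succ_apply', Equiv.permCongr_apply,
            Equiv.symm_symm, Equiv.apply_symm_apply]
      rw [IsPeriodicPt, IsPeriodicPt, IsFixedPt, IsFixedPt, hk k]
      constructor
      · intro h
        rw [h, ← he, Equiv.symm_apply_apply]
      · intro h
        rw [← h] at he
        simpa using he
    have h3 : (univ.filter (fun s : Equiv.Perm α => minimalPeriod (s : α → α) x = l)).card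
        = (univ.filter (fun p : Option β × Equiv.Perm β =>
          minimalPeriod (Equiv.Perm.decomposeOption.symm p : Option β → Option β) none = l)).card := by
      apply Finset.card_equiv E
      intro s
      rw [mem_filter, mem_filter, hE s]
      simp
    rw [h3, card_filter, Fintype.sum_prod_type, Fintype.sum_option, Nat.add_sub_cancel]
    simp only [minimalPeriod_option_none, minimalPeriod_option_some]
    by_cases hl : l = 1
    · subst hl
      have h4 : ∀ a : β, ∀ σ : Equiv.Perm β, ¬ (minimalPeriod (σ : β → β) a + 1 = 1) := by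
        intro a σ h
        have := minimalPeriod_pos_perm σ a
        omega
      simp only [h4, if_false, if_true, sum_const_zero, add_zero]
      rw [sum_const, smul_eq_mul, mul_one, card_univ, Fintype.card_perm, hβ]
    · have h4 : ¬ (1 = l) := fun h => hl h.symm
      simp only [h4, if_false, sum_const_zero, zero_add]
      have h5 : ∀ a : β, (∑ σ : Equiv.Perm β, if minimalPeriod (σ : β → β) a + 1 = l then 1 else 0)
          = (m - 1).factorial := by
        intro a
        rw [← card_filter, ← ih β hβ a (l - 1) (by omega) (by omega)]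
        congr 1
        ext σ
        rw [mem_filter, mem_filter]
        constructor
        · rintro ⟨h, h'⟩
          exact ⟨h, by omega⟩
        · rintro ⟨h, h'⟩
          exact ⟨h, by omega⟩
      simp only [h5]
      rw [sum_const, card_univ, hβ, smul_eq_mul]
      exact Nat.mul_factorial_pred (by omega)

/-- the cycle length of a point is uniform -/
theorem card_cyc_eq {α : Type} [Fintype α] [DecidableEq α] (x : α) (l : ℕ) (h1 : 1 ≤ l)
    (h2 : l ≤ Fintype.card α) :
    (univ.filter (fun s : Equiv.Perm α => (cyc s x).card = l)).card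
      = (Fintype.card α - 1).factorial := by
  simp only [card_cyc]
  exact card_minimalPeriod_eq _ α rfl x l h1 h2

theorem card_cyc_pos {α : Type} [Fintype α] [DecidableEq α] (s : Equiv.Perm α) (x : α) :
    1 ≤ (cyc s x).card := by
  rw [card_cyc]; exact minimalPeriod_pos_perm s x

/-- the cycle length in a set of integers -/
theorem card_cyc_mem {α : Type} [Fintype α] [DecidableEq α] (x : α) (L : Finset ℕ)
    (h : ∀ l ∈ L, 1 ≤ l ∧ l ≤ Fintype.card α) :
    (univ.filter (fun s : Equiv.Perm α => (cyc s x).card ∈ L)).card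
      = L.card * (Fintype.card α - 1).factorial := by
  have : univ.filter (fun s : Equiv.Perm α => (cyc s x).card ∈ L)
      = L.biUnion (fun l => univ.filter (fun s : Equiv.Perm α => (cyc s x).card = l)) := by
    ext s
    simp
  rw [this, card_biUnion]
  · rw [sum_congr rfl (fun l hl => card_cyc_eq x l (h l hl).1 (h l hl).2), sum_const, smul_eq_mul]
  · intro l _ l' _ hll
    rw [Function.onFun, disjoint_left]
    intro s h1 h2
    rw [mem_filter] at h1 h2
    exact hll (h1.2.symm.trans h2.2)

/-- cycle length at least `g` -/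
theorem card_cyc_ge {α : Type} [Fintype α] [DecidableEq α] (x : α) (g : ℕ) (h1 : 1 ≤ g) :
    (univ.filter (fun s : Equiv.Perm α => g ≤ (cyc s x).card)).card
      = (Fintype.card α + 1 - g) * (Fintype.card α - 1).factorial := by
  have := card_cyc_mem x (Icc g (Fintype.card α)) (by
    intro l hl
    rw [mem_Icc] at hl
    omega)
  rw [Nat.card_Icc] at this
  rw [← this]
  congr 1
  ext s
  rw [mem_filter, mem_filter, mem_Icc]
  constructor
  · rintro ⟨h, h'⟩
    exact ⟨h, h', card_le_univ _⟩
  · rintro ⟨h, h', _⟩
    exact ⟨h, h'⟩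

/-- cycle length at most `l` -/
theorem card_cyc_le {α : Type} [Fintype α] [DecidableEq α] (x : α) (l : ℕ) :
    (univ.filter (fun s : Equiv.Perm α => (cyc s x).card ≤ l)).card
      ≤ l * (Fintype.card α - 1).factorial := by
  have := card_cyc_mem x (Icc 1 (min l (Fintype.card α))) (by
    intro l hl
    rw [mem_Icc] at hl
    omega)
  rw [Nat.card_Icc, Nat.add_sub_cancel] at this
  refine le_trans (le_of_eq ?_) ((le_of_eq this).trans (Nat.mul_le_mul_right _ (min_le_left _ _)))
  congr 1
  ext s
  rw [mem_filter, mem_filter, mem_Icc, le_min_iff]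
  constructor
  · rintro ⟨h, h'⟩
    exact ⟨h, card_cyc_pos s x, h', card_le_univ _⟩
  · rintro ⟨h, _, h', _⟩
    exact ⟨h, h'⟩

end Pool.MP99279c.AA
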